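import Mathlib

set_option autoImplicit false
open Filter Topology MeasureTheory

namespace Pool.Agent.Helper802.JB

/-- the space of the problem -/
abbrev XX (k : ℕ → ℕ) (p : ℕ → ENNReal) [∀ n, Fact (1 ≤ p n)] : Type :=
  lp (fun n : ℕ => PiLp (p n) (fun _ : Fin (k n) => ℝ)) 2

/-- Euclidean space of dimension `n`. -/
abbrev EE (n : ℕ) : Type := EuclideanSpace ℝ (Fin n)

/-- the norm `(∑ |⟨w i, x⟩|^p)^{1/p}` -/
noncomputable def NE {n : ℕ} {ι : Type} [Fintype ι] (p : ℝ) (w : ι → EE n) (x : EE n) : ℝ :=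
  (∑ i, |inner ℝ (w i) x| ^ p) ^ (1 / p)

/-- `S` is far from the scalars `|c| ≤ K`. -/
def Far {n : ℕ} (S : EE n →ₗ[ℝ] EE n) (K α s : ℝ) : Prop :=
  ∀ c : ℝ, |c| ≤ K → ∃ V : Submodule ℝ (EE n), α * n ≤ Module.finrank ℝ V ∧
    ∀ v ∈ V, s * ‖v‖ ≤ ‖S v - c • v‖

/-- few operators -/
def FewOp {n : ℕ} {ι : Type} [Fintype ι] (p : ℝ) (w : ι → EE n) (K α s : ℝ) : Prop :=
  ∀ T : EE n →ₗ[ℝ] EE n, (∀ x, NE p w (T x) ≤ K * NE p w x) →
    ∃ c : ℝ, |c| ≤ K ∧ ∃ V : Submodule ℝ (EE n), (1 - α) * n ≤ Module.finrank ℝ V ∧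
      ∀ x ∈ V, ‖T.adjoint x - c • x‖ ≤ s * ‖x‖

/-- no path of operators from `0` to the identity -/
def NoPath {n : ℕ} {ι : Type} [Fintype ι] (p : ℝ) (w : ι → EE n) (K : ℝ) (n0 : ℕ) : Prop :=
  ∀ T : ℕ → (EE n →ₗ[ℝ] EE n), T 0 = 0 → (∀ j x, NE p w (T j x) ≤ K * NE p w x) →
    (∀ x, Tendsto (fun j => T j x) atTop (𝓝 x)) →
    (∀ j, Module.finrank ℝ (LinearMap.range (T (j + 1) - T j)) ≤ 1) →
    (∀ j, ∃ (R : EE n →ₗ[ℝ] EE n) (d : ℕ) (A : EE n →ₗ[ℝ] EE d) (B : EE d →ₗ[ℝ] EE n),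
      Module.finrank ℝ (LinearMap.range R) ≤ n0 ∧ (∀ x, ‖A x‖ ≤ K * NE p w x) ∧
      (∀ y, NE p w (B y) ≤ K * ‖y‖) ∧ ∀ x, T j x - T j (T j x) = R x + B (A x)) → False

/-- vectors `g` together with the unit vectors -/
noncomputable def withBasis {n : ℕ} {ι : Type} (g : ι → EE n) : ι ⊕ Fin n → EE n :=
  Sum.elim g (fun k => EuclideanSpace.single k 1)

/-- the `i`-th row of a vector in `ℝ^{N × n}` -/
noncomputable def row {N n : ℕ} (G : EuclideanSpace ℝ (Fin N × Fin n)) (i : Fin N) : EE n :=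
  WithLp.toLp 2 (fun k => G (i, k))

/-- rounded linear map -/
noncomputable def Smat {n : ℕ} (Z : Fin n → Fin n → ℤ) : EE n →ₗ[ℝ] EE n :=
  (1 / (n : ℝ) ^ 2) • Matrix.toEuclideanLin (Matrix.of fun k l => (Z k l : ℝ))

/-- the pieces of the union bound -/
def Piece {N n : ℕ} (K q ρ0 : ℝ) (Z : Fin n → Fin n → ℤ) (z : Fin N → (Fin N ⊕ Fin n) → ℤ) :
    Set (EuclideanSpace ℝ (Fin N × Fin n)) :=
  {G | ‖G‖ ≤ Real.sqrt (N * n) ∧ ∀ i : Fin N,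
    ‖Smat Z (row G i) - ∑ j, (K * ((N : ℝ) + n) ^ (-(1 / q)) * z i (Sum.inl j)) • row G j
      - Real.sqrt n • ∑ k, (K * ((N : ℝ) + n) ^ (-(1 / q)) * z i (Sum.inr k)) •
        (EuclideanSpace.single k (1 : ℝ) : EE n)‖ ≤ Real.sqrt n * ρ0}

/-- the subspace of `X` all of whose `m`-th blocks lie in the range of `v ↦ (⟨w m i, v⟩)_i`. -/
noncomputable def ETot (k n : ℕ → ℕ) (p : ℕ → ENNReal) [∀ m, Fact (1 ≤ p m)]
    (w : ∀ m, Fin (k m) → EE (n m)) : Submodule ℝ (XX k p) where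
  carrier := {x | ∀ m, ∃ v : EE (n m), ∀ i, x.1 m i = inner ℝ (w m i) v}
  zero_mem' := by
    intro m; exact ⟨0, fun i => by simp⟩
  add_mem' := by
    intro a b ha hb m
    obtain ⟨u, hu⟩ := ha m
    obtain ⟨v, hv⟩ := hb m
    refine ⟨u + v, fun i => ?_⟩
    rw [inner_add_right, ← hu, ← hv]; rfl
  smul_mem' := by
    intro c a ha m
    obtain ⟨u, hu⟩ := ha m
    refine ⟨c • u, fun i => ?_⟩
    rw [inner_smul_right, ← hu]; rfl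

end Pool.Agent.Helper802.JB
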