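import Mathlib
import Pool.Agent.Helper802.JS.Defs

set_option autoImplicit false
open Filter Topology MeasureTheory

open Pool.Agent.Helper802.JB 

namespace Pool.Agent.Helper802.JB.N_ETot_closed


-- TARGET
theorem ETot_closed (k n : ℕ → ℕ) (p : ℕ → ENNReal) [∀ m, Fact (1 ≤ p m)]
    (w : ∀ m, Fin (k m) → EE (n m)) : IsClosed (ETot k n p w : Set (XX k p)) := by
  -- the linear map whose range is the set of admissible blocks
  let A : ∀ m, EE (n m) →ₗ[ℝ] PiLp (p m) (fun _ : Fin (k m) => ℝ) := fun m =>
    { toFun := fun v => WithLp.toLp (p m) (fun i => inner ℝ (w m i) v)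
      map_add' := by
        intro u v
        ext i
        simp [inner_add_right]
      map_smul' := by
        intro c u
        ext i
        simp [inner_smul_right] }
  have hclosed : ∀ m, IsClosed ((LinearMap.range (A m) : Submodule ℝ _) :
      Set (PiLp (p m) (fun _ : Fin (k m) => ℝ))) := by
    intro m
    exact Submodule.closed_of_finiteDimensional _
  have hcont : ∀ m, Continuous (fun x : XX k p => x.1 m) := by
    intro m
    let L : XX k p →ₗ[ℝ] PiLp (p m) (fun _ : Fin (k m) => ℝ) :=
      { toFun := fun x => x.1 m
        map_add' := fun x y => rfl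
        map_smul' := fun c x => rfl }
    exact (L.mkContinuous 1 (fun x => by
      rw [one_mul]
      exact lp.norm_apply_le_norm (by norm_num) x m)).continuous
  have heq : (ETot k n p w : Set (XX k p)) =
      ⋂ m, (fun x : XX k p => x.1 m) ⁻¹' ((LinearMap.range (A m) : Submodule ℝ _) :
        Set (PiLp (p m) (fun _ : Fin (k m) => ℝ))) := by
    ext x
    simp only [Set.mem_iInter, Set.mem_preimage, SetLike.mem_coe, LinearMap.mem_range]
    constructor
    · intro h m
      obtain ⟨v, hv⟩ := h m
      refine ⟨v, ?_⟩
      ext i
      exact (hv i).symm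
    · intro h m
      obtain ⟨v, hv⟩ := h m
      refine ⟨v, fun i => ?_⟩
      rw [← hv]
      rfl
  rw [heq]
  exact isClosed_iInter fun m => (hclosed m).preimage (hcont m)

end Pool.Agent.Helper802.JB.N_ETot_closed
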