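import Mathlib
import Pool.Agent.Helper802.JS.Defs

set_option autoImplicit false
open Filter Topology MeasureTheory

open Pool.Agent.Helper802.JB 

namespace Pool.Agent.Helper802.JB.N_ETot_infinite


-- TARGET
theorem ETot_infinite (k n : ℕ → ℕ) (p : ℕ → ENNReal) [∀ m, Fact (1 ≤ p m)]
    (w : ∀ m, Fin (k m) → EE (n m)) (hn : ∀ m, 0 < n m)
    (hinj : ∀ m (v : EE (n m)), (∀ i, inner ℝ (w m i) v = 0) → v = 0) :
    ¬ FiniteDimensional ℝ (ETot k n p w) := by
  classical
  intro hfd
  -- nonzero vectors
  have hv : ∀ m, ∃ v : EE (n m), v ≠ 0 := by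
    intro m
    refine ⟨EuclideanSpace.single ⟨0, hn m⟩ 1, ?_⟩
    intro h
    have h1 := congrArg norm h
    rw [EuclideanSpace.norm_single, norm_one, norm_zero] at h1
    exact one_ne_zero h1
  choose v hv0 using hv
  let y : ∀ m, PiLp (p m) (fun _ : Fin (k m) => ℝ) := fun m =>
    WithLp.toLp (p m) (fun i => inner ℝ (w m i) (v m))
  have hy : ∀ m, y m ≠ 0 := by
    intro m h
    apply hv0 m
    apply hinj m
    intro i
    have h1 := congrFun (congrArg WithLp.ofLp h) i
    exact h1
  let x : ℕ → XX k p := fun m => lp.single 2 m (y m)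
  have hx1 : ∀ m, (x m).1 m = y m := by
    intro m
    show (lp.single 2 m (y m) : XX k p) m = y m
    rw [lp.single_apply_self]
  have hx2 : ∀ m j, j ≠ m → (x m).1 j = 0 := by
    intro m j hj
    show (lp.single 2 m (y m) : XX k p) j = 0
    rw [lp.single_apply_ne _ _ _ hj]
  have hxm : ∀ m, x m ∈ ETot k n p w := by
    intro m j
    by_cases hj : j = m
    · subst hj
      refine ⟨v j, fun i => ?_⟩
      rw [hx1]
    · refine ⟨0, fun i => ?_⟩
      rw [hx2 m j hj, inner_zero_right]
      rfl
  let f : ℕ → ETot k n p w := fun m => ⟨x m, hxm m⟩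
  have hli : LinearIndependent ℝ f := by
    rw [linearIndependent_iff']
    intro s g hg i hi
    let π : ETot k n p w →ₗ[ℝ] PiLp (p i) (fun _ : Fin (k i) => ℝ) :=
      { toFun := fun z => z.1.1 i
        map_add' := fun _ _ => rfl
        map_smul' := fun _ _ => rfl }
    have h1 := congrArg π hg
    rw [map_sum, map_zero] at h1
    have h2 : ∀ j ∈ s, j ≠ i → π (g j • f j) = 0 := by
      intro j _ hj
      rw [map_smul]
      have : π (f j) = 0 := hx2 j i (Ne.symm hj)
      rw [this, smul_zero]
    rw [Finset.sum_eq_single i h2 (fun h => absurd hi h), map_smul] at h1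
    have h3 : π (f i) = y i := hx1 i
    rw [h3] at h1
    rcases smul_eq_zero.1 h1 with h4 | h4
    · exact h4
    · exact absurd h4 (hy i)
  haveI : Finite ℕ := hli.finite_of_isNoetherian
  exact not_finite ℕ

end Pool.Agent.Helper802.JB.N_ETot_infinite
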