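import Mathlib
import Pool.Agent.Helper802.JS.Defs

set_option autoImplicit false
open Filter Topology MeasureTheory

open Pool.Agent.Helper802.JB 

namespace Pool.Agent.Helper802.JB.N_basis_proj

open scoped BoundedContinuousFunction in
/-- sequences of partial sums -/
def ZZ {E : Type*} [NormedAddCommGroup E] [NormedSpace ℝ E] (e : ℕ → E) :
    Submodule ℝ (ℕ →ᵇ E) where
  carrier := {s | s 0 = 0 ∧ (∀ N, s (N + 1) - s N ∈ Submodule.span ℝ ({e N} : Set E)) ∧
    CauchySeq (fun n => s n)}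
  zero_mem' := by
    refine ⟨rfl, fun N => ?_, ?_⟩
    · simp
    · simpa using (tendsto_const_nhds (x := (0 : E)) (f := (atTop : Filter ℕ))).cauchySeq
  add_mem' := by
    rintro a b ⟨ha1, ha2, ha3⟩ ⟨hb1, hb2, hb3⟩
    refine ⟨by simp [ha1, hb1], fun N => ?_, ?_⟩
    · have := add_mem (ha2 N) (hb2 N)
      convert this using 1
      simp only [BoundedContinuousFunction.coe_add, Pi.add_apply]
      abel
    · exact ha3.add hb3
  smul_mem' := by
    rintro c a ⟨ha1, ha2, ha3⟩
    refine ⟨by simp [ha1], fun N => ?_, ?_⟩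
    · have := Submodule.smul_mem _ c (ha2 N)
      convert this using 1
      simp only [BoundedContinuousFunction.coe_smul]
      rw [smul_sub]
    · exact (uniformContinuous_const_smul c).comp_cauchySeq ha3

open scoped BoundedContinuousFunction in
theorem ZZ_closed {E : Type*} [NormedAddCommGroup E] [NormedSpace ℝ E] (e : ℕ → E) :
    IsClosed ((ZZ e : Submodule ℝ (ℕ →ᵇ E)) : Set (ℕ →ᵇ E)) := by
  have heval : ∀ n : ℕ, Continuous (fun s : ℕ →ᵇ E => s n) := fun n =>
    (BoundedContinuousFunction.evalCLM ℝ n : (ℕ →ᵇ E) →L[ℝ] E).continuous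
  have h1 : IsClosed {s : ℕ →ᵇ E | s 0 = 0} := isClosed_eq (heval 0) continuous_const
  have h2 : IsClosed {s : ℕ →ᵇ E | ∀ N, s (N + 1) - s N ∈ Submodule.span ℝ ({e N} : Set E)} := by
    have : {s : ℕ →ᵇ E | ∀ N, s (N + 1) - s N ∈ Submodule.span ℝ ({e N} : Set E)} =
        ⋂ N, (fun s : ℕ →ᵇ E => s (N + 1) - s N) ⁻¹' ((Submodule.span ℝ ({e N} : Set E) : Submodule ℝ E) : Set E) := by
      ext s; simp
    rw [this]
    apply isClosed_iInter
    intro N
    apply IsClosed.preimage ((heval (N + 1)).sub (heval N))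
    exact Submodule.closed_of_finiteDimensional _
  have h3 : IsClosed {s : ℕ →ᵇ E | CauchySeq (fun n => s n)} := by
    rw [← isSeqClosed_iff_isClosed]
    intro u s hu hus
    have hu' : ∀ k, CauchySeq (fun n => u k n) := hu
    show CauchySeq (fun n => s n)
    rw [Metric.cauchySeq_iff]
    intro ε hε
    rw [Metric.tendsto_atTop] at hus
    obtain ⟨k, hk⟩ := hus (ε / 3) (by linarith)
    have hk' := hk k le_rfl
    obtain ⟨N, hN⟩ := (Metric.cauchySeq_iff.mp (hu' k)) (ε / 3) (by linarith)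
    refine ⟨N, fun m hm n hn => ?_⟩
    have a1 : dist (u k m) (s m) ≤ dist (u k) s := BoundedContinuousFunction.dist_coe_le_dist m
    have a2 : dist (u k n) (s n) ≤ dist (u k) s := BoundedContinuousFunction.dist_coe_le_dist n
    have a3 := hN m hm n hn
    have a4 := dist_triangle4 (s m) (u k m) (u k n) (s n)
    rw [dist_comm (s m) (u k m)] at a4
    linarith
  have : ((ZZ e : Submodule ℝ (ℕ →ᵇ E)) : Set (ℕ →ᵇ E)) =
      {s : ℕ →ᵇ E | s 0 = 0} ∩ ({s : ℕ →ᵇ E | ∀ N, s (N + 1) - s N ∈ Submodule.span ℝ ({e N} : Set E)} ∩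
        {s : ℕ →ᵇ E | CauchySeq (fun n => s n)}) := rfl
  rw [this]
  exact h1.inter (h2.inter h3)

-- TARGET
/-- Banach's theorem: partial sums of a Schauder basis (in the sense of unique expansions). -/
theorem basis_proj {E : Type*} [NormedAddCommGroup E] [NormedSpace ℝ E] [CompleteSpace E]
    (e : ℕ → E) (he : ∀ x : E, ∃! a : ℕ → ℝ,
      Tendsto (fun N => ∑ i ∈ Finset.range N, a i • e i) atTop (𝓝 x)) :
    ∃ (P : ℕ → E →L[ℝ] E) (K : ℝ), P 0 = 0 ∧ (∀ n, ‖P n‖ ≤ K) ∧ (∀ n x, P n (P n x) = P n x) ∧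
      (∀ x, Tendsto (fun n => P n x) atTop (𝓝 x)) ∧
      (∀ n x, ∃ c : ℝ, P (n + 1) x - P n x = c • e n) := by
  classical
  open scoped BoundedContinuousFunction in
  have hcomp : CompleteSpace (ZZ e) := (ZZ_closed e).completeSpace_coe
  have hlim : ∀ s : ZZ e, ∃ L : E, Tendsto (fun n => s.1 n) atTop (𝓝 L) := fun s =>
    cauchySeq_tendsto_of_complete s.2.2.2
  choose L hL using hlim
  let Tl : ZZ e →ₗ[ℝ] E :=
    { toFun := L
      map_add' := by
        intro a b
        apply tendsto_nhds_unique (hL (a + b))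
        have := (hL a).add (hL b)
        exact this
      map_smul' := by
        intro c a
        apply tendsto_nhds_unique (hL (c • a))
        have := (hL a).const_smul c
        exact this }
  let T : ZZ e →L[ℝ] E := Tl.mkContinuous 1 (by
    intro s
    rw [one_mul]
    have h1 : Tendsto (fun n => ‖s.1 n‖) atTop (𝓝 ‖L s‖) := (hL s).norm
    exact le_of_tendsto' h1 (fun n => BoundedContinuousFunction.norm_coe_le_norm s.1 n))
  have hT : ∀ s, T s = L s := fun s => rfl
  -- expansion of an element of ZZ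
  have hexp : ∀ s : ZZ e, ∃ c : ℕ → ℝ, ∀ N, s.1 N = ∑ i ∈ Finset.range N, c i • e i := by
    intro s
    have : ∀ N, ∃ c : ℝ, c • e N = s.1 (N + 1) - s.1 N := fun N =>
      Submodule.mem_span_singleton.mp (s.2.2.1 N)
    choose c hc using this
    refine ⟨c, fun N => ?_⟩
    induction N with
    | zero => simpa using s.2.1
    | succ N ih =>
      rw [Finset.sum_range_succ, ← ih, hc]
      abel
  have hinj : T.ker = ⊥ := by
    rw [LinearMap.ker_eq_bot']
    intro s hs
    obtain ⟨c, hc⟩ := hexp s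
    have h1 : Tendsto (fun N => ∑ i ∈ Finset.range N, c i • e i) atTop (𝓝 0) := by
      have h2 : L s = 0 := hs
      rw [← h2]
      refine (hL s).congr (fun N => hc N)
    have h2 : Tendsto (fun N => ∑ i ∈ Finset.range N, (0 : ℕ → ℝ) i • e i) atTop (𝓝 0) := by
      simp
    have h3 : c = 0 := (he 0).unique h1 h2
    apply Subtype.ext
    ext N
    rw [hc N, h3]
    simp
  have hsurj : T.range = ⊤ := by
    rw [LinearMap.range_eq_top]
    intro x
    obtain ⟨a, ha, -⟩ := he x
    have hb : ∃ C, ∀ N, ‖∑ i ∈ Finset.range N, a i • e i‖ ≤ C := by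
      obtain ⟨C, hC⟩ := (Metric.isBounded_range_of_tendsto _ ha).exists_norm_le
      exact ⟨C, fun N => hC _ ⟨N, rfl⟩⟩
    obtain ⟨C, hC⟩ := hb
    refine ⟨⟨BoundedContinuousFunction.ofNormedAddCommGroupDiscrete
      (fun N => ∑ i ∈ Finset.range N, a i • e i) C hC, ?_, ?_, ?_⟩, ?_⟩
    · simp
    · intro N
      rw [BoundedContinuousFunction.coe_ofNormedAddCommGroupDiscrete]
      simp only [Finset.sum_range_succ, add_sub_cancel_left]
      exact Submodule.smul_mem _ _ (Submodule.mem_span_singleton_self _)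
    · exact ha.cauchySeq
    · exact tendsto_nhds_unique (hL _) ha
  let φ : ZZ e ≃L[ℝ] E := ContinuousLinearEquiv.ofBijective T hinj hsurj
  have hφ : ∀ s, φ s = L s := fun s => rfl
  let ψ : E →L[ℝ] ZZ e := (φ.symm : E →L[ℝ] ZZ e)
  have hψ : ∀ x, L (ψ x) = x := fun x => φ.apply_symm_apply x
  have hψ2 : ∀ s, ψ (L s) = s := fun s => φ.symm_apply_apply s
  let P : ℕ → E →L[ℝ] E := fun n =>
    ((BoundedContinuousFunction.evalCLM ℝ n).comp (ZZ e).subtypeL).comp ψ
  have hP : ∀ n x, P n x = (ψ x).1 n := fun n x => rfl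
  refine ⟨P, ‖ψ‖, ?_, ?_, ?_, ?_, ?_⟩
  · ext x
    rw [hP]
    exact (ψ x).2.1
  · intro n
    refine ContinuousLinearMap.opNorm_le_bound (P n) (norm_nonneg ψ) (fun x => ?_)
    rw [hP]
    calc ‖(ψ x).1 n‖ ≤ ‖(ψ x).1‖ := BoundedContinuousFunction.norm_coe_le_norm _ n
      _ = ‖ψ x‖ := rfl
      _ ≤ ‖ψ‖ * ‖x‖ := ψ.le_opNorm x
  · intro n x
    have hs' : ∀ m, ‖(ψ x).1 (min m n)‖ ≤ ‖(ψ x).1‖ := fun m =>
      BoundedContinuousFunction.norm_coe_le_norm _ _
    have hev : Tendsto (fun m => (ψ x).1 (min m n)) atTop (𝓝 ((ψ x).1 n)) := by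
      apply tendsto_const_nhds.congr'
      filter_upwards [eventually_ge_atTop n] with m hm
      rw [min_eq_right hm]
    let s' : ZZ e := ⟨BoundedContinuousFunction.ofNormedAddCommGroupDiscrete
      (fun m => (ψ x).1 (min m n)) ‖(ψ x).1‖ hs', by
        refine ⟨?_, ?_, ?_⟩
        · show (ψ x).1 (min 0 n) = 0
          rw [Nat.zero_min]; exact (ψ x).2.1
        · intro N
          show (ψ x).1 (min (N + 1) n) - (ψ x).1 (min N n) ∈ _
          by_cases h : N < n
          · rw [min_eq_left h.le, min_eq_left (Nat.succ_le_of_lt h)]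
            exact (ψ x).2.2.1 N
          · have h' : n ≤ N := not_lt.mp h
            rw [min_eq_right h', min_eq_right (le_trans h' (Nat.le_succ N)), sub_self]
            exact zero_mem _
        · exact hev.cauchySeq⟩
    have h1 : L s' = (ψ x).1 n := tendsto_nhds_unique (hL s') hev
    rw [hP, hP, ← h1, hψ2]
    show (ψ x).1 (min n n) = L s'
    rw [min_self, h1]
  · intro x
    have := hL (ψ x)
    rw [hψ] at this
    exact this
  · intro n x
    obtain ⟨c, hc⟩ := Submodule.mem_span_singleton.mp ((ψ x).2.2.1 n)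
    exact ⟨c, hc.symm⟩

end Pool.Agent.Helper802.JB.N_basis_proj
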