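import Mathlib
import Pool.Agent.Helper802.JS.Defs

set_option autoImplicit false
open Filter Topology MeasureTheory

open Pool.Agent.Helper802.JB 

namespace Pool.Agent.Helper802.JB.N_lemmaB


open Metric Module in
/-- a `1/3`-separated subset of the unit ball has at most `7 ^ dim` elements -/
theorem lemmaB_card {E : Type*} [NormedAddCommGroup E] [NormedSpace ℝ E] [FiniteDimensional ℝ E]
    (s : Finset E) (hs : ∀ c ∈ s, ‖c‖ ≤ 1)
    (h : ∀ c ∈ s, ∀ d ∈ s, c ≠ d → 1 / 3 ≤ ‖c - d‖) : s.card ≤ 7 ^ finrank ℝ E := by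
  borelize E
  let μ : Measure E := Measure.addHaar
  have D : Set.Pairwise (s : Set E) (Function.onFun Disjoint (fun c => ball (c : E) (1 / 6))) := by
    rintro c hc d hd hcd
    apply ball_disjoint_ball
    rw [dist_eq_norm]
    have := h c hc d hd hcd
    linarith
  have A_subset : (⋃ c ∈ s, ball (c : E) (1 / 6)) ⊆ ball (0 : E) (7 / 6) := by
    refine Set.iUnion₂_subset fun x hx => ?_
    apply ball_subset_ball'
    rw [dist_zero_right]
    have := hs x hx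
    linarith
  have I :
    (s.card : ENNReal) * ENNReal.ofReal ((1 / 6 : ℝ) ^ finrank ℝ E) * μ (ball 0 1) ≤
      ENNReal.ofReal ((7 / 6 : ℝ) ^ finrank ℝ E) * μ (ball 0 1) :=
    calc
      (s.card : ENNReal) * ENNReal.ofReal ((1 / 6 : ℝ) ^ finrank ℝ E) * μ (ball 0 1)
          = μ (⋃ c ∈ s, ball (c : E) (1 / 6)) := by
        rw [measure_biUnion_finset D fun c _ => measurableSet_ball]
        have I : (0 : ℝ) < 1 / 6 := by norm_num
        simp only [μ.addHaar_ball_of_pos _ I]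
        simp only [Finset.sum_const, nsmul_eq_mul, mul_assoc]
      _ ≤ μ (ball (0 : E) (7 / 6)) := measure_mono A_subset
      _ = ENNReal.ofReal ((7 / 6 : ℝ) ^ finrank ℝ E) * μ (ball 0 1) := by
        have I : (0 : ℝ) < 7 / 6 := by norm_num
        simp only [μ.addHaar_ball_of_pos _ I]
  have J : (s.card : ENNReal) * ENNReal.ofReal ((1 / 6 : ℝ) ^ finrank ℝ E) ≤
      ENNReal.ofReal ((7 / 6 : ℝ) ^ finrank ℝ E) :=
    (ENNReal.mul_le_mul_iff_left (measure_ball_pos _ _ zero_lt_one).ne' measure_ball_lt_top.ne).1 I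
  have K : (s.card : ℝ) * (1 / 6 : ℝ) ^ finrank ℝ E ≤ (7 / 6 : ℝ) ^ finrank ℝ E := by
    have := ENNReal.toReal_le_of_le_ofReal (by positivity) J
    rwa [ENNReal.toReal_mul, ENNReal.toReal_natCast, ENNReal.toReal_ofReal (by positivity)] at this
  have K2 : (s.card : ℝ) ≤ (7 : ℝ) ^ finrank ℝ E := by
    rw [div_pow, div_pow, one_pow, ← mul_div_assoc, mul_one,
      div_le_div_iff_of_pos_right (by positivity)] at K
    exact K
  exact_mod_cast K2

/-- finite `1/3`-net of the unit sphere -/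
theorem lemmaB_net {E : Type*} [NormedAddCommGroup E] [NormedSpace ℝ E] [FiniteDimensional ℝ E] :
    ∃ s : Finset E, s.card ≤ 7 ^ Module.finrank ℝ E ∧ (∀ c ∈ s, ‖c‖ = 1) ∧
      ∀ z : E, ‖z‖ = 1 → ∃ c ∈ s, ‖z - c‖ ≤ 1 / 3 := by
  classical
  let Q : ℕ → Prop := fun N => ∃ s : Finset E, s.card = N ∧ (∀ c ∈ s, ‖c‖ = 1) ∧
    (∀ c ∈ s, ∀ d ∈ s, c ≠ d → 1 / 3 ≤ ‖c - d‖)
  have hQb : ∀ N, Q N → N ≤ 7 ^ Module.finrank ℝ E := by
    rintro N ⟨s, rfl, h1, h2⟩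
    exact lemmaB_card s (fun c hc => (h1 c hc).le) h2
  have hQ0 : Q 0 := ⟨∅, rfl, by simp, by simp⟩
  have hQm := Nat.findGreatest_spec (P := Q) (Nat.zero_le (7 ^ Module.finrank ℝ E)) hQ0
  obtain ⟨s, hs, h1, h2⟩ := hQm
  refine ⟨s, hs ▸ Nat.findGreatest_le _, h1, fun z hz => ?_⟩
  by_contra hcon
  push Not at hcon
  have hzs : z ∉ s := fun hzs => by
    have := hcon z hzs
    rw [sub_self, norm_zero] at this
    linarith
  have hQ' : Q (s.card + 1) := by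
    refine ⟨insert z s, Finset.card_insert_of_notMem hzs, ?_, ?_⟩
    · intro c hc
      rcases Finset.mem_insert.1 hc with rfl | hc
      · exact hz
      · exact h1 c hc
    · intro c hc d hd hcd
      rcases Finset.mem_insert.1 hc with hc1 | hc1
      · rcases Finset.mem_insert.1 hd with hd1 | hd1
        · exact absurd (hc1.trans hd1.symm) hcd
        · rw [hc1]; exact (hcon d hd1).le
      · rcases Finset.mem_insert.1 hd with hd1 | hd1
        · rw [norm_sub_rev, hd1]; exact (hcon c hc1).le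
        · exact h2 c hc1 d hd1 hcd
  have := Nat.le_findGreatest (hQb _ hQ') hQ'
  rw [hs] at this
  omega

theorem lemmaB_w1 {k : ℕ} (p : ℝ) (h2 : 2 < p) (z : Fin k → ℝ) :
    ∃ w : Fin k → ℝ, (∀ a, 0 ≤ w a) ∧ ∑ a, w a ^ (p / (p - 2)) ≤ 1 ∧
      ∑ a, w a * z a ^ 2 = (∑ a, |z a| ^ p) ^ (2 / p) := by
  have hp0 : 0 < p := by linarith
  have hp2 : 0 < p - 2 := by linarith
  have hr : 0 < p / (p - 2) := by positivity
  have hS : 0 ≤ ∑ a, |z a| ^ p := Finset.sum_nonneg fun a _ => by positivity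
  rcases hS.eq_or_lt with hS0 | hSpos
  · refine ⟨fun _ => 0, fun _ => le_rfl, ?_, ?_⟩
    · simp only [Real.zero_rpow hr.ne', Finset.sum_const_zero]
      exact zero_le_one
    · rw [← hS0, Real.zero_rpow (by positivity)]
      simp
  · set S := ∑ a, |z a| ^ p with hSdef
    refine ⟨fun a => |z a| ^ (p - 2) / S ^ ((p - 2) / p), fun a => by positivity, ?_, ?_⟩
    · have e : ∀ a, (|z a| ^ (p - 2) / S ^ ((p - 2) / p)) ^ (p / (p - 2)) = |z a| ^ p / S := by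
        intro a
        rw [Real.div_rpow (by positivity) (by positivity), ← Real.rpow_mul (abs_nonneg _),
          ← Real.rpow_mul hSpos.le, mul_div_cancel₀ _ hp2.ne']
        have : (p - 2) / p * (p / (p - 2)) = 1 := by field_simp
        rw [this, Real.rpow_one]
      simp only [e]
      rw [← Finset.sum_div, ← hSdef, div_self hSpos.ne']
    · have e : ∀ a, |z a| ^ (p - 2) / S ^ ((p - 2) / p) * z a ^ 2 =
          |z a| ^ p / S ^ ((p - 2) / p) := by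
        intro a
        have h1 : |z a| ^ p = |z a| ^ (p - 2) * z a ^ 2 := by
          have h3 : |z a| ^ (p - 2 + 2) = |z a| ^ (p - 2) * |z a| ^ (2 : ℝ) :=
            Real.rpow_add_of_nonneg (abs_nonneg _) hp2.le (by norm_num)
          rw [sub_add_cancel] at h3
          rw [h3]
          congr 1
          rw [show (2 : ℝ) = ((2 : ℕ) : ℝ) by norm_num, Real.rpow_natCast, sq_abs]
        rw [h1]; ring
      simp only [e]
      rw [← Finset.sum_div, ← hSdef, div_eq_iff (by positivity), ← Real.rpow_add hSpos]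
      have : 2 / p + (p - 2) / p = 1 := by field_simp; ring
      rw [this, Real.rpow_one]

theorem lemmaB_w2 {ι : Type*} [Fintype ι] {k : ℕ} (p : ℝ) (h2 : 2 < p)
    (hc : (Fintype.card ι : ℝ) ≤ 2 ^ (p / (p - 2))) (z : ι → Fin k → ℝ) :
    ∃ w : Fin k → ℝ, (∀ a, 0 ≤ w a) ∧
      (∀ j, (∑ a, |z j a| ^ p) ^ (2 / p) ≤ ∑ a, w a * z j a ^ 2) ∧
      (∀ x : Fin k → ℝ, ∑ a, w a * x a ^ 2 ≤ 2 * (∑ a, |x a| ^ p) ^ (2 / p)) := by
  have hp0 : 0 < p := by linarith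
  have hp2 : 0 < p - 2 := by linarith
  have hr : 0 < p / (p - 2) := by positivity
  choose w hw0 hw1 hw2 using fun j => lemmaB_w1 p h2 (z j)
  have hsn : ∀ a, 0 ≤ ∑ j, w j a ^ (p / (p - 2)) := fun a =>
    Finset.sum_nonneg fun j _ => Real.rpow_nonneg (hw0 j a) _
  refine ⟨fun a => (∑ j, w j a ^ (p / (p - 2))) ^ (1 / (p / (p - 2))),
    fun a => Real.rpow_nonneg (hsn a) _, fun j => ?_, fun x => ?_⟩
  · rw [← hw2 j]
    refine Finset.sum_le_sum fun a _ => mul_le_mul_of_nonneg_right ?_ (sq_nonneg _)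
    have h3 : w j a = (w j a ^ (p / (p - 2))) ^ (1 / (p / (p - 2))) := by
      rw [← Real.rpow_mul (hw0 j a), mul_one_div_cancel hr.ne', Real.rpow_one]
    calc w j a = (w j a ^ (p / (p - 2))) ^ (1 / (p / (p - 2))) := h3
      _ ≤ _ := by
        refine Real.rpow_le_rpow (Real.rpow_nonneg (hw0 j a) _) ?_ (by positivity)
        exact Finset.single_le_sum (f := fun j => w j a ^ (p / (p - 2)))
          (fun i _ => Real.rpow_nonneg (hw0 i a) _) (Finset.mem_univ j)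
  · have hconj : (p / (p - 2)).HolderConjugate (p / 2) := by
      rw [Real.holderConjugate_iff]
      constructor
      · rw [lt_div_iff₀ hp2]; linarith
      · field_simp
        ring
    have hH := Real.inner_le_Lp_mul_Lq_of_nonneg (s := Finset.univ)
      (f := fun a => (∑ j, w j a ^ (p / (p - 2))) ^ (1 / (p / (p - 2))))
      (g := fun a => x a ^ 2) hconj (fun a _ => Real.rpow_nonneg (hsn a) _)
      (fun a _ => sq_nonneg _)
    refine hH.trans ?_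
    have e1 : ∑ a, ((∑ j, w j a ^ (p / (p - 2))) ^ (1 / (p / (p - 2)))) ^ (p / (p - 2)) ≤
        2 ^ (p / (p - 2)) := by
      have e2 : ∀ a, ((∑ j, w j a ^ (p / (p - 2))) ^ (1 / (p / (p - 2)))) ^ (p / (p - 2)) =
          ∑ j, w j a ^ (p / (p - 2)) := by
        intro a
        rw [← Real.rpow_mul (hsn a), one_div_mul_cancel hr.ne', Real.rpow_one]
      simp only [e2]
      rw [Finset.sum_comm]
      refine le_trans ?_ hc
      calc ∑ j, ∑ a, w j a ^ (p / (p - 2)) ≤ ∑ j : ι, (1 : ℝ) :=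
            Finset.sum_le_sum fun j _ => hw1 j
        _ = Fintype.card ι := by simp
    have e3 : (∑ a, ((∑ j, w j a ^ (p / (p - 2))) ^ (1 / (p / (p - 2)))) ^ (p / (p - 2))) ^
        (1 / (p / (p - 2))) ≤ 2 := by
      calc _ ≤ ((2 : ℝ) ^ (p / (p - 2))) ^ (1 / (p / (p - 2))) := by
            refine Real.rpow_le_rpow ?_ e1 (by positivity)
            exact Finset.sum_nonneg fun a _ => Real.rpow_nonneg (Real.rpow_nonneg (hsn a) _) _
        _ = 2 := by rw [← Real.rpow_mul (by norm_num), mul_one_div_cancel hr.ne', Real.rpow_one]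
    have e4 : (∑ a, (x a ^ 2) ^ (p / 2)) ^ (1 / (p / 2)) = (∑ a, |x a| ^ p) ^ (2 / p) := by
      have e5 : ∀ a, (x a ^ 2) ^ (p / 2) = |x a| ^ p := by
        intro a
        rw [← sq_abs, ← Real.rpow_natCast, ← Real.rpow_mul (abs_nonneg _)]
        congr 1
        push_cast
        ring
      simp only [e5]
      congr 1
      field_simp
    rw [e4]
    exact mul_le_mul_of_nonneg_right e3 (by positivity)

/-- abstract Hilbertian complementation -/
theorem lemmaB_abs {X W : Type*} [NormedAddCommGroup X] [NormedSpace ℝ X]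
    [NormedAddCommGroup W] [InnerProductSpace ℝ W] [FiniteDimensional ℝ W]
    (H : Submodule ℝ X) [FiniteDimensional ℝ H] (J : X →ₗ[ℝ] W) (hJ : ∀ x, ‖J x‖ ≤ 2 * ‖x‖)
    (hJ2 : ∀ x ∈ H, ‖x‖ ≤ 2 * ‖J x‖) :
    ∃ (d : ℕ) (Φ : X →L[ℝ] EuclideanSpace ℝ (Fin d)) (Ψ : EuclideanSpace ℝ (Fin d) →L[ℝ] X),
      (∀ x, ‖Φ x‖ ≤ 2 * ‖x‖) ∧ (∀ y, ‖Ψ y‖ ≤ 2 * ‖y‖) ∧ (∀ y, Ψ y ∈ H) ∧
      (∀ x ∈ H, Ψ (Φ x) = x) ∧ (∀ x, J x = 0 → Φ x = 0) := by
  let JH : Submodule ℝ W := H.map J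
  let JHl : H →ₗ[ℝ] JH := (J.submoduleMap H)
  have hinj : Function.Injective JHl := by
    rw [← LinearMap.ker_eq_bot, LinearMap.ker_eq_bot']
    intro x hx
    have h1 : J x = 0 := congrArg Subtype.val hx
    have h2 := hJ2 x x.2
    rw [h1, norm_zero, mul_zero] at h2
    exact Subtype.ext (norm_le_zero_iff.1 h2)
  have hsurj : Function.Surjective JHl := J.submoduleMap_surjective H
  let e : H ≃ₗ[ℝ] JH := LinearEquiv.ofBijective JHl ⟨hinj, hsurj⟩
  have he : ∀ x : H, ((e x : JH) : W) = J x := fun x => rfl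
  let b := (stdOrthonormalBasis ℝ JH).repr
  let P : W →L[ℝ] JH := JH.orthogonalProjectionOnto
  let ΦL : X →ₗ[ℝ] EuclideanSpace ℝ (Fin (Module.finrank ℝ JH)) :=
    b.toLinearEquiv.toLinearMap ∘ₗ P.toLinearMap ∘ₗ J
  have hΦ : ∀ x, ‖ΦL x‖ ≤ 2 * ‖x‖ := by
    intro x
    have h1 : ‖ΦL x‖ = ‖P (J x)‖ := b.norm_map _
    rw [h1]
    exact (JH.norm_orthogonalProjectionOnto_apply_le (J x)).trans (hJ x)
  let ΨL : EuclideanSpace ℝ (Fin (Module.finrank ℝ JH)) →ₗ[ℝ] X :=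
    H.subtype ∘ₗ e.symm.toLinearMap ∘ₗ b.symm.toLinearEquiv.toLinearMap
  have hΨ : ∀ y, ‖ΨL y‖ ≤ 2 * ‖y‖ := by
    intro y
    have h1 := hJ2 (e.symm (b.symm y)) (e.symm (b.symm y)).2
    have h2 : J (e.symm (b.symm y)) = (b.symm y : JH) := by
      rw [← he, LinearEquiv.apply_symm_apply]
    rw [h2] at h1
    have h3 : ‖((b.symm y : JH) : W)‖ = ‖y‖ := b.symm.norm_map y
    rw [h3] at h1
    exact h1
  refine ⟨Module.finrank ℝ JH, ΦL.mkContinuous 2 hΦ, ΨL.mkContinuous 2 hΨ, hΦ, hΨ, ?_, ?_, ?_⟩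
  · intro y
    exact (e.symm (b.symm y)).2
  · intro x hx
    show ((e.symm (b.symm (b (P (J x)))) : H) : X) = x
    rw [LinearIsometryEquiv.symm_apply_apply]
    have h1 : P (J x) = e ⟨x, hx⟩ := by
      have : J x = ((e ⟨x, hx⟩ : JH) : W) := (he ⟨x, hx⟩).symm
      rw [this]
      exact JH.orthogonalProjectionOnto_mem_subspace_eq_self _
    rw [h1, LinearEquiv.symm_apply_apply]
  · intro x hx
    show b (P (J x)) = 0
    rw [hx, map_zero, map_zero]


/-- weighted evaluation map -/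
noncomputable def lemmaB_J (k : ℕ → ℕ) (P : ℕ → ENNReal) [∀ n, Fact (1 ≤ P n)]
    (w : ∀ i, Fin (k i) → ℝ) (N : ℕ) :
    XX k P →ₗ[ℝ] EuclideanSpace ℝ (Σ i : Fin N, Fin (k i)) where
  toFun x := WithLp.toLp 2 (fun ia : (Σ i : Fin N, Fin (k i)) =>
    Real.sqrt (w ia.1 ia.2) * (x : ∀ n, PiLp (P n) (fun _ : Fin (k n) => ℝ)) ia.1 ia.2)
  map_add' x y := by
    ext ia
    simp [mul_add]
  map_smul' c x := by
    ext ia
    simp [mul_left_comm]

theorem lemmaB_J_norm (k : ℕ → ℕ) (P : ℕ → ENNReal) [∀ n, Fact (1 ≤ P n)]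
    (w : ∀ i, Fin (k i) → ℝ) (hw : ∀ i a, 0 ≤ w i a) (N : ℕ) (x : XX k P) :
    ‖lemmaB_J k P w N x‖ ^ 2 = ∑ i ∈ Finset.range N, ∑ a, w i a *
      (x : ∀ n, PiLp (P n) (fun _ : Fin (k n) => ℝ)) i a ^ 2 := by
  rw [EuclideanSpace.norm_sq_eq, Fintype.sum_sigma, Finset.sum_range]
  refine Finset.sum_congr rfl fun i _ => Finset.sum_congr rfl fun a _ => ?_
  show ‖Real.sqrt (w i a) * (x : ∀ n, PiLp (P n) (fun _ : Fin (k n) => ℝ)) i a‖ ^ 2 = _
  rw [Real.norm_eq_abs, sq_abs, mul_pow, Real.sq_sqrt (hw i a)]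

theorem lemmaB_block (k : ℕ) (p : ℝ) (h2 : 2 < p) [Fact (1 ≤ ENNReal.ofReal p)]
    (x : PiLp (ENNReal.ofReal p) (fun _ : Fin k => ℝ)) :
    ‖x‖ ^ 2 = (∑ a, |x a| ^ p) ^ (2 / p) := by
  have hp : (ENNReal.ofReal p).toReal = p := ENNReal.toReal_ofReal (by linarith)
  rw [PiLp.norm_eq_sum (by rw [hp]; linarith), hp]
  simp only [Real.norm_eq_abs]
  have hS : 0 ≤ ∑ a, |x a| ^ p := Finset.sum_nonneg fun a _ => by positivity
  rw [← Real.rpow_natCast, ← Real.rpow_mul hS]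
  congr 1
  push_cast
  ring

-- TARGET
/-- weights lemma (Lemma B). -/
theorem lemmaB (k : ℕ → ℕ) (pr : ℕ → ℝ) (h2 : ∀ n, 2 < pr n) (h4 : ∀ n, pr n ≤ 4)
    [∀ n, Fact (1 ≤ ENNReal.ofReal (pr n))] (m h : ℕ)
    (hr : ∀ i, m ≤ i → (7 : ℝ) ^ h ≤ 2 ^ (pr i / (pr i - 2)))
    (H : Submodule ℝ (XX k (fun n => ENNReal.ofReal (pr n)))) [FiniteDimensional ℝ H]
    (hH : Module.finrank ℝ H ≤ h)
    (hsupp : ∀ x ∈ H, ∀ i, i < m → (x : ∀ n, PiLp (ENNReal.ofReal (pr n)) (fun _ : Fin (k n) => ℝ)) i = 0) :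
    ∃ (n' d : ℕ) (Φ : XX k (fun n => ENNReal.ofReal (pr n)) →L[ℝ] EuclideanSpace ℝ (Fin d))
      (Ψ : EuclideanSpace ℝ (Fin d) →L[ℝ] XX k (fun n => ENNReal.ofReal (pr n))),
      m ≤ n' ∧ (∀ x, ‖Φ x‖ ≤ 2 * ‖x‖) ∧ (∀ y, ‖Ψ y‖ ≤ 2 * ‖y‖) ∧ (∀ y, Ψ y ∈ H) ∧
      (∀ x ∈ H, Ψ (Φ x) = x) ∧
      (∀ x : XX k (fun n => ENNReal.ofReal (pr n)),
        (∀ i, m ≤ i → i < n' → (x : ∀ n, PiLp (ENNReal.ofReal (pr n)) (fun _ : Fin (k n) => ℝ)) i = 0) → Φ x = 0) := by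
  classical
  obtain ⟨s, hs1, hs2, hs3⟩ := lemmaB_net (E := H)
  have hcard : (Fintype.card s : ℝ) ≤ 7 ^ h := by
    rw [Fintype.card_coe]
    calc (s.card : ℝ) ≤ ((7 ^ Module.finrank ℝ H : ℕ) : ℝ) := by exact_mod_cast hs1
      _ = (7 : ℝ) ^ Module.finrank ℝ H := by push_cast; ring
      _ ≤ 7 ^ h := pow_le_pow_right₀ (by norm_num) hH
  have hw : ∀ i, ∃ w : Fin (k i) → ℝ, (∀ a, 0 ≤ w a) ∧ (i < m → ∀ a, w a = 0) ∧
      (m ≤ i → ∀ j : s, ‖((j : H) : XX k (fun n => ENNReal.ofReal (pr n))) i‖ ^ 2 ≤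
        ∑ a, w a * ((j : H) : XX k (fun n => ENNReal.ofReal (pr n))) i a ^ 2) ∧
      (∀ x : PiLp (ENNReal.ofReal (pr i)) (fun _ : Fin (k i) => ℝ),
        ∑ a, w a * x a ^ 2 ≤ 2 * ‖x‖ ^ 2) := by
    intro i
    rcases lt_or_ge i m with hi | hi
    · refine ⟨fun _ => 0, fun _ => le_rfl, fun _ _ => rfl, fun h' => absurd h' (by omega), ?_⟩
      intro x
      simp only [zero_mul, Finset.sum_const_zero]
      positivity
    · obtain ⟨w, h5, h6, h7⟩ := lemmaB_w2 (pr i) (h2 i) (hcard.trans (hr i hi))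
        (fun (j : s) a => ((j : H) : XX k (fun n => ENNReal.ofReal (pr n))) i a)
      refine ⟨w, h5, fun h' => absurd h' (by omega), fun _ j => ?_, fun x => ?_⟩
      · rw [lemmaB_block (k i) (pr i) (h2 i)]
        exact h6 j
      · rw [lemmaB_block (k i) (pr i) (h2 i)]
        exact h7 x
  choose w hw0 hwz hw1 hw2 using hw
  have h20 : 0 < (2 : ENNReal).toReal := by norm_num
  have hsum : ∀ x : XX k (fun n => ENNReal.ofReal (pr n)),
      HasSum (fun i => ‖x i‖ ^ 2) (‖x‖ ^ 2) := by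
    intro x
    have := lp.hasSum_norm h20 x
    simp only [ENNReal.toReal_ofNat] at this
    exact_mod_cast this
  have hev : ∀ᶠ N in atTop, ∀ c ∈ s, (0.98 : ℝ) <
      ∑ i ∈ Finset.range N, ‖((c : H) : XX k (fun n => ENNReal.ofReal (pr n))) i‖ ^ 2 := by
    rw [Filter.eventually_all_finset]
    intro c hc
    have h5 := (hsum (c : H)).tendsto_sum_nat
    have h6 : ‖((c : H) : XX k (fun n => ENNReal.ofReal (pr n)))‖ = 1 := hs2 c hc
    rw [h6] at h5
    exact h5.eventually (lt_mem_nhds (by norm_num))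
  obtain ⟨N, hN1, hN2⟩ := (hev.and (eventually_ge_atTop m)).exists
  set J := lemmaB_J k (fun n => ENNReal.ofReal (pr n)) w N with hJdef
  have hJ2 : ∀ x, ‖J x‖ ^ 2 ≤ 2 * ‖x‖ ^ 2 := by
    intro x
    rw [hJdef, lemmaB_J_norm _ _ _ hw0]
    calc _ ≤ ∑ i ∈ Finset.range N, 2 * ‖x i‖ ^ 2 := Finset.sum_le_sum fun i _ => hw2 i (x i)
      _ = 2 * ∑ i ∈ Finset.range N, ‖x i‖ ^ 2 := by rw [Finset.mul_sum]
      _ ≤ 2 * ‖x‖ ^ 2 := by
        have := sum_le_hasSum (Finset.range N) (fun i _ => sq_nonneg ‖x i‖) (hsum x)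
        linarith
  have hJs : ∀ c ∈ s, (0.98 : ℝ) ≤ ‖J (c : H)‖ := by
    intro c hc
    have h5 : (0.98 : ℝ) ≤ ‖J (c : H)‖ ^ 2 := by
      rw [hJdef, lemmaB_J_norm _ _ _ hw0]
      refine (hN1 c hc).le.trans (Finset.sum_le_sum fun i _ => ?_)
      rcases lt_or_ge i m with hi | hi
      · rw [hsupp (c : H) (c : H).2 i hi, norm_zero]
        refine le_trans (by norm_num) (Finset.sum_nonneg fun a _ => ?_)
        exact mul_nonneg (hw0 i a) (sq_nonneg _)
      · exact hw1 i hi ⟨c, hc⟩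
    by_contra hcon
    push Not at hcon
    nlinarith [norm_nonneg (J (c : H))]
  have hJ3 : ∀ x, ‖J x‖ ≤ 2 * ‖x‖ := by
    intro x
    refine le_of_sq_le_sq ?_ (by positivity)
    have := hJ2 x
    nlinarith [sq_nonneg ‖x‖]
  have hJ4 : ∀ x ∈ H, ‖x‖ ≤ 2 * ‖J x‖ := by
    intro x hx
    rcases eq_or_ne x 0 with rfl | hx0
    · simp
    have hxn : 0 < ‖x‖ := norm_pos_iff.2 hx0
    let u : H := (‖x‖)⁻¹ • ⟨x, hx⟩
    have hu : ‖u‖ = 1 := by
      rw [norm_smul, norm_inv, norm_norm]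
      exact inv_mul_cancel₀ hxn.ne'
    obtain ⟨c, hc, hcu⟩ := hs3 u hu
    have h5 : ‖J (u : XX k (fun n => ENNReal.ofReal (pr n))) - J (c : H)‖ ≤ 0.48 := by
      rw [← map_sub]
      have h6 := hJ2 ((u : XX k (fun n => ENNReal.ofReal (pr n))) - (c : H))
      have h7 : ‖(u : XX k (fun n => ENNReal.ofReal (pr n))) - (c : H)‖ ≤ 1 / 3 := hcu
      by_contra hcon
      push Not at hcon
      nlinarith [norm_nonneg ((u : XX k (fun n => ENNReal.ofReal (pr n))) - (c : H))]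
    have h8 : (1 / 2 : ℝ) ≤ ‖J (u : XX k (fun n => ENNReal.ofReal (pr n)))‖ := by
      have h9 := hJs c hc
      have h10 := norm_sub_norm_le (J (c : H)) (J (u : XX k (fun n => ENNReal.ofReal (pr n))))
      rw [norm_sub_rev] at h10
      linarith
    have h11 : J (u : XX k (fun n => ENNReal.ofReal (pr n))) = (‖x‖)⁻¹ • J x := by
      rw [← map_smul]; rfl
    rw [h11, norm_smul, norm_inv, norm_norm] at h8
    rw [inv_mul_eq_div, le_div_iff₀ hxn] at h8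
    linarith
  obtain ⟨d, Φ, Ψ, h5, h6, h7, h8, h9⟩ := lemmaB_abs H J hJ3 hJ4
  refine ⟨N, d, Φ, Ψ, hN2, h5, h6, h7, h8, fun x hx => h9 x ?_⟩
  have h10 : ‖J x‖ ^ 2 = 0 := by
    rw [hJdef, lemmaB_J_norm _ _ _ hw0]
    refine Finset.sum_eq_zero fun i hi => Finset.sum_eq_zero fun a _ => ?_
    rcases lt_or_ge i m with him | him
    · rw [hwz i him, zero_mul]
    · rw [hx i him (Finset.mem_range.1 hi)]
      simp
  exact norm_eq_zero.1 (pow_eq_zero_iff (two_ne_zero) |>.1 h10)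

end Pool.Agent.Helper802.JB.N_lemmaB
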