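import Mathlib
import Pool.Agent.Helper802.JS.Defs
import Pool.Agent.Helper802.JS.basis_proj
import Pool.Agent.Helper802.JS.lemmaB
import Pool.Agent.Helper802.JS.ETot_closed

set_option autoImplicit false
open Filter Topology MeasureTheory

open Pool.Agent.Helper802.JB Pool.Agent.Helper802.JB.N_basis_proj Pool.Agent.Helper802.JB.N_lemmaB Pool.Agent.Helper802.JB.N_ETot_closed

namespace Pool.Agent.Helper802.JB.N_ETot_no_basis






section aux8774
variable {k n : ℕ → ℕ} {p : ℕ → ENNReal} [∀ m, Fact (1 ≤ p m)]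

/-- one block -/
noncomputable def Wl (p : ℕ → ENNReal) [∀ m, Fact (1 ≤ p m)] (w : ∀ m, Fin (k m) → EE (n m)) (i : ℕ) :
    EE (n i) →ₗ[ℝ] PiLp (p i) (fun _ : Fin (k i) => ℝ) where
  toFun v := WithLp.toLp (p i) (fun j => inner ℝ (w i j) v)
  map_add' u v := by
    ext j
    simp [inner_add_right]
  map_smul' c v := by
    ext j
    simp [inner_smul_right]

theorem Wl_apply (w : ∀ m, Fin (k m) → EE (n m)) (i : ℕ) (v : EE (n i)) (j : Fin (k i)) :
    Wl p w i v j = inner ℝ (w i j) v := rfl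

/-- block injection -/
noncomputable def Jl (p : ℕ → ENNReal) [∀ m, Fact (1 ≤ p m)] (w : ∀ m, Fin (k m) → EE (n m)) (i : ℕ) :
    EE (n i) →ₗ[ℝ] ETot k n p w :=
  LinearMap.codRestrict (ETot k n p w)
    ((lp.lsingle (𝕜 := ℝ) (E := fun n : ℕ => PiLp (p n) (fun _ : Fin (k n) => ℝ)) 2 i) ∘ₗ (Wl p w i)) (by
      intro v m
      by_cases h : m = i
      · subst h
        refine ⟨v, fun j => ?_⟩
        show (lp.single 2 m (Wl p w m v) : ∀ n, PiLp (p n) (fun _ : Fin (k n) => ℝ)) m j = _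
        rw [lp.single_apply_self]
        rfl
      · refine ⟨0, fun j => ?_⟩
        show (lp.single 2 i (Wl p w i v) : ∀ n, PiLp (p n) (fun _ : Fin (k n) => ℝ)) m j = _
        rw [lp.single_apply_ne _ _ _ h]
        simp)

theorem Jl_coe (w : ∀ m, Fin (k m) → EE (n m)) (i : ℕ) (v : EE (n i)) :
    ((Jl p w i v : ETot k n p w) : XX k p) = lp.single 2 i (Wl p w i v) := rfl

/-- block evaluation -/
noncomputable def evl (k : ℕ → ℕ) (p : ℕ → ENNReal) [∀ m, Fact (1 ≤ p m)] (i : ℕ) :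
    XX k p →ₗ[ℝ] PiLp (p i) (fun _ : Fin (k i) => ℝ) where
  toFun x := x.1 i
  map_add' _ _ := rfl
  map_smul' _ _ := rfl

theorem exists_pi (w : ∀ m, Fin (k m) → EE (n m)) (i : ℕ)
    (hinj : ∀ v, Wl p w i v = 0 → v = 0) :
    ∃ π : ETot k n p w →ₗ[ℝ] EE (n i), (∀ x : ETot k n p w, Wl p w i (π x) = (x : XX k p).1 i) ∧
      (∀ v, π (Jl p w i v) = v) ∧ Continuous π := by
  have hk : LinearMap.ker (Wl p w i) = ⊥ := LinearMap.ker_eq_bot'.2 hinj
  obtain ⟨g, hg⟩ := LinearMap.exists_leftInverse_of_injective (Wl p w i) hk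
  have hg' : ∀ v, g (Wl p w i v) = v := fun v => by
    have := LinearMap.congr_fun hg v
    simpa using this
  have key : ∀ x : ETot k n p w, Wl p w i (g ((x : XX k p).1 i)) = (x : XX k p).1 i := by
    intro x
    obtain ⟨v, hv⟩ := x.2 i
    have : (x : XX k p).1 i = Wl p w i v := by
      ext j
      exact hv j
    rw [this, hg']
  refine ⟨g ∘ₗ (evl k p i) ∘ₗ (ETot k n p w).subtype, key, ?_, ?_⟩
  · intro v
    show g ((Jl p w i v : XX k p).1 i) = v
    rw [Jl_coe]
    have : (lp.single 2 i (Wl p w i v) : XX k p).1 i = Wl p w i v := by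
      show (lp.single 2 i (Wl p w i v) : ∀ n, PiLp (p n) (fun _ : Fin (k n) => ℝ)) i = _
      rw [lp.single_apply_self]
    rw [this, hg']
  · have h1 : Continuous g := LinearMap.continuous_of_finiteDimensional g
    have h2 : Continuous (evl k p i) := by
      apply AddMonoidHomClass.continuous_of_bound (evl k p i) 1
      intro x
      rw [one_mul]
      exact lp.norm_apply_le_norm (by norm_num) x i
    exact h1.comp (h2.comp continuous_subtype_val)

end aux8774

-- TARGET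
/-- no Schauder basis -/
theorem ETot_no_basis (k n : ℕ → ℕ) (pr : ℕ → ℝ) (h2 : ∀ m, 2 < pr m) (h4 : ∀ m, pr m ≤ 4)
    [∀ m, Fact (1 ≤ ENNReal.ofReal (pr m))]
    (hj : ∀ m, (7 : ℝ) ^ (5 ^ (∑ i ∈ Finset.range m, k i) + m + 1) ≤ 2 ^ (pr m / (pr m - 2)))
    (w : ∀ m, Fin (k m) → EE (n m)) (hnk : ∀ m, n m ≤ k m)
    (hinj : ∀ m x, NE (pr m) (w m) x = 0 → x = 0)
    (hnp : ∀ m, NoPath (pr m) (w m) m (∑ i ∈ Finset.range m, n i)) :
    ¬ ∃ e : ℕ → ETot k n (fun m => ENNReal.ofReal (pr m)) w, ∀ x : ETot k n (fun m => ENNReal.ofReal (pr m)) w,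
      ∃! a : ℕ → ℝ, Tendsto (fun N => ∑ i ∈ Finset.range N, a i • e i) atTop (𝓝 x) := by
  classical
  intro ⟨e, he⟩
  set p : ℕ → ENNReal := fun m => ENNReal.ofReal (pr m) with hp
  haveI : CompleteSpace (ETot k n p w) := (ETot_closed k n p w).completeSpace_coe
  obtain ⟨P, K0, hP0, hPb, hPi, hPt, hPd⟩ := basis_proj e he
  have hNE : ∀ i (v : EE (n i)), ‖Wl p w i v‖ = NE (pr i) (w i) v := by
    intro i v
    have hpos : 0 < pr i := by linarith [h2 i]
    have htr : (p i).toReal = pr i := ENNReal.toReal_ofReal hpos.le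
    rw [PiLp.norm_eq_sum (by rw [htr]; exact hpos), htr]
    rfl
  have hWinj : ∀ i (v : EE (n i)), Wl p w i v = 0 → v = 0 := by
    intro i v hv
    apply hinj i v
    rw [← hNE, hv, norm_zero]
  choose π hπ1 hπ2 hπ3 using fun i => exists_pi (k := k) (p := p) w i (hWinj i)
  obtain ⟨m, hm⟩ := exists_nat_ge (4 * |K0| + 1)
  have hK0 : K0 ≤ |K0| := le_abs_self _
  have hK0' : 0 ≤ |K0| := abs_nonneg _
  have hJn : ∀ v : EE (n m), ‖Jl p w m v‖ = NE (pr m) (w m) v := by
    intro v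
    rw [← hNE, ← Submodule.norm_coe, Jl_coe, lp.norm_single (by norm_num)]
  have hπn : ∀ x : ETot k n p w, NE (pr m) (w m) (π m x) ≤ ‖x‖ := by
    intro x
    rw [← hNE, hπ1]
    exact lp.norm_apply_le_norm (by norm_num) (x : XX k p) m
  have hPn : ∀ j (x : ETot k n p w), ‖P j x‖ ≤ |K0| * ‖x‖ := fun j x =>
    (P j).le_of_opNorm_le ((hPb j).trans hK0) x
  set J := Jl p w m with hJ
  set F : ETot k n p w →ₗ[ℝ] ETot k n p w := ∑ i ∈ Finset.range m, (Jl p w i) ∘ₗ (π i) with hF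
  set Z : ETot k n p w →ₗ[ℝ] ETot k n p w := LinearMap.id - J ∘ₗ (π m) - F with hZ
  have hblk : ∀ i (x : ETot k n p w) (q : ℕ), ((Jl p w i (π i x) : ETot k n p w) : XX k p).1 q =
      if q = i then (x : XX k p).1 q else 0 := by
    intro i x q
    rw [Jl_coe]
    show (lp.single 2 i (Wl p w i (π i x)) : ∀ n, PiLp (p n) (fun _ : Fin (k n) => ℝ)) q = _
    by_cases h : q = i
    · subst h
      rw [lp.single_apply_self, if_pos rfl, hπ1]
    · rw [lp.single_apply_ne _ _ _ h, if_neg h]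
  have hFb : ∀ (x : ETot k n p w) (q : ℕ), ((F x : ETot k n p w) : XX k p).1 q =
      if q < m then (x : XX k p).1 q else 0 := by
    intro x q
    have h1 : F x = ∑ i ∈ Finset.range m, Jl p w i (π i x) := by
      rw [hF, LinearMap.sum_apply]; rfl
    have h3 : ((F x : ETot k n p w) : XX k p) = ∑ i ∈ Finset.range m,
        ((Jl p w i (π i x) : ETot k n p w) : XX k p) := by
      rw [h1, Submodule.coe_sum]
    have h4 : ((F x : ETot k n p w) : XX k p).1 q = evl k p q (F x : ETot k n p w) := rfl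
    rw [h4, h3, map_sum]
    have h5 : ∀ i ∈ Finset.range m, evl k p q ((Jl p w i (π i x) : ETot k n p w) : XX k p) =
        if q = i then (x : XX k p).1 q else 0 := fun i _ => hblk i x q
    rw [Finset.sum_congr rfl h5, Finset.sum_ite_eq]
    simp only [Finset.mem_range]
  have hZb : ∀ (x : ETot k n p w) (q : ℕ), ((Z x : ETot k n p w) : XX k p).1 q =
      if m < q then (x : XX k p).1 q else 0 := by
    intro x q
    have h1 : ((Z x : ETot k n p w) : XX k p).1 q = (x : XX k p).1 q -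
        ((J (π m x) : ETot k n p w) : XX k p).1 q - ((F x : ETot k n p w) : XX k p).1 q := rfl
    rw [h1, hFb, hJ, hblk]
    rcases lt_trichotomy q m with h | h | h
    · rw [if_neg h.ne, if_pos h, if_neg (by omega)]; simp
    · subst h; simp
    · rw [if_neg h.ne', if_neg (by omega), if_pos h]; simp
  have hZn : ∀ x : ETot k n p w, ‖Z x‖ ≤ ‖x‖ := by
    intro x
    rw [← Submodule.norm_coe, ← Submodule.norm_coe x]
    apply lp.norm_mono (by norm_num)
    intro q
    have := hZb x q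
    show ‖((Z x : ETot k n p w) : XX k p).1 q‖ ≤ ‖(x : XX k p).1 q‖
    rw [this]
    split_ifs
    · exact le_rfl
    · simp
  have hdec : ∀ x : ETot k n p w, x - J (π m x) = F x + Z x := by
    intro x
    rw [hZ]
    simp only [LinearMap.sub_apply, LinearMap.id_apply, LinearMap.comp_apply]
    abel
  set T : ℕ → (EE (n m) →ₗ[ℝ] EE (n m)) := fun j => (π m) ∘ₗ (P j).toLinearMap ∘ₗ J with hT
  have hTa : ∀ j v, T j v = π m (P j (J v)) := fun j v => rfl
  have hm0 : (0 : ℝ) ≤ m := Nat.cast_nonneg m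
  refine hnp m T ?_ ?_ ?_ ?_ ?_
  · ext1 v
    rw [hTa, hP0]; simp
  · intro j v
    rw [hTa]
    have hN0 : 0 ≤ NE (pr m) (w m) v := by rw [← hNE]; exact norm_nonneg _
    calc NE (pr m) (w m) (π m (P j (J v))) ≤ ‖P j (J v)‖ := hπn _
      _ ≤ |K0| * ‖J v‖ := hPn _ _
      _ = |K0| * NE (pr m) (w m) v := by rw [hJn]
      _ ≤ m * NE (pr m) (w m) v := mul_le_mul_of_nonneg_right (by linarith) hN0
  · intro v
    have h1 := ((hπ3 m).tendsto (J v)).comp (hPt (J v))
    rw [hπ2] at h1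
    exact h1
  · intro j
    have hsub : LinearMap.range (T (j + 1) - T j) ≤ Submodule.span ℝ {π m (e j)} := by
      rintro _ ⟨v, rfl⟩
      obtain ⟨c, hc⟩ := hPd j (J v)
      rw [Submodule.mem_span_singleton]
      refine ⟨c, ?_⟩
      rw [LinearMap.sub_apply, hTa, hTa, ← map_sub, hc, map_smul]
    exact (Submodule.finrank_mono hsub).trans ((finrank_span_le_card _).trans (by simp))
  · intro j
    -- the finite rank part
    set R : EE (n m) →ₗ[ℝ] EE (n m) := (π m) ∘ₗ (P j).toLinearMap ∘ₗ F ∘ₗ (P j).toLinearMap ∘ₗ J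
      with hR
    -- the submodule H
    set ZJ : EE (n m) →ₗ[ℝ] ETot k n p w := Z ∘ₗ (P j).toLinearMap ∘ₗ J with hZJ
    set H : Submodule ℝ (XX k p) := LinearMap.range ((ETot k n p w).subtype ∘ₗ ZJ) with hH
    haveI : FiniteDimensional ℝ H := by rw [hH]; infer_instance
    have hHn : Module.finrank ℝ H ≤ n m := by
      rw [hH]
      refine (LinearMap.finrank_range_le _).trans ?_
      simp
    have hHE : ∀ x ∈ H, x ∈ ETot k n p w := by
      rintro _ ⟨v, rfl⟩
      exact (ZJ v).2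
    obtain ⟨n', d, Φ, Ψ, -, hΦ, hΨ, hΨH, hΨΦ, -⟩ := lemmaB k pr h2 h4 (m + 1) (n m) (by
      intro i hi
      refine le_trans ?_ (hj i)
      apply pow_le_pow_right₀ (by norm_num)
      have a1 : n m ≤ k m := hnk m
      have a2 : k m ≤ ∑ q ∈ Finset.range i, k q :=
        Finset.single_le_sum (f := k) (fun _ _ => Nat.zero_le _) (Finset.mem_range.2 (by omega))
      have a3 : (∑ q ∈ Finset.range i, k q) < 5 ^ (∑ q ∈ Finset.range i, k q) :=
        Nat.lt_pow_self (by norm_num)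
      omega) H hHn (by
      rintro _ ⟨v, rfl⟩ i hi
      show ((ZJ v : ETot k n p w) : XX k p).1 i = 0
      show ((Z (P j (J v)) : ETot k n p w) : XX k p).1 i = 0
      rw [hZb, if_neg (by omega)])
    set ΨE : EuclideanSpace ℝ (Fin d) →ₗ[ℝ] ETot k n p w :=
      LinearMap.codRestrict (ETot k n p w) Ψ.toLinearMap (fun y => hHE _ (hΨH y)) with hΨE
    refine ⟨R, d, Φ.toLinearMap ∘ₗ (ETot k n p w).subtype ∘ₗ ZJ,
      (π m) ∘ₗ (P j).toLinearMap ∘ₗ ΨE, ?_, ?_, ?_, ?_⟩
    · -- rank of R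
      set Wt : (∀ i : Fin m, EE (n i)) →ₗ[ℝ] ETot k n p w :=
        ∑ i : Fin m, (Jl p w i) ∘ₗ (LinearMap.proj i) with hWt
      have hle : LinearMap.range R ≤ LinearMap.range ((π m) ∘ₗ (P j).toLinearMap ∘ₗ Wt) := by
        rintro _ ⟨v, rfl⟩
        refine ⟨fun i => π i (P j (J v)), ?_⟩
        show π m (P j (Wt _)) = π m (P j (F (P j (J v))))
        have : Wt (fun i => π i (P j (J v))) = F (P j (J v)) := by
          rw [hWt, hF, LinearMap.sum_apply, LinearMap.sum_apply, Finset.sum_range]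
          rfl
        rw [this]
      refine (Submodule.finrank_mono hle).trans ((LinearMap.finrank_range_le _).trans ?_)
      rw [Module.finrank_pi_fintype, Finset.sum_range]
      simp
    · intro v
      have hN0 : 0 ≤ NE (pr m) (w m) v := by rw [← hNE]; exact norm_nonneg _
      show ‖Φ ((ZJ v : ETot k n p w) : XX k p)‖ ≤ m * NE (pr m) (w m) v
      calc ‖Φ ((ZJ v : ETot k n p w) : XX k p)‖ ≤ 2 * ‖((ZJ v : ETot k n p w) : XX k p)‖ := hΦ _
        _ = 2 * ‖Z (P j (J v))‖ := by rw [Submodule.norm_coe]; rfl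
        _ ≤ 2 * (|K0| * NE (pr m) (w m) v) := by
            have := (hZn (P j (J v))).trans (hPn j (J v))
            rw [hJn] at this
            linarith
        _ ≤ m * NE (pr m) (w m) v := by nlinarith
    · intro y
      have hy0 : 0 ≤ ‖y‖ := norm_nonneg y
      show NE (pr m) (w m) (π m (P j (ΨE y))) ≤ m * ‖y‖
      calc NE (pr m) (w m) (π m (P j (ΨE y))) ≤ ‖P j (ΨE y)‖ := hπn _
        _ ≤ |K0| * ‖ΨE y‖ := hPn _ _
        _ = |K0| * ‖Ψ y‖ := by rw [← Submodule.norm_coe]; rfl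
        _ ≤ |K0| * (2 * ‖y‖) := mul_le_mul_of_nonneg_left (hΨ y) hK0'
        _ ≤ m * ‖y‖ := by nlinarith
    · intro v
      have h1 : ΨE (Φ ((ZJ v : ETot k n p w) : XX k p)) = ZJ v := by
        apply Subtype.ext
        exact hΨΦ _ ⟨v, rfl⟩
      have h3 : T j v - T j (T j v) = π m (P j (P j (J v) - J (π m (P j (J v))))) := by
        rw [hTa, hTa, map_sub (P j), map_sub, hPi]
      rw [h3, hdec, map_add, map_add]
      show _ = π m (P j (F (P j (J v)))) + π m (P j (ΨE (Φ ((ZJ v : ETot k n p w) : XX k p))))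
      rw [h1]
      rfl

end Pool.Agent.Helper802.JB.N_ETot_no_basis
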