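import Mathlib
import Pool.Agent.Helper802.JS.Defs

set_option autoImplicit false
open Filter Topology MeasureTheory

open Pool.Agent.Helper802.JB 

namespace Pool.Agent.Helper802.JB.N_hb_rep


private lemma lq_bound {ι : Type} [Fintype ι] (p q : ℝ) (hp : 1 < p) (hpq : 1 / p + 1 / q = 1)
    (K : ℝ) (hK : 0 ≤ K) (a : ι → ℝ)
    (h : ∀ u : ι → ℝ, ∑ j, u j * a j ≤ K * (∑ j, |u j| ^ p) ^ (1 / p)) :
    ∑ j, |a j| ^ q ≤ K ^ q := by
  have hp0 : 0 < p := by linarith
  have hq1 : 0 < 1 / q := by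
    have : 1 / p < 1 := by
      rw [div_lt_one hp0]; exact hp
    linarith
  have hq0 : 0 < q := by
    exact one_div_pos.1 hq1
  have hqp : (q - 1) * p = q := by
    field_simp at hpq
    nlinarith
  have hq1' : 0 < q - 1 := by
    by_contra hcon
    push Not at hcon
    nlinarith
  set S : ℝ := ∑ j, |a j| ^ q with hS
  have hS0 : 0 ≤ S := Finset.sum_nonneg fun j _ => by positivity
  rcases hS0.eq_or_lt with h0 | hpos
  · rw [← h0]; positivity
  have h1 := h (fun j => SignType.sign (a j) * |a j| ^ (q - 1))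
  have e1 : ∀ j, ((SignType.sign (a j) : ℝ) * |a j| ^ (q - 1)) * a j = |a j| ^ q := by
    intro j
    rcases eq_or_ne (a j) 0 with hz | hz
    · rw [hz]
      simp [Real.zero_rpow hq0.ne']
    · have h2 : (SignType.sign (a j) : ℝ) * a j = |a j| := by
        exact sign_mul_self (a j)
      have h3 : |a j| ^ q = |a j| ^ (q - 1) * |a j| := by
        have : q = (q - 1) + 1 := by ring
        conv_lhs => rw [this]
        rw [Real.rpow_add (abs_pos.2 hz), Real.rpow_one]
      rw [h3, ← h2]; ring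
  have e2 : ∀ j, |(SignType.sign (a j) : ℝ) * |a j| ^ (q - 1)| ^ p = |a j| ^ q := by
    intro j
    rcases eq_or_ne (a j) 0 with hz | hz
    · rw [hz]
      simp [Real.zero_rpow hq0.ne', Real.zero_rpow hp0.ne']
    · have h4 : |(SignType.sign (a j) : ℝ)| = 1 := by
        rcases lt_or_gt_of_ne hz with h5 | h5
        · rw [sign_neg h5]; simp
        · rw [sign_pos h5]; simp
      rw [abs_mul, h4, one_mul, abs_of_nonneg (by positivity), ← Real.rpow_mul (abs_nonneg _), hqp]
  simp only [e1, e2] at h1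
  rw [← hS] at h1
  have h6 : S = S ^ (1 / q) * S ^ (1 / p) := by
    rw [← Real.rpow_add hpos, add_comm, hpq, Real.rpow_one]
  have h7 : S ^ (1 / q) ≤ K := by
    have hp' : 0 < S ^ (1 / p) := Real.rpow_pos_of_pos hpos _
    by_contra hcon
    push Not at hcon
    have := mul_lt_mul_of_pos_right hcon hp'
    rw [← h6] at this
    linarith
  calc S = (S ^ (1 / q)) ^ q := by
        rw [← Real.rpow_mul hS0, one_div_mul_cancel hq0.ne', Real.rpow_one]
    _ ≤ K ^ q := Real.rpow_le_rpow (by positivity) h7 hq0.le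

-- TARGET
/-- Hahn–Banach representation -/
theorem hb_rep {n : ℕ} {ι : Type} [Fintype ι] (p q : ℝ) (hp : 1 < p) (hpq : 1 / p + 1 / q = 1)
    (w : ι → EE n) (K : ℝ) (hK : 0 ≤ K) (T : EE n →ₗ[ℝ] EE n)
    (hT : ∀ x, NE p w (T x) ≤ K * NE p w x) :
    ∃ a : ι → ι → ℝ, (∀ i, ∑ j, |a i j| ^ q ≤ K ^ q) ∧
      ∀ i, T.adjoint (w i) = ∑ j, a i j • w j := by
  classical
  have hp0 : 0 < p := by linarith
  suffices H : ∀ i, ∃ b : ι → ℝ, ∑ j, |b j| ^ q ≤ K ^ q ∧ T.adjoint (w i) = ∑ j, b j • w j by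
    choose a ha using H
    exact ⟨a, fun i => (ha i).1, fun i => (ha i).2⟩
  intro i
  let U : EE n →ₗ[ℝ] (ι → ℝ) := LinearMap.pi (fun j => (innerSL ℝ (w j)).toLinearMap)
  have hU : ∀ x j, U x j = inner ℝ (w j) x := by
    intro x j; rfl
  let L : EE n →ₗ[ℝ] ℝ := (innerSL ℝ (w i)).toLinearMap ∘ₗ T
  have hL : ∀ x, L x = inner ℝ (w i) (T x) := by
    intro x; rfl
  let N : (ι → ℝ) → ℝ := fun u => K * (∑ j, |u j| ^ p) ^ (1 / p)
  have hLN : ∀ x, |L x| ≤ N (U x) := by
    intro x
    have h1 : |inner ℝ (w i) (T x)| ≤ NE p w (T x) := by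
      have h2 : |inner ℝ (w i) (T x)| ^ p ≤ ∑ j, |inner ℝ (w j) (T x)| ^ p :=
        Finset.single_le_sum (f := fun j => |inner ℝ (w j) (T x)| ^ p)
          (fun j _ => by positivity) (Finset.mem_univ i)
      calc |inner ℝ (w i) (T x)| = (|inner ℝ (w i) (T x)| ^ p) ^ (1 / p) := by
            rw [← Real.rpow_mul (abs_nonneg _), mul_one_div_cancel hp0.ne', Real.rpow_one]
        _ ≤ _ := Real.rpow_le_rpow (by positivity) h2 (by positivity)
    exact h1.trans (hT x)
  have hker : L ∈ (LinearMap.ker U).dualAnnihilator := by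
    rw [Submodule.mem_dualAnnihilator]
    intro x hx
    have h1 := hLN x
    rw [LinearMap.mem_ker] at hx
    have h2 : N (U x) = 0 := by
      rw [hx]
      simp only [N, Pi.zero_apply, abs_zero]
      rw [Real.zero_rpow hp0.ne']
      simp only [Finset.sum_const_zero]
      rw [Real.zero_rpow (by positivity), mul_zero]
    rw [h2] at h1
    exact abs_nonpos_iff.1 h1
  rw [← LinearMap.range_dualMap_eq_dualAnnihilator_ker] at hker
  obtain ⟨g0, hg0⟩ := hker
  have hg0' : ∀ x, g0 (U x) = L x := by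
    intro x
    rw [← hg0]; rfl
  obtain ⟨g, hg1, hg2⟩ := exists_extension_of_le_sublinear
    (⟨LinearMap.range U, g0.domRestrict (LinearMap.range U)⟩ : (ι → ℝ) →ₗ.[ℝ] ℝ) N
    (by
      intro c hc x
      simp only [N, Pi.smul_apply, smul_eq_mul, abs_mul, abs_of_pos hc]
      have h1 : ∀ j, (c * |x j|) ^ p = c ^ p * |x j| ^ p := fun j =>
        Real.mul_rpow hc.le (abs_nonneg _)
      simp only [h1]
      rw [← Finset.mul_sum, Real.mul_rpow (by positivity)
        (Finset.sum_nonneg fun j _ => by positivity), ← Real.rpow_mul hc.le,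
        mul_one_div_cancel hp0.ne', Real.rpow_one]
      ring)
    (by
      intro x y
      have h1 := Real.Lp_add_le Finset.univ x y hp.le
      have h2 := mul_le_mul_of_nonneg_left h1 hK
      simp only [N, Pi.add_apply]
      linarith)
    (by
      rintro ⟨x, ⟨y, rfl⟩⟩
      show g0 (U y) ≤ N (U y)
      rw [hg0' y]
      exact (le_abs_self _).trans (hLN y))
  have hgU : ∀ x, g (U x) = L x := by
    intro x
    have := hg1 ⟨U x, ⟨x, rfl⟩⟩
    rw [this]
    exact hg0' x
  have hgs : ∀ u : ι → ℝ, g u = ∑ j, u j * g (Pi.single j 1) := by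
    intro u
    conv_lhs => rw [← Finset.univ_sum_single u]
    rw [map_sum]
    refine Finset.sum_congr rfl fun j _ => ?_
    have : (Pi.single j (u j) : ι → ℝ) = u j • (Pi.single j 1 : ι → ℝ) := by
      rw [← Pi.single_smul, smul_eq_mul, mul_one]
    rw [this, map_smul, smul_eq_mul]
  refine ⟨fun j => g (Pi.single j 1), ?_, ?_⟩
  · apply lq_bound p q hp hpq K hK
    intro u
    rw [← hgs u]
    exact hg2 u
  · refine ext_inner_right ℝ fun x => ?_
    rw [LinearMap.adjoint_inner_left, ← hL x, ← hgU x, hgs, sum_inner]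
    refine Finset.sum_congr rfl fun j _ => ?_
    rw [inner_smul_left, hU]
    simp only [conj_trivial]
    ring

end Pool.Agent.Helper802.JB.N_hb_rep
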