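import Mathlib
import Pool.Agent.Helper802.JS.Defs

set_option autoImplicit false
open Filter Topology MeasureTheory

open Pool.Agent.Helper802.JB 

namespace Pool.Agent.Helper802.JB.N_sv_split


open scoped InnerProductSpace in
-- TARGET
/-- A4: splitting along singular values -/
theorem sv_split {a b : ℕ} (M : EE a →ₗ[ℝ] EE b) (γ : ℝ) (hγ : 0 < γ) :
    ∃ V : Submodule ℝ (EE a), (∀ v ∈ V, γ * ‖v‖ ≤ ‖M v‖) ∧ (∀ v ∈ Vᗮ, ‖M v‖ ≤ γ * ‖v‖) ∧
      γ ^ 2 * Module.finrank ℝ V ≤ ∑ k, ‖M (EuclideanSpace.single k 1)‖ ^ 2 := by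
  classical
  obtain ⟨N, hNdef⟩ : ∃ N : EE a →ₗ[ℝ] EE a, N = M.adjoint ∘ₗ M := ⟨_, rfl⟩
  have hNi : ∀ x y, ⟪x, N y⟫_ℝ = ⟪M x, M y⟫_ℝ := by
    intro x y
    rw [hNdef, LinearMap.comp_apply, LinearMap.adjoint_inner_right]
  have hN : N.IsSymmetric := by
    intro x y
    rw [hNi, real_inner_comm, hNi, real_inner_comm]
  have hn : Module.finrank ℝ (EE a) = a := by simp
  obtain ⟨B, hB⟩ : ∃ B, B = hN.eigenvectorBasis hn := ⟨_, rfl⟩
  obtain ⟨ev, hev⟩ : ∃ ev, ev = hN.eigenvalues hn := ⟨_, rfl⟩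
  have hap : ∀ i, N (B i) = ev i • B i := by
    intro i
    rw [hB, hev]
    exact hN.apply_eigenvectorBasis hn i
  have key : ∀ v, ‖M v‖ ^ 2 = ∑ i, ev i * ⟪B i, v⟫_ℝ ^ 2 := by
    intro v
    rw [← real_inner_self_eq_norm_sq, ← hNi, ← B.sum_inner_mul_inner]
    apply Finset.sum_congr rfl
    intro i _
    have h1 : ⟪B i, N v⟫_ℝ = ev i * ⟪B i, v⟫_ℝ := by
      rw [← hN (B i) v, hap, real_inner_smul_left]
    rw [h1, real_inner_comm v (B i)]
    ring
  have key2 : ∀ v, ‖v‖ ^ 2 = ∑ i, ⟪B i, v⟫_ℝ ^ 2 := by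
    intro v
    rw [← real_inner_self_eq_norm_sq, ← B.sum_inner_mul_inner]
    apply Finset.sum_congr rfl
    intro i _
    rw [real_inner_comm v (B i)]
    ring
  have hevn : ∀ i, ev i = ‖M (B i)‖ ^ 2 := by
    intro i
    rw [← real_inner_self_eq_norm_sq, ← hNi, hap, real_inner_smul_right, real_inner_self_eq_norm_sq,
      B.norm_eq_one]
    ring
  have htr : ∑ k, ‖M (EuclideanSpace.single k 1)‖ ^ 2 = ∑ i, ev i := by
    have t1 := LinearMap.trace_eq_sum_inner N B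
    have t2 := LinearMap.trace_eq_sum_inner N (EuclideanSpace.basisFun (Fin a) ℝ)
    have t3 : ∑ i, ⟪B i, N (B i)⟫_ℝ = ∑ i, ev i := by
      apply Finset.sum_congr rfl
      intro i _
      rw [hNi, real_inner_self_eq_norm_sq, hevn]
    have t4 : ∑ k, ⟪EuclideanSpace.basisFun (Fin a) ℝ k, N (EuclideanSpace.basisFun (Fin a) ℝ k)⟫_ℝ
        = ∑ k, ‖M (EuclideanSpace.single k 1)‖ ^ 2 := by
      apply Finset.sum_congr rfl
      intro i _
      rw [hNi, real_inner_self_eq_norm_sq, EuclideanSpace.basisFun_apply]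
    rw [← t3, ← t4, ← t1, ← t2]
  obtain ⟨V, hV⟩ : ∃ V : Submodule ℝ (EE a),
    V = Submodule.span ℝ (Set.range (fun i : {i // γ ^ 2 ≤ ev i} => B i)) := ⟨_, rfl⟩
  have hVB : ∀ i, γ ^ 2 ≤ ev i → B i ∈ V := by
    intro i hi
    rw [hV]
    exact Submodule.subset_span ⟨⟨i, hi⟩, rfl⟩
  refine ⟨V, ?_, ?_, ?_⟩
  · intro v hv
    have h0 : ∀ i, ev i < γ ^ 2 → ⟪B i, v⟫_ℝ = 0 := by
      intro i hi
      rw [hV] at hv
      induction hv using Submodule.span_induction with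
      | mem x hx =>
        obtain ⟨⟨j, hj⟩, rfl⟩ := hx
        apply B.inner_eq_zero
        rintro rfl
        exact absurd hi (not_lt.mpr hj)
      | zero => exact inner_zero_right _
      | add x y _ _ hx hy => rw [inner_add_right, hx, hy, add_zero]
      | smul c x _ hx => rw [real_inner_smul_right, hx, mul_zero]
    have h1 : (γ * ‖v‖) ^ 2 ≤ ‖M v‖ ^ 2 := by
      rw [mul_pow, key, key2, Finset.mul_sum]
      apply Finset.sum_le_sum
      intro i _
      rcases lt_or_ge (ev i) (γ ^ 2) with h | h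
      · rw [h0 i h]; simp
      · exact mul_le_mul_of_nonneg_right h (sq_nonneg _)
    exact (sq_le_sq₀ (by positivity) (norm_nonneg _)).mp h1
  · intro v hv
    have h0 : ∀ i, γ ^ 2 ≤ ev i → ⟪B i, v⟫_ℝ = 0 := fun i hi =>
      Submodule.inner_right_of_mem_orthogonal (hVB i hi) hv
    have h1 : ‖M v‖ ^ 2 ≤ (γ * ‖v‖) ^ 2 := by
      rw [mul_pow, key, key2, Finset.mul_sum]
      apply Finset.sum_le_sum
      intro i _
      rcases lt_or_ge (ev i) (γ ^ 2) with h | h
      · exact mul_le_mul_of_nonneg_right h.le (sq_nonneg _)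
      · rw [h0 i h]; simp
    exact (sq_le_sq₀ (norm_nonneg _) (by positivity)).mp h1
  · rw [htr]
    have hli : LinearIndependent ℝ (fun i : {i // γ ^ 2 ≤ ev i} => B i) :=
      B.orthonormal.linearIndependent.comp _ Subtype.val_injective
    have hfr : Module.finrank ℝ V = Fintype.card {i // γ ^ 2 ≤ ev i} := by
      rw [hV]
      exact finrank_span_eq_card hli
    rw [hfr, Fintype.card_subtype]
    calc γ ^ 2 * ((Finset.univ.filter fun i => γ ^ 2 ≤ ev i).card : ℝ)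
        = ∑ i ∈ Finset.univ.filter (fun i => γ ^ 2 ≤ ev i), γ ^ 2 := by
          rw [Finset.sum_const, nsmul_eq_mul, mul_comm]
      _ ≤ ∑ i ∈ Finset.univ.filter (fun i => γ ^ 2 ≤ ev i), ev i :=
          Finset.sum_le_sum fun i hi => (Finset.mem_filter.mp hi).2
      _ ≤ ∑ i, ev i := by
          apply Finset.sum_le_sum_of_subset_of_nonneg (Finset.filter_subset _ _)
          intro i _ _
          rw [hevn]; positivity

end Pool.Agent.Helper802.JB.N_sv_split
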