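import Mathlib
import Pool.Agent.Helper802.JS.Defs
import Pool.Agent.Helper802.JS.sv_split

set_option autoImplicit false
open Filter Topology MeasureTheory

open Pool.Agent.Helper802.JB Pool.Agent.Helper802.JB.N_sv_split

namespace Pool.Agent.Helper802.JB.N_not_far



-- TARGET
/-- not far implies almost scalar on a large subspace -/
theorem not_far {n : ℕ} (S : EE n →ₗ[ℝ] EE n) (K α s : ℝ) (hs : 0 < s) (h : ¬ Far S K α s) :
    ∃ c : ℝ, |c| ≤ K ∧ ∃ V : Submodule ℝ (EE n), (1 - α) * n ≤ Module.finrank ℝ V ∧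
      ∀ x ∈ V, ‖S x - c • x‖ ≤ s * ‖x‖ := by
  unfold Far at h
  push Not at h
  obtain ⟨c, hc, hV⟩ := h
  refine ⟨c, hc, ?_⟩
  obtain ⟨V, h1, h2, -⟩ := sv_split (S - c • (LinearMap.id : EE n →ₗ[ℝ] EE n)) s hs
  refine ⟨Vᗮ, ?_, fun x hx => h2 x hx⟩
  have h3 : (Module.finrank ℝ V : ℝ) < α * n := by
    by_contra hcon
    push Not at hcon
    obtain ⟨v, hv, hlt⟩ := hV V hcon
    have := h1 v hv
    simp only [LinearMap.sub_apply, LinearMap.smul_apply, LinearMap.id_apply] at this
    linarith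
  have h4 := Submodule.finrank_add_finrank_orthogonal V
  rw [finrank_euclideanSpace, Fintype.card_fin] at h4
  have h5 : (Module.finrank ℝ V : ℝ) + Module.finrank ℝ Vᗮ = n := by exact_mod_cast h4
  linarith

end Pool.Agent.Helper802.JB.N_not_far
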