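import Mathlib
import Pool.Agent.Helper802.JS.Defs

set_option autoImplicit false
open Filter Topology MeasureTheory

open Pool.Agent.Helper802.JB 

namespace Pool.Agent.Helper802.JB.N_op_bound


-- TARGET
theorem op_bound_low {n : ℕ} {ι : Type} [Fintype ι] (p : ℝ) (hp : 0 < p) (g : ι → EE n)
    (y : EE n) : ‖y‖ ≤ Real.sqrt n * NE p (withBasis g) y := by
  have hN0 : 0 ≤ NE p (withBasis g) y := by
    unfold NE
    positivity
  have hk : ∀ k, |y k| ≤ NE p (withBasis g) y := by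
    intro k
    unfold NE
    have h1 : |y k| ^ p ≤ ∑ i, |inner ℝ (withBasis g i) y| ^ p := by
      have h2 : |inner ℝ (withBasis g (Sum.inr k)) y| ^ p = |y k| ^ p := by
        simp [withBasis, EuclideanSpace.inner_single_left]
      rw [← h2]
      exact Finset.single_le_sum (f := fun i => |inner ℝ (withBasis g i) y| ^ p)
        (fun i _ => by positivity) (Finset.mem_univ _)
    calc |y k| = (|y k| ^ p) ^ (1 / p) := by
          rw [← Real.rpow_mul (abs_nonneg _), mul_one_div_cancel hp.ne', Real.rpow_one]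
      _ ≤ _ := Real.rpow_le_rpow (by positivity) h1 (by positivity)
  rw [EuclideanSpace.norm_eq]
  have h3 : ∑ i, ‖y i‖ ^ 2 ≤ n * (NE p (withBasis g) y) ^ 2 := by
    calc ∑ i, ‖y i‖ ^ 2 ≤ ∑ _i : Fin n, (NE p (withBasis g) y) ^ 2 := by
          apply Finset.sum_le_sum
          intro i _
          rw [Real.norm_eq_abs]
          exact pow_le_pow_left₀ (abs_nonneg _) (hk i) 2
      _ = _ := by simp
  calc Real.sqrt (∑ i, ‖y i‖ ^ 2) ≤ Real.sqrt (n * (NE p (withBasis g) y) ^ 2) :=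
        Real.sqrt_le_sqrt h3
    _ = _ := by rw [Real.sqrt_mul (Nat.cast_nonneg n), Real.sqrt_sq hN0]

theorem op_bound_up {n N : ℕ} (p : ℝ) (hp : 2 < p) (g : Fin N → EE n)
    (hg : ∀ i, ‖g i‖ ≤ 1) (hn : 1 ≤ n) (x : EE n) :
    NE p (withBasis g) x ≤ (N + n) * ‖x‖ := by
  have hp0 : 0 < p := by linarith
  have hb : ∀ i, |inner ℝ (withBasis g i) x| ≤ ‖x‖ := by
    intro i
    have h1 : ‖withBasis g i‖ ≤ 1 := by
      rcases i with i | k
      · exact hg i
      · simp [withBasis]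
    calc |inner ℝ (withBasis g i) x| ≤ ‖withBasis g i‖ * ‖x‖ := abs_real_inner_le_norm _ _
      _ ≤ 1 * ‖x‖ := mul_le_mul_of_nonneg_right h1 (norm_nonneg _)
      _ = ‖x‖ := one_mul _
  have hs : ∑ i, |inner ℝ (withBasis g i) x| ^ p ≤ ((N : ℝ) + n) * ‖x‖ ^ p := by
    calc ∑ i, |inner ℝ (withBasis g i) x| ^ p ≤ ∑ _i : Fin N ⊕ Fin n, ‖x‖ ^ p := by
          apply Finset.sum_le_sum
          intro i _
          exact Real.rpow_le_rpow (abs_nonneg _) (hb i) hp0.le
      _ = _ := by simp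
  have h1 : (1 : ℝ) ≤ (N : ℝ) + n := by
    have : (1 : ℝ) ≤ n := by exact_mod_cast hn
    have h2 : (0 : ℝ) ≤ N := Nat.cast_nonneg N
    linarith
  unfold NE
  calc (∑ i, |inner ℝ (withBasis g i) x| ^ p) ^ (1 / p)
      ≤ (((N : ℝ) + n) * ‖x‖ ^ p) ^ (1 / p) :=
        Real.rpow_le_rpow (Finset.sum_nonneg (fun i _ => by positivity)) hs (by positivity)
    _ = ((N : ℝ) + n) ^ (1 / p) * ‖x‖ := by
        rw [Real.mul_rpow (by positivity) (by positivity), ← Real.rpow_mul (norm_nonneg _),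
          mul_one_div_cancel hp0.ne', Real.rpow_one]
    _ ≤ ((N : ℝ) + n) * ‖x‖ := by
        apply mul_le_mul_of_nonneg_right _ (norm_nonneg _)
        have h3 : 1 / p ≤ 1 := by
          rw [div_le_one hp0]; linarith
        calc ((N : ℝ) + n) ^ (1 / p) ≤ ((N : ℝ) + n) ^ (1 : ℝ) :=
              Real.rpow_le_rpow_of_exponent_le h1 h3
          _ = _ := Real.rpow_one _

theorem op_bound {n N : ℕ} (p K : ℝ) (hp : 2 < p) (hK : 0 ≤ K) (g : Fin N → EE n)
    (hg : ∀ i, ‖g i‖ ≤ 1) (T : EE n →ₗ[ℝ] EE n)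
    (hT : ∀ x, NE p (withBasis g) (T x) ≤ K * NE p (withBasis g) x) (x : EE n) :
    ‖T x‖ ≤ Real.sqrt n * K * (N + n) * ‖x‖ := by
  rcases Nat.eq_zero_or_pos n with hn | hn
  · subst hn
    have : T x = 0 := Subsingleton.elim _ _
    rw [this]
    simp
  · calc ‖T x‖ ≤ Real.sqrt n * NE p (withBasis g) (T x) := op_bound_low p (by linarith) g _
      _ ≤ Real.sqrt n * (K * ((N + n) * ‖x‖)) := by
          apply mul_le_mul_of_nonneg_left _ (Real.sqrt_nonneg _)
          exact (hT x).trans (mul_le_mul_of_nonneg_left (op_bound_up p hp g hg hn x) hK)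
      _ = _ := by ring

end Pool.Agent.Helper802.JB.N_op_bound
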