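import Mathlib
import Pool.Agent.Helper802.JS.Defs

set_option autoImplicit false
open Filter Topology MeasureTheory

open Pool.Agent.Helper802.JB 

namespace Pool.Agent.Helper802.JB.N_round_mat


theorem exists_trunc (a : ℝ) : ∃ z : ℤ, |(z : ℝ)| ≤ |a| ∧ |a - z| ≤ 1 := by
  rcases le_total 0 a with h | h
  · refine ⟨⌊a⌋, ?_, ?_⟩
    · have h0 : (0 : ℤ) ≤ ⌊a⌋ := Int.floor_nonneg.2 h
      have h0' : (0 : ℝ) ≤ (⌊a⌋ : ℝ) := by exact_mod_cast h0
      rw [abs_of_nonneg h0', abs_of_nonneg h]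
      exact Int.floor_le a
    · have h1 := Int.floor_le a
      have h2 := Int.lt_floor_add_one a
      rw [abs_le]
      constructor <;> linarith
  · refine ⟨⌈a⌉, ?_, ?_⟩
    · have h0 : ⌈a⌉ ≤ (0 : ℤ) := Int.ceil_le.2 (by simpa using h)
      have h0' : (⌈a⌉ : ℝ) ≤ 0 := by exact_mod_cast h0
      rw [abs_of_nonpos h0', abs_of_nonpos h]
      linarith [Int.le_ceil a]
    · have h1 := Int.le_ceil a
      have h2 := Int.ceil_lt_add_one a
      rw [abs_le]
      constructor <;> linarith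

-- TARGET
theorem round_mat {n : ℕ} (hn : 1 ≤ n) (S : EE n →ₗ[ℝ] EE n) (M : ℝ)
    (hS : ∀ x, ‖S x‖ ≤ M * ‖x‖) :
    ∃ Z : Fin n → Fin n → ℤ, (∀ k l, |(Z k l : ℝ)| ≤ M * n ^ 2) ∧
      ∀ x, ‖S x - Smat Z x‖ ≤ 1 / n * ‖x‖ := by
  have hn0 : (0 : ℝ) < n := by exact_mod_cast (by omega : 0 < n)
  have hex : ∀ k l : Fin n, ∃ z : ℤ,
      |(z : ℝ)| ≤ |(n : ℝ) ^ 2 * (S (EuclideanSpace.single l (1 : ℝ))) k| ∧
      |(n : ℝ) ^ 2 * (S (EuclideanSpace.single l (1 : ℝ))) k - z| ≤ 1 := fun k l => exists_trunc _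
  choose Z hZ1 hZ2 using hex
  refine ⟨Z, fun k l => ?_, fun x => ?_⟩
  · refine (hZ1 k l).trans ?_
    rw [abs_mul, abs_of_nonneg (by positivity : (0 : ℝ) ≤ (n : ℝ) ^ 2), mul_comm]
    apply mul_le_mul_of_nonneg_right _ (by positivity)
    have h1 := hS (EuclideanSpace.single l (1 : ℝ))
    have h2 : ‖EuclideanSpace.single l (1 : ℝ)‖ = 1 := by simp
    rw [h2, mul_one] at h1
    refine le_trans ?_ h1
    have := PiLp.norm_apply_le (S (EuclideanSpace.single l (1 : ℝ))) k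
    rwa [Real.norm_eq_abs] at this
  · have hSx : ∀ k, (S x) k = ∑ l, x l * (S (EuclideanSpace.single l (1 : ℝ))) k := by
      intro k
      have hx : x = ∑ l, x l • EuclideanSpace.single l (1 : ℝ) := by
        ext j
        simp [Finset.sum_apply, PiLp.smul_apply, Pi.single_apply]
      conv_lhs => rw [hx]
      rw [map_sum]
      simp [Finset.sum_apply, PiLp.smul_apply]
    have hZx : ∀ k, (Smat Z x) k = (1 / (n : ℝ) ^ 2) * ∑ l, (Z k l : ℝ) * x l := by
      intro k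
      simp [Smat, Matrix.toEuclideanLin_apply, Matrix.mulVec, dotProduct]
    have hk : ∀ k, |(S x - Smat Z x) k| ≤ 1 / (n : ℝ) ^ 2 * ∑ l, |x l| := by
      intro k
      have : (S x - Smat Z x) k = 1 / (n : ℝ) ^ 2 *
          ∑ l, ((n : ℝ) ^ 2 * (S (EuclideanSpace.single l (1 : ℝ))) k - Z k l) * x l := by
        rw [PiLp.sub_apply, hSx, hZx, Finset.mul_sum, Finset.mul_sum, ← Finset.sum_sub_distrib]
        refine Finset.sum_congr rfl fun l _ => ?_
        field_simp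
      rw [this, abs_mul, abs_of_nonneg (by positivity : (0 : ℝ) ≤ 1 / (n : ℝ) ^ 2)]
      apply mul_le_mul_of_nonneg_left _ (by positivity)
      refine (Finset.abs_sum_le_sum_abs _ _).trans (Finset.sum_le_sum fun l _ => ?_)
      rw [abs_mul]
      calc _ ≤ 1 * |x l| := mul_le_mul_of_nonneg_right (hZ2 k l) (abs_nonneg _)
        _ = |x l| := one_mul _
    have hcs : (∑ l, |x l|) ^ 2 ≤ (n : ℝ) * ‖x‖ ^ 2 := by
      have h1 := sq_sum_le_card_mul_sum_sq (s := (Finset.univ : Finset (Fin n))) (f := fun l => |x l|)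
      rw [EuclideanSpace.norm_sq_eq]
      simpa using h1
    have hsq : ‖S x - Smat Z x‖ ^ 2 ≤ (1 / n * ‖x‖) ^ 2 := by
      rw [EuclideanSpace.norm_sq_eq]
      calc ∑ k, ‖(S x - Smat Z x) k‖ ^ 2 ≤ ∑ _k : Fin n, (1 / (n : ℝ) ^ 2 * ∑ l, |x l|) ^ 2 := by
            refine Finset.sum_le_sum fun k _ => ?_
            rw [Real.norm_eq_abs]
            exact pow_le_pow_left₀ (abs_nonneg _) (hk k) 2
        _ = n * ((1 / (n : ℝ) ^ 2) ^ 2 * (∑ l, |x l|) ^ 2) := by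
            rw [Finset.sum_const, Finset.card_univ, Fintype.card_fin, nsmul_eq_mul, mul_pow]
        _ ≤ n * ((1 / (n : ℝ) ^ 2) ^ 2 * ((n : ℝ) * ‖x‖ ^ 2)) := by
            gcongr
        _ = (1 / n * ‖x‖) ^ 2 := by
            field_simp
    exact le_of_sq_le_sq hsq (by positivity) 

end Pool.Agent.Helper802.JB.N_round_mat
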