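import Mathlib
import Pool.Agent.Helper802.JS.Defs

set_option autoImplicit false
open Filter Topology MeasureTheory

open Pool.Agent.Helper802.JB 

namespace Pool.Agent.Helper802.JB.N_zround

private theorem trunc_exists (x : ℝ) : ∃ z : ℤ, |(z : ℝ)| ≤ |x| ∧ |x - z| ≤ 1 := by
  rcases le_total 0 x with h | h
  · refine ⟨⌊x⌋, ?_, ?_⟩
    · have h0 : (0 : ℝ) ≤ (⌊x⌋ : ℝ) := by exact_mod_cast Int.floor_nonneg.2 h
      rw [abs_of_nonneg h0, abs_of_nonneg h]
      exact Int.floor_le x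
    · have h1 := Int.floor_le x
      have h2 := Int.lt_floor_add_one x
      rw [abs_le]; constructor <;> linarith
  · refine ⟨⌈x⌉, ?_, ?_⟩
    · have h0 : (⌈x⌉ : ℝ) ≤ 0 := by
        have : ⌈x⌉ ≤ 0 := Int.ceil_le.2 (by simpa using h)
        exact_mod_cast this
      rw [abs_of_nonpos h0, abs_of_nonpos h]
      have := Int.le_ceil x
      linarith
    · have h1 := Int.le_ceil x
      have h2 := Int.ceil_lt_add_one x
      rw [abs_le]; constructor <;> linarith

-- TARGET
/-- rounding in `ℓ_q` -/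
theorem zround {ι : Type} [Fintype ι] [Nonempty ι] (q K : ℝ) (hq : 1 ≤ q) (hK : 0 < K)
    (a : ι → ℝ) (ha : ∑ i, |a i| ^ q ≤ K ^ q) :
    ∃ z : ι → ℤ, (∑ i, |(z i : ℝ)| ^ q ≤ Fintype.card ι) ∧
      ∑ i, (a i - K * (Fintype.card ι : ℝ) ^ (-(1 / q)) * z i) ^ 2 ≤
        K ^ 2 * (Fintype.card ι : ℝ) ^ (1 - 2 / q) := by
  have hq0 : 0 < q := by linarith
  have hL : (0 : ℝ) < (Fintype.card ι : ℝ) := by exact_mod_cast Fintype.card_pos
  set L : ℝ := (Fintype.card ι : ℝ) with hLdef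
  set c : ℝ := K * L ^ (-(1 / q)) with hc
  have hc0 : 0 < c := mul_pos hK (Real.rpow_pos_of_pos hL _)
  choose z hz1 hz2 using fun i => trunc_exists (a i / c)
  have hcq : c ^ q = K ^ q * L⁻¹ := by
    rw [hc, Real.mul_rpow hK.le (Real.rpow_nonneg hL.le _), ← Real.rpow_mul hL.le]
    congr 1
    rw [show -(1 / q) * q = -1 by field_simp, Real.rpow_neg_one]
  refine ⟨z, ?_, ?_⟩
  · have hKq : 0 < K ^ q := Real.rpow_pos_of_pos hK _
    calc ∑ i, |(z i : ℝ)| ^ q ≤ ∑ i, |a i / c| ^ q :=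
          Finset.sum_le_sum fun i _ => Real.rpow_le_rpow (abs_nonneg _) (hz1 i) hq0.le
      _ = (∑ i, |a i| ^ q) / c ^ q := by
          rw [Finset.sum_div]
          refine Finset.sum_congr rfl fun i _ => ?_
          rw [abs_div, abs_of_pos hc0, Real.div_rpow (abs_nonneg _) hc0.le]
      _ ≤ K ^ q / c ^ q := by
          gcongr
      _ = L := by
          rw [hcq]; field_simp
  · have hterm : ∀ i, (a i - c * z i) ^ 2 ≤ c ^ 2 := by
      intro i
      have h1 : a i - c * z i = c * (a i / c - z i) := by field_simp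
      rw [h1, mul_pow]
      have h2 : (a i / c - z i) ^ 2 ≤ 1 := by
        rw [← sq_abs]
        have := hz2 i
        have h3 := abs_nonneg (a i / c - z i)
        nlinarith
      have := sq_nonneg c
      nlinarith
    calc ∑ i, (a i - c * z i) ^ 2 ≤ ∑ _i : ι, c ^ 2 := Finset.sum_le_sum fun i _ => hterm i
      _ = L * c ^ 2 := by simp [hLdef]
      _ = K ^ 2 * L ^ (1 - 2 / q) := by
          rw [hc, mul_pow, ← Real.rpow_natCast (L ^ (-(1 / q))) 2, ← Real.rpow_mul hL.le,
            Real.rpow_sub hL, Real.rpow_one]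
          have : -(1 / q) * ((2 : ℕ) : ℝ) = -(2 / q) := by push_cast; ring
          rw [this, Real.rpow_neg hL.le]
          field_simp

end Pool.Agent.Helper802.JB.N_zround
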