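import Mathlib
import Pool.Agent.Helper802.JS.Defs
import Pool.Agent.Helper802.JS.not_far
import Pool.Agent.Helper802.JS.hb_rep
import Pool.Agent.Helper802.JS.zround
import Pool.Agent.Helper802.JS.op_bound
import Pool.Agent.Helper802.JS.round_mat

set_option autoImplicit false
open Filter Topology MeasureTheory

open Pool.Agent.Helper802.JB Pool.Agent.Helper802.JB.N_not_far Pool.Agent.Helper802.JB.N_hb_rep Pool.Agent.Helper802.JB.N_zround Pool.Agent.Helper802.JB.N_op_bound Pool.Agent.Helper802.JB.N_round_mat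

namespace Pool.Agent.Helper802.JB.N_good_inclusion







theorem good_inclusion_row {N n : ℕ} (G : EuclideanSpace ℝ (Fin N × Fin n))
    (hcube : ∀ a, |G a| ≤ 1) (i : Fin N) : ‖row G i‖ ≤ Real.sqrt n := by
  rw [EuclideanSpace.norm_eq]
  apply Real.sqrt_le_sqrt
  calc ∑ k, ‖(row G i) k‖ ^ 2 ≤ ∑ _k : Fin n, (1 : ℝ) := by
        apply Finset.sum_le_sum
        intro k _
        have h1 : (row G i) k = G (i, k) := rfl
        rw [h1, Real.norm_eq_abs]
        have := hcube (i, k)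
        nlinarith [abs_nonneg (G (i, k))]
    _ = n := by simp

theorem good_inclusion_G {N n : ℕ} (G : EuclideanSpace ℝ (Fin N × Fin n))
    (hcube : ∀ a, |G a| ≤ 1) : ‖G‖ ≤ Real.sqrt (N * n) := by
  rw [EuclideanSpace.norm_eq]
  apply Real.sqrt_le_sqrt
  calc ∑ k, ‖G k‖ ^ 2 ≤ ∑ _k : Fin N × Fin n, (1 : ℝ) := by
        apply Finset.sum_le_sum
        intro k _
        rw [Real.norm_eq_abs]
        have := hcube k
        nlinarith [abs_nonneg (G k)]
    _ = N * n := by simp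

theorem good_inclusion_W {N n : ℕ} (hn : 0 < n) (Cop : ℝ) (hC : 0 ≤ Cop)
    (G : EuclideanSpace ℝ (Fin N × Fin n))
    (hop : ∀ (x : EE N) (y : EE n),
      |∑ i, x i * inner ℝ (row G i) y| ≤ Cop * Real.sqrt N * ‖x‖ * ‖y‖)
    (c : Fin N ⊕ Fin n → ℝ) :
    ‖∑ j, c j • withBasis (fun i => (1 / Real.sqrt n) • row G i) j‖ ≤
      (Cop * Real.sqrt N / Real.sqrt n + 1) * Real.sqrt (∑ j, c j ^ 2) := by
  have hsn : 0 < Real.sqrt n := Real.sqrt_pos.mpr (by exact_mod_cast hn)
  rw [Fintype.sum_sum_type]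
  have hl : ∀ i : Fin N, withBasis (fun i => (1 / Real.sqrt n) • row G i) (Sum.inl i)
      = (1 / Real.sqrt n) • row G i := fun i => rfl
  have hr : ∀ k : Fin n, withBasis (fun i => (1 / Real.sqrt n) • row G i) (Sum.inr k)
      = EuclideanSpace.single k (1 : ℝ) := fun k => rfl
  have hsum : ∑ j, c j ^ 2 = ∑ i, c (Sum.inl i) ^ 2 + ∑ k, c (Sum.inr k) ^ 2 :=
    Fintype.sum_sum_type _
  have hpos1 : 0 ≤ ∑ i, c (Sum.inl i) ^ 2 := Finset.sum_nonneg (fun _ _ => sq_nonneg _)
  have hpos2 : 0 ≤ ∑ k, c (Sum.inr k) ^ 2 := Finset.sum_nonneg (fun _ _ => sq_nonneg _)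
  simp only [hl, hr]
  -- second part
  have h2 : ‖∑ k, c (Sum.inr k) • (EuclideanSpace.single k (1 : ℝ) : EE n)‖
      ≤ Real.sqrt (∑ j, c j ^ 2) := by
    have he : ∑ k, c (Sum.inr k) • (EuclideanSpace.single k (1 : ℝ) : EE n)
        = WithLp.toLp 2 (fun k => c (Sum.inr k)) := by
      ext l
      simp [Pi.single_apply]
    rw [he, EuclideanSpace.norm_eq]
    apply Real.sqrt_le_sqrt
    rw [hsum]
    simp only [Real.norm_eq_abs, sq_abs]
    linarith
  -- first part
  let x : EE N := WithLp.toLp 2 (fun i => c (Sum.inl i))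
  have hx : ‖x‖ ≤ Real.sqrt (∑ j, c j ^ 2) := by
    rw [EuclideanSpace.norm_eq]
    apply Real.sqrt_le_sqrt
    rw [hsum]
    simp only [Real.norm_eq_abs, sq_abs, x]
    linarith
  have h1 : ‖∑ i, c (Sum.inl i) • ((1 / Real.sqrt n) • row G i)‖
      ≤ Cop * Real.sqrt N / Real.sqrt n * ‖x‖ := by
    set u := ∑ i, c (Sum.inl i) • ((1 / Real.sqrt n) • row G i) with hu
    have hin : inner ℝ u u = (1 / Real.sqrt n) * ∑ i, x i * inner ℝ (row G i) u := by
      conv_lhs => rw [hu]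
      rw [sum_inner, Finset.mul_sum]
      apply Finset.sum_congr rfl
      intro i _
      rw [real_inner_smul_left, real_inner_smul_left]
      simp only [x]
      ring
    have hle : ‖u‖ ^ 2 ≤ (1 / Real.sqrt n) * (Cop * Real.sqrt N * ‖x‖ * ‖u‖) := by
      rw [← real_inner_self_eq_norm_sq, hin]
      apply mul_le_mul_of_nonneg_left _ (by positivity)
      exact (le_abs_self _).trans (hop x u)
    by_cases hu0 : ‖u‖ = 0
    · rw [hu0]; positivity
    · have hupos : 0 < ‖u‖ := lt_of_le_of_ne (norm_nonneg _) (Ne.symm hu0)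
      have h3 : ‖u‖ * ‖u‖ ≤ (Cop * Real.sqrt N / Real.sqrt n * ‖x‖) * ‖u‖ := by
        calc ‖u‖ * ‖u‖ = ‖u‖ ^ 2 := by ring
          _ ≤ _ := hle
          _ = _ := by ring
      exact le_of_mul_le_mul_right h3 hupos
  have hco : 0 ≤ Cop * Real.sqrt N / Real.sqrt n := by positivity
  calc ‖∑ i, c (Sum.inl i) • ((1 / Real.sqrt n) • row G i)
        + ∑ k, c (Sum.inr k) • (EuclideanSpace.single k (1 : ℝ) : EE n)‖
      ≤ Cop * Real.sqrt N / Real.sqrt n * ‖x‖ + Real.sqrt (∑ j, c j ^ 2) :=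
        (norm_add_le _ _).trans (add_le_add h1 h2)
    _ ≤ Cop * Real.sqrt N / Real.sqrt n * Real.sqrt (∑ j, c j ^ 2)
        + Real.sqrt (∑ j, c j ^ 2) := by
        have := mul_le_mul_of_nonneg_left hx hco
        linarith
    _ = _ := by ring

theorem good_inclusion_adj {n : ℕ} (T : EE n →ₗ[ℝ] EE n) (M : ℝ) (hM : 0 ≤ M)
    (hT : ∀ x, ‖T x‖ ≤ M * ‖x‖) (x : EE n) : ‖T.adjoint x‖ ≤ M * ‖x‖ := by
  by_cases h0 : ‖T.adjoint x‖ = 0
  · rw [h0]; positivity
  · have hpos : 0 < ‖T.adjoint x‖ := lt_of_le_of_ne (norm_nonneg _) (Ne.symm h0)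
    have h1 : ‖T.adjoint x‖ * ‖T.adjoint x‖ ≤ (M * ‖x‖) * ‖T.adjoint x‖ := by
      calc ‖T.adjoint x‖ * ‖T.adjoint x‖ = inner ℝ (T.adjoint x) (T.adjoint x) := by
            rw [real_inner_self_eq_norm_sq]; ring
        _ = inner ℝ x (T (T.adjoint x)) := by rw [LinearMap.adjoint_inner_left]
        _ ≤ ‖x‖ * ‖T (T.adjoint x)‖ := real_inner_le_norm _ _
        _ ≤ ‖x‖ * (M * ‖T.adjoint x‖) :=
            mul_le_mul_of_nonneg_left (hT _) (norm_nonneg _)
        _ = _ := by ring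
    exact le_of_mul_le_mul_right h1 hpos

-- TARGET
theorem good_inclusion {N n : ℕ} (hN : 0 < N) (hn : 0 < n) (p q K α s Cop : ℝ) (hp : 2 < p)
    (hpq : 1 / p + 1 / q = 1) (hK : 1 ≤ K) (hs : 0 < s) (hC : 0 ≤ Cop)
    (G : EuclideanSpace ℝ (Fin N × Fin n)) (hcube : ∀ a, |G a| ≤ 1)
    (hop : ∀ (x : EE N) (y : EE n), |∑ i, x i * inner ℝ (row G i) y| ≤ Cop * Real.sqrt N * ‖x‖ * ‖y‖)
    (h1 : 1 / (n : ℝ) ≤ s / 2)
    (hbad : ¬ FewOp p (withBasis (fun i => (1 / Real.sqrt n) • row G i)) K α s) :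
    ∃ (Z : Fin n → Fin n → ℤ) (z : Fin N → (Fin N ⊕ Fin n) → ℤ),
      (∀ k l, |(Z k l : ℝ)| ≤ Real.sqrt n * K * (N + n) * n ^ 2) ∧
      (∀ i, ∑ j, |(z i j : ℝ)| ^ q ≤ (N : ℝ) + n) ∧ Far (Smat Z) K α (s / 2) ∧
      G ∈ Piece K q (1 / n + (Cop * Real.sqrt N / Real.sqrt n + 1) *
        (K * ((N : ℝ) + n) ^ (1 / 2 - 1 / q))) Z z := by
  have hnR : (0 : ℝ) < n := by exact_mod_cast hn
  have hNR : (0 : ℝ) < N := by exact_mod_cast hN
  have hsn : 0 < Real.sqrt n := Real.sqrt_pos.mpr hnR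
  have hK0 : 0 < K := by linarith
  have hp0 : 0 < p := by linarith
  have hq0 : 0 < 1 / q := by
    have h2 : 1 / p < 1 := by rw [div_lt_one hp0]; linarith
    linarith
  have hq0' : 0 < q := by
    rcases lt_or_ge 0 q with h | h
    · exact h
    · exact absurd hq0 (not_lt.mpr (div_nonpos_of_nonneg_of_nonpos zero_le_one h))
  have hq1 : 1 ≤ q := by
    have h2 : 1 / q ≤ 1 := by
      have : 0 < 1 / p := by positivity
      linarith
    rw [div_le_one hq0'] at h2
    exact h2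
  set g : Fin N → EE n := fun i => (1 / Real.sqrt n) • row G i with hg
  have hgn : ∀ i, ‖g i‖ ≤ 1 := by
    intro i
    rw [hg]
    simp only
    rw [norm_smul, Real.norm_eq_abs, abs_of_pos (by positivity)]
    rw [div_mul_eq_mul_div, one_mul, div_le_one hsn]
    exact good_inclusion_row G hcube i
  unfold FewOp at hbad
  push Not at hbad
  obtain ⟨T, hT, hT2⟩ := hbad
  have hTb : ∀ x, ‖T x‖ ≤ Real.sqrt n * K * (N + n) * ‖x‖ := fun x =>
    op_bound p K hp hK0.le g hgn T hT x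
  have hM : 0 ≤ Real.sqrt n * K * (N + n) := by positivity
  have hSb : ∀ x, ‖T.adjoint x‖ ≤ Real.sqrt n * K * (N + n) * ‖x‖ :=
    good_inclusion_adj T _ hM hTb
  have hfar : Far T.adjoint K α s := by
    by_contra hnf
    obtain ⟨c, hc, V, hV, hV2⟩ := not_far _ K α s hs hnf
    obtain ⟨x, hx, hx2⟩ := hT2 c hc V hV
    exact absurd (hV2 x hx) (not_le.mpr hx2)
  obtain ⟨Z, hZ1, hZ2⟩ := round_mat (n := n) hn T.adjoint _ hSb
  obtain ⟨a, ha1, ha2⟩ := hb_rep p q (by linarith) hpq (withBasis g) K hK0.le T hT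
  have hne : Nonempty (Fin N ⊕ Fin n) := ⟨Sum.inl ⟨0, hN⟩⟩
  have hz := fun i : Fin N => zround q K hq1 hK0 (a (Sum.inl i)) (ha1 (Sum.inl i))
  choose z hz1 hz2 using hz
  have hcard : ((Fintype.card (Fin N ⊕ Fin n) : ℕ) : ℝ) = (N : ℝ) + n := by
    simp
  refine ⟨Z, z, hZ1, fun i => ?_, ?_, ?_⟩
  · have := hz1 i
    rw [hcard] at this
    exact this
  · intro c hc
    obtain ⟨V, hV1, hV2⟩ := hfar c hc
    refine ⟨V, hV1, fun v hv => ?_⟩
    have h2 := hV2 v hv
    have h3 := hZ2 v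
    have h4 : ‖T.adjoint v - c • v‖ ≤ ‖T.adjoint v - Smat Z v‖ + ‖Smat Z v - c • v‖ := by
      have := norm_add_le (T.adjoint v - Smat Z v) (Smat Z v - c • v)
      rwa [sub_add_sub_cancel] at this
    have h5 : 1 / (n : ℝ) * ‖v‖ ≤ s / 2 * ‖v‖ := mul_le_mul_of_nonneg_right h1 (norm_nonneg _)
    linarith
  · refine ⟨good_inclusion_G G hcube, fun i => ?_⟩
    set κ : ℝ := K * ((N : ℝ) + n) ^ (-(1 / q)) with hκ
    -- the bound for `g i`
    have hmain : ‖Smat Z (g i) - ∑ j, (κ * z i j) • withBasis g j‖ ≤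
        1 / n + (Cop * Real.sqrt N / Real.sqrt n + 1) *
        (K * ((N : ℝ) + n) ^ (1 / 2 - 1 / q)) := by
      have e1 : T.adjoint (g i) = ∑ j, a (Sum.inl i) j • withBasis g j := ha2 (Sum.inl i)
      have e2 : Smat Z (g i) - ∑ j, (κ * z i j) • withBasis g j
          = (Smat Z (g i) - T.adjoint (g i))
            + ∑ j, (a (Sum.inl i) j - κ * z i j) • withBasis g j := by
        have : ∑ j, (a (Sum.inl i) j - κ * z i j) • withBasis g j
            = T.adjoint (g i) - ∑ j, (κ * z i j) • withBasis g j := by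
          rw [e1, ← Finset.sum_sub_distrib]
          apply Finset.sum_congr rfl
          intro j _
          rw [sub_smul]
        rw [this]
        abel
      rw [e2]
      refine (norm_add_le _ _).trans (add_le_add ?_ ?_)
      · rw [norm_sub_rev]
        refine (hZ2 (g i)).trans ?_
        have : (0 : ℝ) ≤ 1 / n := by positivity
        calc 1 / (n : ℝ) * ‖g i‖ ≤ 1 / (n : ℝ) * 1 := mul_le_mul_of_nonneg_left (hgn i) this
          _ = _ := by ring
      · have hW := good_inclusion_W hn Cop hC G hop (fun j => a (Sum.inl i) j - κ * z i j)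
        refine hW.trans ?_
        apply mul_le_mul_of_nonneg_left _ (by positivity)
        have h6 := hz2 i
        rw [hcard] at h6
        have h7 : Real.sqrt (∑ j, (a (Sum.inl i) j - κ * z i j) ^ 2)
            ≤ Real.sqrt (K ^ 2 * ((N : ℝ) + n) ^ (1 - 2 / q)) := Real.sqrt_le_sqrt h6
        refine h7.trans (le_of_eq ?_)
        have hNn : (0 : ℝ) < (N : ℝ) + n := by positivity
        rw [show ((N : ℝ) + n) ^ (1 - 2 / q) = (((N : ℝ) + n) ^ (1 / 2 - 1 / q)) ^ 2 by
          rw [← Real.rpow_natCast, ← Real.rpow_mul hNn.le]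
          congr 1
          push_cast
          ring]
        rw [← mul_pow, Real.sqrt_sq (by positivity)]
    have hrow : ∀ j, row G j = Real.sqrt n • g j := by
      intro j
      rw [hg]
      simp only
      rw [smul_smul, mul_one_div, div_self hsn.ne', one_smul]
    have hexp : Smat Z (row G i) - ∑ j, (κ * z i (Sum.inl j)) • row G j
      - Real.sqrt n • ∑ k, (κ * z i (Sum.inr k)) •
        (EuclideanSpace.single k (1 : ℝ) : EE n)
        = Real.sqrt n • (Smat Z (g i) - ∑ j, (κ * z i j) • withBasis g j) := by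
      rw [Fintype.sum_sum_type]
      have hl : ∀ i : Fin N, withBasis g (Sum.inl i) = g i := fun i => rfl
      have hr : ∀ k : Fin n, withBasis g (Sum.inr k) = EuclideanSpace.single k (1 : ℝ) :=
        fun k => rfl
      simp only [hl, hr]
      rw [smul_sub, smul_add, hrow i, map_smul]
      simp only [Finset.smul_sum]
      have : ∑ j, (κ * z i (Sum.inl j)) • row G j
          = ∑ j, Real.sqrt n • ((κ * z i (Sum.inl j)) • g j) := by
        apply Finset.sum_congr rfl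
        intro j _
        rw [hrow j, smul_comm]
      rw [this]
      abel
    rw [hexp, norm_smul, Real.norm_eq_abs, abs_of_pos hsn]
    exact mul_le_mul_of_nonneg_left hmain hsn.le

end Pool.Agent.Helper802.JB.N_good_inclusion
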