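import Mathlib
import Pool.Agent.Helper802.JS.Defs

set_option autoImplicit false
open Filter Topology MeasureTheory

open Pool.Agent.Helper802.JB 

namespace Pool.Agent.Helper802.JB.N_numeric

-- TARGET
theorem numeric (q K α s Cop : ℝ) (b : ℕ) (hq1 : 1 < q) (hq2 : q < 2) (hK : 1 ≤ K) (hα : 0 < α)
    (hs : 0 < s) (hC : 1 ≤ Cop) (hb : 0 < b) :
    ∃ C1 n1 : ℕ, 1 ≤ C1 ∧ 1 ≤ n1 ∧ ∀ n N : ℕ, n1 ≤ n → N = C1 * n → ∀ ρ0 : ℝ,
      ρ0 = 1 / n + (Cop * Real.sqrt N / Real.sqrt n + 1) * (K * ((N : ℝ) + n) ^ (1 / 2 - 1 / q)) →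
      1 / (n : ℝ) ≤ s / 2 ∧ 12 * ρ0 ≤ s ∧
      (2 * (Real.sqrt n * K * (N + n) * n ^ 2) + 1) ^ (n * n) * (6 ^ (N + n)) ^ N *
        (100 ^ (N * n) * (12 * ρ0 / s) ^ (α * n * N / (4 * b))) < 2 ^ (N * n) / 2 := by
  have hq0 : 0 < q := by linarith
  obtain ⟨δ, hδdef⟩ : ∃ δ : ℝ, δ = 1 / q - 1 / 2 := ⟨_, rfl⟩
  have hδ : 0 < δ := by
    rw [hδdef, sub_pos]
    exact one_div_lt_one_div_of_lt hq0 hq2
  have hδ1 : δ < 1 := by
    have : 1 / q < 1 := by rw [div_lt_one hq0]; exact hq1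
    rw [hδdef]; linarith
  have hexp : (1 / 2 - 1 / q : ℝ) = -δ := by rw [hδdef]; ring
  have hb' : (0 : ℝ) < b := by exact_mod_cast hb
  obtain ⟨C1, hC1a, hC1b⟩ : ∃ C1 : ℕ, 1 ≤ C1 ∧ 24 * (b : ℝ) / (δ * α) ≤ C1 :=
    ⟨max 1 ⌈24 * (b : ℝ) / (δ * α)⌉₊, le_max_left _ _,
      (Nat.le_ceil _).trans (by exact_mod_cast le_max_right _ _)⟩
  have hC1 : (1 : ℝ) ≤ C1 := by exact_mod_cast hC1a
  obtain ⟨κ, hκdef⟩ : ∃ κ : ℝ, κ = α * C1 / (4 * b) := ⟨_, rfl⟩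
  have hκ0 : 0 < κ := by rw [hκdef]; positivity
  have hκ : 6 ≤ δ * κ := by
    rw [div_le_iff₀ (by positivity)] at hC1b
    rw [hκdef, mul_div_assoc', le_div_iff₀ (by positivity)]
    nlinarith
  obtain ⟨R0, hR0⟩ : ∃ R0 : ℝ, R0 = 1 + (Cop * Real.sqrt C1 + 1) * K := ⟨_, rfl⟩
  have hR0p : 0 < R0 := by rw [hR0]; positivity
  obtain ⟨Y, hY⟩ : ∃ Y : ℝ, Y = 12 * R0 / s := ⟨_, rfl⟩
  have hYp : 0 < Y := by rw [hY]; positivity
  obtain ⟨X1, hX1⟩ : ∃ X1 : ℝ, X1 = 2 * K * (C1 + 1) + 1 := ⟨_, rfl⟩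
  have hX1p : 0 < X1 := by rw [hX1]; positivity
  obtain ⟨X, hX⟩ : ∃ X : ℝ, X = X1 * 6 ^ ((C1 + 1) * C1) * 100 ^ C1 * Y ^ κ := ⟨_, rfl⟩
  have hXp : 0 < X := by rw [hX]; positivity
  obtain ⟨n1, hn1, hn2, hn3, hn4⟩ : ∃ n1 : ℕ, 1 ≤ n1 ∧ 2 / s ≤ n1 ∧ 4 * X ≤ n1 ∧
      Y ^ (1 / δ) ≤ n1 := by
    obtain ⟨m, hm⟩ := exists_nat_ge (max (2 / s) (max (4 * X) (Y ^ (1 / δ))))
    have h1 : ((max 1 m : ℕ) : ℝ) ≥ m := by exact_mod_cast le_max_right 1 m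
    refine ⟨max 1 m, le_max_left _ _, ?_, ?_, ?_⟩
    · exact ((le_max_left _ _).trans hm).trans h1
    · exact (((le_max_left _ _).trans (le_max_right _ _)).trans hm).trans h1
    · exact (((le_max_right _ _).trans (le_max_right _ _)).trans hm).trans h1
  refine ⟨C1, n1, hC1a, hn1, ?_⟩
  intro n N hn hN ρ0 hρ
  have hnn1 : (n1 : ℝ) ≤ n := by exact_mod_cast hn
  have hnge : (1 : ℝ) ≤ n := by exact_mod_cast hn1.trans hn
  have hn0 : (0 : ℝ) < n := by linarith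
  have hNr : (N : ℝ) = C1 * n := by rw [hN]; push_cast; ring
  -- bound on ρ0
  have hsq : Real.sqrt N / Real.sqrt n = Real.sqrt C1 := by
    rw [hNr, Real.sqrt_mul (by positivity)]
    have : Real.sqrt n ≠ 0 := (Real.sqrt_pos.2 hn0).ne'
    field_simp
  have hpow1 : ((N : ℝ) + n) ^ (1 / 2 - 1 / q) ≤ (n : ℝ) ^ (-δ) := by
    rw [hexp]
    refine Real.rpow_le_rpow_of_nonpos hn0 ?_ (by linarith)
    have : (0 : ℝ) ≤ N := Nat.cast_nonneg _
    linarith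
  have hpow2 : 1 / (n : ℝ) ≤ (n : ℝ) ^ (-δ) := by
    rw [one_div, ← Real.rpow_neg_one]
    exact Real.rpow_le_rpow_of_exponent_le hnge (by linarith)
  have hρle : ρ0 ≤ R0 * (n : ℝ) ^ (-δ) := by
    have h5 : (Cop * Real.sqrt C1 + 1) * (K * ((N : ℝ) + n) ^ (1 / 2 - 1 / q)) ≤
        (Cop * Real.sqrt C1 + 1) * (K * (n : ℝ) ^ (-δ)) :=
      mul_le_mul_of_nonneg_left (mul_le_mul_of_nonneg_left hpow1 (by linarith)) (by positivity)
    have h6 : (1 + (Cop * Real.sqrt C1 + 1) * K) * (n : ℝ) ^ (-δ) =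
        (n : ℝ) ^ (-δ) + (Cop * Real.sqrt C1 + 1) * (K * (n : ℝ) ^ (-δ)) := by ring
    rw [hρ, mul_div_assoc, hsq, hR0, h6]
    exact add_le_add hpow2 h5
  have hρ0 : 0 < ρ0 := by
    rw [hρ]
    have h1 : 0 < 1 / (n : ℝ) := by positivity
    have h2 : 0 ≤ (Cop * Real.sqrt N / Real.sqrt n + 1) * (K * ((N : ℝ) + n) ^ (1 / 2 - 1 / q)) := by
      positivity
    linarith
  have hyle : 12 * ρ0 / s ≤ Y * (n : ℝ) ^ (-δ) := by
    rw [hY, div_mul_eq_mul_div]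
    refine div_le_div_of_nonneg_right ?_ hs.le
    rw [mul_assoc]
    linarith
  have hy0 : 0 < 12 * ρ0 / s := by positivity
  have hY1 : Y * (n : ℝ) ^ (-δ) ≤ 1 := by
    have h1 : Y ≤ (n : ℝ) ^ δ := by
      have h2 : (Y ^ (1 / δ)) ^ δ ≤ (n : ℝ) ^ δ :=
        Real.rpow_le_rpow (by positivity) (hn4.trans hnn1) hδ.le
      rwa [← Real.rpow_mul hYp.le, one_div, inv_mul_cancel₀ hδ.ne', Real.rpow_one] at h2
    rw [Real.rpow_neg hn0.le, ← div_eq_mul_inv, div_le_one (by positivity)]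
    exact h1
  refine ⟨?_, ?_, ?_⟩
  · rw [div_le_div_iff₀ hn0 (by norm_num)]
    have h1 : 2 / s ≤ n := hn2.trans hnn1
    rw [div_le_iff₀ hs] at h1
    linarith
  · have h1 : 12 * ρ0 / s ≤ 1 := hyle.trans hY1
    rwa [div_le_one hs] at h1
  · -- the main estimate
    have hf1 : (2 * (Real.sqrt n * K * (N + n) * n ^ 2) + 1) ^ (n * n) ≤
        (X1 * (n : ℝ) ^ 4) ^ (n * n) := by
      refine pow_le_pow_left₀ (by positivity) ?_ _
      have h1 : Real.sqrt n ≤ n := by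
        rw [Real.sqrt_le_left hn0.le]
        exact le_self_pow₀ hnge (by norm_num)
      have h2 : (1 : ℝ) ≤ (n : ℝ) ^ 4 := one_le_pow₀ hnge
      have h3 : Real.sqrt n * K * (N + n) * n ^ 2 ≤ n * K * (N + n) * n ^ 2 := by
        have h5 : 0 ≤ K * ((N : ℝ) + n) * (n : ℝ) ^ 2 := by positivity
        calc Real.sqrt n * K * (N + n) * n ^ 2 = Real.sqrt n * (K * ((N : ℝ) + n) * (n : ℝ) ^ 2) := by
              ring
          _ ≤ n * (K * ((N : ℝ) + n) * (n : ℝ) ^ 2) := mul_le_mul_of_nonneg_right h1 h5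
          _ = n * K * (N + n) * n ^ 2 := by ring
      have h4 : (n : ℝ) * K * (N + n) * n ^ 2 = K * (C1 + 1) * (n : ℝ) ^ 4 := by
        rw [hNr]; ring
      have h7 : (2 * K * (C1 + 1) + 1) * (n : ℝ) ^ 4 = 2 * (K * (C1 + 1) * (n : ℝ) ^ 4) + (n : ℝ) ^ 4 := by
        ring
      rw [hX1, h7]
      linarith [h3.trans_eq h4]
    have hf2 : ((6 : ℝ) ^ (N + n)) ^ N = (6 ^ ((C1 + 1) * C1)) ^ (n * n) := by
      rw [← pow_mul, ← pow_mul, hN]
      congr 1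
      ring
    have hf3 : (100 : ℝ) ^ (N * n) = (100 ^ C1) ^ (n * n) := by
      rw [← pow_mul, hN]
      congr 1
      ring
    have hf4 : (12 * ρ0 / s) ^ (α * n * N / (4 * b)) ≤ (Y ^ κ * ((n : ℝ) ^ 6)⁻¹) ^ (n * n) := by
      have he : α * n * N / (4 * b) = κ * ((n * n : ℕ) : ℝ) := by
        rw [hκdef, hNr]; push_cast; ring
      rw [he, Real.rpow_mul hy0.le, Real.rpow_natCast]
      refine pow_le_pow_left₀ (by positivity) ?_ _
      calc (12 * ρ0 / s) ^ κ ≤ (Y * (n : ℝ) ^ (-δ)) ^ κ := Real.rpow_le_rpow hy0.le hyle hκ0.le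
        _ = Y ^ κ * (n : ℝ) ^ (-(δ * κ)) := by
            rw [Real.mul_rpow hYp.le (by positivity), ← Real.rpow_mul hn0.le]
            congr 2
            ring
        _ ≤ Y ^ κ * ((n : ℝ) ^ 6)⁻¹ := by
            refine mul_le_mul_of_nonneg_left ?_ (by positivity)
            rw [← Real.rpow_natCast, ← Real.rpow_neg hn0.le]
            refine Real.rpow_le_rpow_of_exponent_le hnge ?_
            push_cast
            linarith
    have hX4 : X * ((n : ℝ) ^ 2)⁻¹ ≤ 1 / 4 := by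
      rw [← div_eq_mul_inv, div_le_div_iff₀ (by positivity) (by norm_num)]
      have h1 : 4 * X ≤ n := hn3.trans hnn1
      have h2 : (n : ℝ) ≤ (n : ℝ) ^ 2 := le_self_pow₀ hnge (by norm_num)
      linarith
    have hprod : (2 * (Real.sqrt n * K * (N + n) * n ^ 2) + 1) ^ (n * n) * (6 ^ (N + n)) ^ N *
        (100 ^ (N * n) * (12 * ρ0 / s) ^ (α * n * N / (4 * b))) ≤
        (X * ((n : ℝ) ^ 2)⁻¹) ^ (n * n) := by
      calc (2 * (Real.sqrt n * K * (N + n) * n ^ 2) + 1) ^ (n * n) * (6 ^ (N + n)) ^ N *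
          (100 ^ (N * n) * (12 * ρ0 / s) ^ (α * n * N / (4 * b)))
          ≤ (X1 * (n : ℝ) ^ 4) ^ (n * n) * (6 ^ (N + n)) ^ N *
          (100 ^ (N * n) * (Y ^ κ * ((n : ℝ) ^ 6)⁻¹) ^ (n * n)) := by
            refine mul_le_mul ?_ ?_ (by positivity) (by positivity)
            · exact mul_le_mul_of_nonneg_right hf1 (by positivity)
            · exact mul_le_mul_of_nonneg_left hf4 (by positivity)
        _ = (X * ((n : ℝ) ^ 2)⁻¹) ^ (n * n) := by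
            rw [hf2, hf3, ← mul_pow, ← mul_pow, ← mul_pow, hX]
            congr 1
            field_simp
    have hlast : (X * ((n : ℝ) ^ 2)⁻¹) ^ (n * n) ≤ 1 / 4 := by
      have h1 : (X * ((n : ℝ) ^ 2)⁻¹) ^ (n * n) ≤ (1 / 4 : ℝ) ^ (n * n) :=
        pow_le_pow_left₀ (by positivity) hX4 _
      have h2 : (1 / 4 : ℝ) ^ (n * n) ≤ (1 / 4) ^ 1 := by
        refine pow_le_pow_of_le_one (by norm_num) (by norm_num) ?_
        have : 1 ≤ n := hn1.trans hn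
        exact Nat.mul_pos this this
      linarith
    have h2 : (1 : ℝ) ≤ 2 ^ (N * n) := one_le_pow₀ (by norm_num)
    linarith [hprod.trans hlast]

end Pool.Agent.Helper802.JB.N_numeric
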