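import Mathlib
import Pool.Agent.Helper802.JS.Defs

set_option autoImplicit false
open Filter Topology MeasureTheory

open Pool.Agent.Helper802.JB 

namespace Pool.Agent.Helper802.JB.N_opnorm_volume


-- TARGET
theorem jsnet (m : ℕ) : ∃ s : Finset (EE m), s.card ≤ 5 ^ m ∧ (∀ c ∈ s, ‖c‖ ≤ 1) ∧
    ∀ x : EE m, ‖x‖ ≤ 1 → ∃ c ∈ s, ‖x - c‖ ≤ 1 / 2 := by
  classical
  set Pr : ℕ → Prop := fun k => ∃ s : Finset (EE m), s.card = k ∧ (∀ c ∈ s, ‖c‖ ≤ 2) ∧
    ∀ c ∈ s, ∀ d ∈ s, c ≠ d → 1 ≤ ‖c - d‖ with hPr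
  have hb : ∀ k, Pr k → k ≤ 5 ^ m := by
    rintro k ⟨s, hk, h1, h2⟩
    have h3 := Besicovitch.card_le_of_separated s h1 h2
    rw [finrank_euclideanSpace_fin] at h3
    omega
  have h0 : Pr 0 := ⟨∅, by simp, by simp, by simp⟩
  obtain ⟨S, hS, hS2, hSs⟩ : Pr (Nat.findGreatest Pr (5 ^ m)) :=
    Nat.findGreatest_spec (Nat.zero_le _) h0
  have hmax : ∀ k, Pr k → k ≤ Nat.findGreatest Pr (5 ^ m) := fun k hk =>
    Nat.le_findGreatest (hb k hk) hk
  refine ⟨S.image fun c => (1 / 2 : ℝ) • c, ?_, ?_, ?_⟩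
  · refine Finset.card_image_le.trans ?_
    have := hb S.card ⟨S, rfl, hS2, hSs⟩
    exact this
  · intro c hc
    obtain ⟨d, hd, rfl⟩ := Finset.mem_image.1 hc
    rw [norm_smul]
    have := hS2 d hd
    norm_num
    linarith
  · intro x hx
    by_contra hcon
    push Not at hcon
    have hfar : ∀ c ∈ S, 1 ≤ ‖(2 : ℝ) • x - c‖ := by
      intro c hc
      have h1 := hcon ((1 / 2 : ℝ) • c) (Finset.mem_image_of_mem _ hc)
      have h2 : (2 : ℝ) • x - c = (2 : ℝ) • (x - (1 / 2 : ℝ) • c) := by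
        rw [smul_sub, smul_smul]; norm_num
      rw [h2, norm_smul]
      norm_num
      linarith
    have hnot : (2 : ℝ) • x ∉ S := by
      intro h
      have := hfar _ h
      rw [sub_self, norm_zero] at this
      linarith
    have hP : Pr (S.card + 1) := by
      refine ⟨insert ((2 : ℝ) • x) S, Finset.card_insert_of_notMem hnot, ?_, ?_⟩
      · intro c hc
        rcases Finset.mem_insert.1 hc with rfl | hc
        · rw [norm_smul]; norm_num; linarith
        · exact hS2 c hc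
      · intro c hc d hd hcd
        rcases Finset.mem_insert.1 hc with rfl | hc
        · rcases Finset.mem_insert.1 hd with rfl | hd
          · exact absurd rfl hcd
          · exact hfar d hd
        · rcases Finset.mem_insert.1 hd with rfl | hd
          · rw [norm_sub_rev]; exact hfar c hc
          · exact hSs c hc d hd hcd
    have := hmax _ hP
    omega

theorem jsfunc (m : ℕ) (s : Finset (EE m)) (hs : ∀ x : EE m, ‖x‖ ≤ 1 → ∃ c ∈ s, ‖x - c‖ ≤ 1 / 2)
    (L : EE m →ₗ[ℝ] ℝ) (T : ℝ) (hT : ∀ c ∈ s, |L c| ≤ T) (x : EE m) : |L x| ≤ 2 * T * ‖x‖ := by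
  set L' : EE m →L[ℝ] ℝ := LinearMap.toContinuousLinearMap L with hL'
  have hLL : ∀ z, L' z = L z := fun z => rfl
  have hT0 : 0 ≤ T := by
    obtain ⟨c, hc, _⟩ := hs 0 (by simp)
    exact (abs_nonneg _).trans (hT c hc)
  have h1 : ‖L'‖ ≤ T + ‖L'‖ / 2 := by
    refine ContinuousLinearMap.opNorm_le_of_unit_norm (by positivity) fun z hz => ?_
    obtain ⟨c, hc, hzc⟩ := hs z hz.le
    have h2 : L' z = L' c + L' (z - c) := by rw [map_sub]; ring
    rw [h2]
    refine (norm_add_le _ _).trans (add_le_add ?_ ?_)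
    · rw [hLL, Real.norm_eq_abs]; exact hT c hc
    · refine (L'.le_opNorm _).trans ?_
      have := norm_nonneg L'
      nlinarith
  have h2 : ‖L'‖ ≤ 2 * T := by linarith
  have h3 := L'.le_opNorm x
  rw [hLL, Real.norm_eq_abs] at h3
  exact h3.trans (mul_le_mul_of_nonneg_right h2 (norm_nonneg _))

theorem jsexp1 (s : ℝ) : ∫ u in Set.Icc (-1 : ℝ) 1, Real.exp (s * u) ≤
    2 * Real.exp (s ^ 2 / 2) := by
  rw [integral_Icc_eq_integral_Ioc, ← intervalIntegral.integral_of_le (by norm_num)]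
  have hc : Continuous fun u : ℝ => Real.exp (s * u) := by fun_prop
  have hc' : Continuous fun u : ℝ => Real.exp (s * (-u)) := by fun_prop
  have h1 : ∫ u in (-1 : ℝ)..1, Real.exp (s * (-u)) = ∫ u in (-1 : ℝ)..1, Real.exp (s * u) := by
    have := intervalIntegral.integral_comp_neg (a := (-1 : ℝ)) (b := 1)
      (fun u => Real.exp (s * u))
    rw [neg_neg] at this
    exact this
  have h2 : ∫ u in (-1 : ℝ)..1, (Real.exp (s * u) + Real.exp (s * (-u))) =
      2 * ∫ u in (-1 : ℝ)..1, Real.exp (s * u) := by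
    rw [intervalIntegral.integral_add (hc.intervalIntegrable _ _) (hc'.intervalIntegrable _ _), h1]
    ring
  have h3 : ∫ u in (-1 : ℝ)..1, (Real.exp (s * u) + Real.exp (s * (-u))) ≤
      ∫ _ in (-1 : ℝ)..1, 2 * Real.exp (s ^ 2 / 2) := by
    refine intervalIntegral.integral_mono_on (by norm_num)
      ((hc.add hc').intervalIntegrable _ _) intervalIntegrable_const fun u hu => ?_
    have h4 : Real.exp (s * u) + Real.exp (s * (-u)) = 2 * Real.cosh (s * u) := by
      rw [Real.cosh_eq]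
      have : s * (-u) = -(s * u) := by ring
      rw [this]; ring
    rw [h4]
    have h5 : Real.cosh (s * u) ≤ Real.cosh s := by
      rw [Real.cosh_le_cosh, abs_mul]
      have : |u| ≤ 1 := abs_le.2 ⟨hu.1, hu.2⟩
      exact mul_le_of_le_one_right (abs_nonneg _) this
    have h6 := Real.cosh_le_exp_half_sq s
    linarith
  rw [h2, intervalIntegral.integral_const] at h3
  have : (1 - (-1 : ℝ)) • (2 * Real.exp (s ^ 2 / 2)) = 4 * Real.exp (s ^ 2 / 2) := by
    rw [smul_eq_mul]; ring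
  rw [this] at h3
  linarith

theorem jstail {ι : Type} [Fintype ι] (c : ι → ℝ) (hc : ∑ a, c a ^ 2 ≤ 1) (t : ℝ)
    (ht : 0 ≤ t) :
    (Measure.pi fun _ : ι => (volume : Measure ℝ).restrict (Set.Icc (-1 : ℝ) 1)).real
      {g | t ≤ ∑ a, c a * g a} ≤ 2 ^ (Fintype.card ι) * Real.exp (-(t ^ 2 / 2)) := by
  set ν : Measure (ι → ℝ) :=
    Measure.pi fun _ : ι => (volume : Measure ℝ).restrict (Set.Icc (-1 : ℝ) 1) with hν
  set F : (ι → ℝ) → ℝ := fun g => ∏ a, Real.exp (t * c a * g a) with hF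
  have hFe : ∀ g, F g = Real.exp (t * ∑ a, c a * g a) := by
    intro g
    simp only [hF]
    rw [← Real.exp_sum]
    congr 1
    rw [Finset.mul_sum]
    exact Finset.sum_congr rfl fun a _ => by ring
  have hFi : Integrable F ν := by
    refine Integrable.fintype_prod (f := fun a u => Real.exp (t * c a * u)) fun a => ?_
    exact Continuous.integrableOn_Icc (by fun_prop)
  have hint : ∫ g, F g ∂ν ≤ 2 ^ (Fintype.card ι) * Real.exp (t ^ 2 / 2) := by
    have h1 : ∫ g, F g ∂ν = ∏ a, ∫ u in Set.Icc (-1 : ℝ) 1, Real.exp (t * c a * u) :=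
      integral_fintype_prod_eq_prod (f := fun a u => Real.exp (t * c a * u))
    rw [h1]
    have h2 : ∏ a, ∫ u in Set.Icc (-1 : ℝ) 1, Real.exp (t * c a * u) ≤
        ∏ a : ι, (2 * Real.exp ((t * c a) ^ 2 / 2)) :=
      Finset.prod_le_prod (fun a _ => integral_nonneg fun u => (Real.exp_pos _).le)
        fun a _ => jsexp1 (t * c a)
    refine h2.trans ?_
    rw [Finset.prod_mul_distrib, Finset.prod_const, ← Real.exp_sum]
    refine mul_le_mul_of_nonneg_left ?_ (by positivity)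
    rw [Real.exp_le_exp]
    have h3 : ∑ a, (t * c a) ^ 2 / 2 = t ^ 2 / 2 * ∑ a, c a ^ 2 := by
      rw [Finset.mul_sum]
      exact Finset.sum_congr rfl fun a _ => by ring
    rw [h3]
    exact mul_le_of_le_one_right (by positivity) hc
  have h1 := mul_meas_ge_le_integral_of_nonneg (μ := ν) (f := F)
    (Filter.Eventually.of_forall fun g => by rw [hFe]; exact (Real.exp_pos _).le) hFi
    (Real.exp (t ^ 2))
  have h2 : ν.real {g | t ≤ ∑ a, c a * g a} ≤ ν.real {g | Real.exp (t ^ 2) ≤ F g} := by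
    refine measureReal_mono ?_ (measure_ne_top _ _)
    intro g hg
    have hg' : t ≤ ∑ a, c a * g a := hg
    show Real.exp (t ^ 2) ≤ F g
    rw [hFe, Real.exp_le_exp, sq]
    exact mul_le_mul_of_nonneg_left hg' ht
  have h3 : Real.exp (t ^ 2) * ν.real {g | t ≤ ∑ a, c a * g a} ≤
      2 ^ (Fintype.card ι) * Real.exp (t ^ 2 / 2) :=
    (mul_le_mul_of_nonneg_left h2 (Real.exp_pos _).le).trans (h1.trans hint)
  have h4 : Real.exp (-(t ^ 2 / 2)) = Real.exp (-(t ^ 2)) * Real.exp (t ^ 2 / 2) := by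
    rw [← Real.exp_add]; congr 1; ring
  have h5 : ν.real {g | t ≤ ∑ a, c a * g a} =
      Real.exp (-(t ^ 2)) * (Real.exp (t ^ 2) * ν.real {g | t ≤ ∑ a, c a * g a}) := by
    rw [← mul_assoc, ← Real.exp_add]; simp
  rw [h5, h4]
  calc Real.exp (-(t ^ 2)) * (Real.exp (t ^ 2) * ν.real {g | t ≤ ∑ a, c a * g a})
      ≤ Real.exp (-(t ^ 2)) * (2 ^ (Fintype.card ι) * Real.exp (t ^ 2 / 2)) :=
        mul_le_mul_of_nonneg_left h3 (Real.exp_pos _).le
    _ = _ := by ring


theorem jsbad {N n : ℕ} (x : EE N) (y : EE n) (hx : ‖x‖ ≤ 1) (hy : ‖y‖ ≤ 1) (t : ℝ) (ht : 0 ≤ t) :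
    (volume : Measure (Fin N × Fin n → ℝ)) ({g | t ≤ ∑ a : Fin N × Fin n, (x a.1 * y a.2) * g a} ∩
      Set.univ.pi fun _ => Set.Icc (-1 : ℝ) 1) ≤
      ENNReal.ofReal (2 ^ (N * n) * Real.exp (-(t ^ 2 / 2))) := by
  have hm : MeasurableSet {g : Fin N × Fin n → ℝ |
      t ≤ ∑ a : Fin N × Fin n, (x a.1 * y a.2) * g a} :=
    measurableSet_le measurable_const (by fun_prop)
  rw [← Measure.restrict_apply hm, volume_pi, Measure.restrict_pi_pi]
  have hsum : ∑ a : Fin N × Fin n, (x a.1 * y a.2) ^ 2 ≤ 1 := by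
    have h1 : ∑ a : Fin N × Fin n, (x a.1 * y a.2) ^ 2 = (∑ i, x i ^ 2) * ∑ k, y k ^ 2 := by
      rw [Fintype.sum_prod_type, Finset.sum_mul_sum]
      exact Finset.sum_congr rfl fun i _ => Finset.sum_congr rfl fun k _ => by ring
    have h2 : ∑ i, x i ^ 2 = ‖x‖ ^ 2 := by
      rw [EuclideanSpace.norm_sq_eq]
      exact Finset.sum_congr rfl fun i _ => by rw [Real.norm_eq_abs, sq_abs]
    have h3 : ∑ k, y k ^ 2 = ‖y‖ ^ 2 := by
      rw [EuclideanSpace.norm_sq_eq]
      exact Finset.sum_congr rfl fun i _ => by rw [Real.norm_eq_abs, sq_abs]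
    rw [h1, h2, h3]
    have h4 : ‖x‖ ^ 2 ≤ 1 := pow_le_one₀ (norm_nonneg _) hx
    have h5 : ‖y‖ ^ 2 ≤ 1 := pow_le_one₀ (norm_nonneg _) hy
    exact mul_le_one₀ h4 (by positivity) h5
  have h6 := jstail (fun a : Fin N × Fin n => x a.1 * y a.2) hsum t ht
  rw [Fintype.card_prod, Fintype.card_fin, Fintype.card_fin] at h6
  rw [← ENNReal.ofReal_toReal (measure_ne_top (Measure.pi fun _ : Fin N × Fin n =>
    (volume : Measure ℝ).restrict (Set.Icc (-1 : ℝ) 1)) _)]
  exact ENNReal.ofReal_le_ofReal h6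

theorem jsbil {N n : ℕ} (G : EuclideanSpace ℝ (Fin N × Fin n)) (x : EE N) (y : EE n) :
    ∑ i, x i * inner ℝ (row G i) y = ∑ a : Fin N × Fin n, (x a.1 * y a.2) * G a := by
  rw [Fintype.sum_prod_type]
  refine Finset.sum_congr rfl fun i _ => ?_
  have h1 : inner ℝ (row G i) y = ∑ k, y k * G (i, k) := by
    rw [PiLp.inner_apply]
    refine Finset.sum_congr rfl fun k _ => ?_
    simp [row]
  rw [h1, Finset.mul_sum]
  exact Finset.sum_congr rfl fun k _ => by ring

theorem jsnum (N n : ℕ) (hn : 1 ≤ n) (hN : n ≤ N) :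
    (5 : ℝ) ^ N * 5 ^ n * 2 * (2 ^ (N * n) * Real.exp (-((5 * Real.sqrt N) ^ 2 / 2))) ≤
      2 ^ (N * n) / 2 := by
  have h1 : (5 * Real.sqrt N) ^ 2 / 2 = 12.5 * (N : ℝ) := by
    rw [mul_pow, Real.sq_sqrt (Nat.cast_nonneg _)]; ring
  rw [h1]
  have h2 : (5 : ℝ) ^ n ≤ 5 ^ N := pow_le_pow_right₀ (by norm_num) hN
  have h3 : Real.exp (-(12.5 * (N : ℝ))) ≤ (1 / 100) ^ N := by
    have h4 : Real.exp (-(12.5 : ℝ)) ≤ 1 / 100 := by
      have h5 : (100 : ℝ) ≤ Real.exp 12.5 := by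
        have h6 : (2.7 : ℝ) ≤ Real.exp 1 := by
          have := Real.exp_one_gt_d9; linarith
        have h7 : Real.exp 5 = Real.exp 1 ^ 5 := by
          rw [← Real.exp_nat_mul]; norm_num
        have h8 : (2.7 : ℝ) ^ 5 ≤ Real.exp 1 ^ 5 := pow_le_pow_left₀ (by norm_num) h6 5
        have h9 : Real.exp 5 ≤ Real.exp 12.5 := Real.exp_le_exp.2 (by norm_num)
        have h10 : (100 : ℝ) ≤ 2.7 ^ 5 := by norm_num
        linarith
      rw [Real.exp_neg]
      rw [one_div]
      exact inv_anti₀ (by norm_num) h5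
    have h5 : -(12.5 * (N : ℝ)) = (N : ℝ) * (-(12.5 : ℝ)) := by ring
    rw [h5, Real.exp_nat_mul]
    exact pow_le_pow_left₀ (Real.exp_pos _).le h4 N
  have h4 : (5 : ℝ) ^ N * 5 ^ n * 2 * (2 ^ (N * n) * Real.exp (-(12.5 * (N : ℝ)))) ≤
      5 ^ N * 5 ^ N * 2 * (2 ^ (N * n) * (1 / 100) ^ N) := by
    gcongr
  refine h4.trans ?_
  have h5 : (5 : ℝ) ^ N * 5 ^ N * 2 * (2 ^ (N * n) * (1 / 100) ^ N) =
      2 ^ (N * n) * (2 * (1 / 4 : ℝ) ^ N) := by
    have : (5 : ℝ) ^ N * 5 ^ N * (1 / 100) ^ N = (1 / 4) ^ N := by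
      rw [← mul_pow, ← mul_pow]; norm_num
    rw [← this]; ring
  rw [h5]
  have h6 : (1 / 4 : ℝ) ^ N ≤ 1 / 4 := by
    calc (1 / 4 : ℝ) ^ N ≤ (1 / 4) ^ 1 :=
          pow_le_pow_of_le_one (by norm_num) (by norm_num) (by omega)
      _ = 1 / 4 := by norm_num
  have h7 : (0 : ℝ) < 2 ^ (N * n) := by positivity
  nlinarith

/-- A1 -/
theorem opnorm_volume : ∃ C : ℝ, 1 ≤ C ∧ ∀ n N : ℕ, 1 ≤ n → n ≤ N →
    ENNReal.ofReal (2 ^ (N * n) / 2) ≤ volume {G : EuclideanSpace ℝ (Fin N × Fin n) |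
      (∀ a, |G a| ≤ 1) ∧ ∀ (x : EE N) (y : EE n),
        |∑ i, x i * inner ℝ (row G i) y| ≤ C * Real.sqrt N * ‖x‖ * ‖y‖} := by
  classical
  refine ⟨20, by norm_num, fun n N hn hN => ?_⟩
  obtain ⟨sN, hsNc, hsN1, hsN2⟩ := jsnet N
  obtain ⟨sn, hsnc, hsn1, hsn2⟩ := jsnet n
  set t : ℝ := 5 * Real.sqrt N with htdef
  have ht : 0 ≤ t := by positivity
  set e := (EuclideanSpace.volume_preserving_symm_measurableEquiv_toLp (Fin N × Fin n)).symm
    with he
  set S : Set (EuclideanSpace ℝ (Fin N × Fin n)) := {G | (∀ a, |G a| ≤ 1) ∧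
    ∀ (x : EE N) (y : EE n),
        |∑ i, x i * inner ℝ (row G i) y| ≤ 20 * Real.sqrt N * ‖x‖ * ‖y‖} with hS
  have hpre := MeasurePreserving.measure_preimage_equiv e S
  rw [← hpre]
  set K : Set (Fin N × Fin n → ℝ) := Set.univ.pi fun _ => Set.Icc (-1 : ℝ) 1 with hK
  set Bd : EE N → EE n → Set (Fin N × Fin n → ℝ) := fun x y =>
    {g | t ≤ ∑ a : Fin N × Fin n, (x a.1 * y a.2) * g a} ∩ K with hBd
  have hcov : K ⊆ ((MeasurableEquiv.toLp 2 (Fin N × Fin n → ℝ)) ⁻¹' S) ∪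
      ⋃ p ∈ sN ×ˢ sn, (Bd p.1 p.2 ∪ Bd (-p.1) p.2) := by
    intro g hg
    by_cases hgood : ∀ p ∈ sN ×ˢ sn, g ∉ Bd p.1 p.2 ∪ Bd (-p.1) p.2
    · left
      show (MeasurableEquiv.toLp 2 (Fin N × Fin n → ℝ)) g ∈ S
      set G : EuclideanSpace ℝ (Fin N × Fin n) := WithLp.toLp 2 g with hG
      have hGg : ∀ a, G a = g a := fun a => rfl
      show G ∈ S
      refine ⟨fun a => ?_, ?_⟩
      · rw [hGg]
        have := hg a (Set.mem_univ a)
        exact abs_le.2 ⟨this.1, this.2⟩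
      have h0 : ∀ x ∈ sN, ∀ y ∈ sn, |∑ i, x i * inner ℝ (row G i) y| ≤ t := by
        intro x hx y hy
        have h1 := hgood (x, y) (Finset.mk_mem_product hx hy)
        rw [Set.mem_union, not_or] at h1
        obtain ⟨h1, h2⟩ := h1
        have h3 : ∑ a : Fin N × Fin n, (x a.1 * y a.2) * g a < t := by
          by_contra h
          exact h1 ⟨not_lt.1 h, hg⟩
        have h4 : ∑ a : Fin N × Fin n, ((-x) a.1 * y a.2) * g a < t := by
          by_contra h
          exact h2 ⟨not_lt.1 h, hg⟩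
        have h5 : ∑ a : Fin N × Fin n, ((-x) a.1 * y a.2) * g a =
            -∑ a : Fin N × Fin n, (x a.1 * y a.2) * g a := by
          rw [← Finset.sum_neg_distrib]
          refine Finset.sum_congr rfl fun a _ => ?_
          rw [PiLp.neg_apply]; ring
        rw [h5] at h4
        rw [jsbil]
        exact abs_le.2 ⟨by show -t ≤ _; exact (by linarith : -t ≤ ∑ a : Fin N × Fin n, (x a.1 * y a.2) * g a), h3.le⟩
      -- extend in x
      have h1 : ∀ (x : EE N), ∀ y ∈ sn, |∑ i, x i * inner ℝ (row G i) y| ≤ 2 * t * ‖x‖ := by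
        intro x y hy
        let L : EE N →ₗ[ℝ] ℝ :=
          { toFun := fun x => ∑ i, x i * inner ℝ (row G i) y
            map_add' := fun a b => by
              rw [← Finset.sum_add_distrib]
              refine Finset.sum_congr rfl fun i _ => ?_
              rw [PiLp.add_apply]; ring
            map_smul' := fun r a => by
              rw [RingHom.id_apply, smul_eq_mul, Finset.mul_sum]
              refine Finset.sum_congr rfl fun i _ => ?_
              rw [PiLp.smul_apply, smul_eq_mul]; ring }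
        exact jsfunc N sN hsN2 L t (fun c hc => h0 c hc y hy) x
      intro x y
      let L : EE n →ₗ[ℝ] ℝ :=
        { toFun := fun y => ∑ i, x i * inner ℝ (row G i) y
          map_add' := fun a b => by
            rw [← Finset.sum_add_distrib]
            refine Finset.sum_congr rfl fun i _ => ?_
            rw [inner_add_right]; ring
          map_smul' := fun r a => by
            rw [RingHom.id_apply, smul_eq_mul, Finset.mul_sum]
            refine Finset.sum_congr rfl fun i _ => ?_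
            rw [inner_smul_right]; ring }
      have h2 := jsfunc n sn hsn2 L (2 * t * ‖x‖) (fun c hc => h1 x c hc) y
      have h3 : 2 * (2 * t * ‖x‖) * ‖y‖ = 20 * Real.sqrt N * ‖x‖ * ‖y‖ := by
        rw [htdef]; ring
      rw [h3] at h2
      exact h2
    · right
      push Not at hgood
      obtain ⟨p, hp, hgp⟩ := hgood
      exact Set.mem_biUnion hp hgp
  have hvK : volume K = ENNReal.ofReal (2 ^ (N * n)) := by
    rw [hK, volume_pi_pi]
    simp only [Real.volume_Icc]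
    rw [Finset.prod_const, Finset.card_univ, Fintype.card_prod, Fintype.card_fin,
      Fintype.card_fin, ← ENNReal.ofReal_pow (by norm_num)]
    norm_num
  set q : ℝ := 2 ^ (N * n) * Real.exp (-(t ^ 2 / 2)) with hq
  have hq0 : 0 ≤ q := by positivity
  have hB : ∀ p ∈ sN ×ˢ sn, volume (Bd p.1 p.2 ∪ Bd (-p.1) p.2) ≤ ENNReal.ofReal (2 * q) := by
    intro p hp
    obtain ⟨hp1, hp2⟩ := Finset.mem_product.1 hp
    refine (measure_union_le _ _).trans ?_
    have h1 := jsbad p.1 p.2 (hsN1 _ hp1) (hsn1 _ hp2) t ht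
    have h2 := jsbad (-p.1) p.2 (by rw [norm_neg]; exact hsN1 _ hp1) (hsn1 _ hp2) t ht
    have h3 : ENNReal.ofReal (2 * q) = ENNReal.ofReal q + ENNReal.ofReal q := by
      rw [← ENNReal.ofReal_add hq0 hq0]; congr 1; ring
    rw [h3]
    exact add_le_add h1 h2
  have hU : volume (⋃ p ∈ sN ×ˢ sn, (Bd p.1 p.2 ∪ Bd (-p.1) p.2)) ≤
      ENNReal.ofReal (2 ^ (N * n) / 2) := by
    refine (measure_biUnion_finset_le _ _).trans ?_
    refine (Finset.sum_le_sum hB).trans ?_
    rw [Finset.sum_const, Finset.card_product, nsmul_eq_mul, ← ENNReal.ofReal_natCast,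
      ← ENNReal.ofReal_mul (Nat.cast_nonneg _)]
    refine ENNReal.ofReal_le_ofReal ?_
    refine le_trans ?_ (jsnum N n hn hN)
    rw [← htdef, ← hq]
    have h1 : ((sN.card * sn.card : ℕ) : ℝ) ≤ 5 ^ N * 5 ^ n := by
      push_cast
      exact mul_le_mul (by exact_mod_cast hsNc) (by exact_mod_cast hsnc) (Nat.cast_nonneg _)
        (by positivity)
    calc ((sN.card * sn.card : ℕ) : ℝ) * (2 * q) ≤ (5 ^ N * 5 ^ n) * (2 * q) :=
          mul_le_mul_of_nonneg_right h1 (by positivity)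
      _ = 5 ^ N * 5 ^ n * 2 * q := by ring
  have hfin := (measure_mono hcov).trans (measure_union_le (μ := volume) _ _)
  rw [hvK] at hfin
  have h1 : ENNReal.ofReal (2 ^ (N * n)) =
      ENNReal.ofReal (2 ^ (N * n) / 2) + ENNReal.ofReal (2 ^ (N * n) / 2) := by
    rw [← ENNReal.ofReal_add (by positivity) (by positivity)]
    congr 1; ring
  rw [h1] at hfin
  have h2 := hfin.trans (add_le_add (le_refl _) hU)
  exact (ENNReal.add_le_add_iff_right ENNReal.ofReal_ne_top).1 h2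

end Pool.Agent.Helper802.JB.N_opnorm_volume
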