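import Mathlib
import Pool.Agent.Helper802.JS.Defs

set_option autoImplicit false
open Filter Topology MeasureTheory

open Pool.Agent.Helper802.JB 

namespace Pool.Agent.Helper802.JB.N_ball_volume

-- TARGET
/-- A7 -/
theorem ball_volume {ι : Type} [Fintype ι] :
    volume (Metric.closedBall (0 : EuclideanSpace ℝ ι) (2 * Real.sqrt (Fintype.card ι))) ≤
      ENNReal.ofReal (100 ^ Fintype.card ι) := by
  set D := Fintype.card ι with hD
  have hint : ∫ v : EuclideanSpace ℝ ι, Real.exp (-1 * ‖v‖ ^ 2) = (Real.pi / 1) ^ (Module.finrank ℝ (EuclideanSpace ℝ ι) / 2 : ℝ) :=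
    GaussianFourier.integral_rexp_neg_mul_sq_norm one_pos
  rw [finrank_euclideanSpace, ← hD, div_one] at hint
  have hpos : (0:ℝ) < Real.pi ^ ((D:ℝ) / 2) := Real.rpow_pos_of_pos Real.pi_pos _
  have hI : Integrable (fun v : EuclideanSpace ℝ ι => Real.exp (-1 * ‖v‖ ^ 2)) := by
    by_contra h
    rw [integral_undef h] at hint
    exact hpos.ne hint
  have hl : ∫⁻ v : EuclideanSpace ℝ ι, ENNReal.ofReal (Real.exp (-1 * ‖v‖ ^ 2)) = ENNReal.ofReal (Real.pi ^ ((D:ℝ) / 2)) := by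
    rw [← ofReal_integral_eq_lintegral_ofReal hI (Filter.Eventually.of_forall fun _ => (Real.exp_pos _).le), hint]
  have hm : ENNReal.ofReal (Real.exp (-(4 * D))) * volume (Metric.closedBall (0 : EuclideanSpace ℝ ι) (2 * Real.sqrt D)) ≤
      ENNReal.ofReal (Real.pi ^ ((D:ℝ) / 2)) := by
    rw [← hl]
    refine le_trans ?_ (mul_meas_ge_le_lintegral (by fun_prop : Measurable fun v : EuclideanSpace ℝ ι => ENNReal.ofReal (Real.exp (-1 * ‖v‖ ^ 2))) (ENNReal.ofReal (Real.exp (-(4 * D)))))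
    gcongr
    intro v hv
    rw [Metric.mem_closedBall, dist_zero_right] at hv
    show ENNReal.ofReal (Real.exp (-(4 * D))) ≤ ENNReal.ofReal (Real.exp (-1 * ‖v‖ ^ 2))
    apply ENNReal.ofReal_le_ofReal
    apply Real.exp_le_exp.2
    have h1 : ‖v‖ ^ 2 ≤ (2 * Real.sqrt D) ^ 2 := pow_le_pow_left₀ (norm_nonneg _) hv 2
    rw [mul_pow, Real.sq_sqrt (by positivity)] at h1
    linarith
  have hexp : ENNReal.ofReal (Real.exp (4 * D)) * ENNReal.ofReal (Real.exp (-(4 * D))) = 1 := by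
    rw [← ENNReal.ofReal_mul (Real.exp_pos _).le, ← Real.exp_add]
    simp
  calc volume (Metric.closedBall (0 : EuclideanSpace ℝ ι) (2 * Real.sqrt D)) =
      ENNReal.ofReal (Real.exp (4 * D)) * (ENNReal.ofReal (Real.exp (-(4 * D))) * volume (Metric.closedBall (0 : EuclideanSpace ℝ ι) (2 * Real.sqrt D))) := by
        rw [← mul_assoc, hexp, one_mul]
    _ ≤ ENNReal.ofReal (Real.exp (4 * D)) * ENNReal.ofReal (Real.pi ^ ((D:ℝ) / 2)) := by gcongr
    _ = ENNReal.ofReal (Real.exp (4 * D) * Real.pi ^ ((D:ℝ) / 2)) := by rw [ENNReal.ofReal_mul (Real.exp_pos _).le]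
    _ ≤ ENNReal.ofReal (100 ^ D) := by
      apply ENNReal.ofReal_le_ofReal
      have e1 : Real.exp (4 * D) = (Real.exp 1 ^ 4) ^ D := by
        rw [← pow_mul, ← Real.exp_nat_mul]; push_cast; ring_nf
      have e2 : Real.pi ^ ((D:ℝ) / 2) = (Real.sqrt Real.pi) ^ D := by
        rw [Real.sqrt_eq_rpow, ← Real.rpow_natCast, ← Real.rpow_mul Real.pi_pos.le]
        congr 1; ring
      rw [e1, e2, ← mul_pow]
      apply pow_le_pow_left₀ (by positivity)
      have h1 : Real.exp 1 ^ 4 ≤ 55 := by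
        have h2 : Real.exp 1 ≤ 2.7182818286 := Real.exp_one_lt_d9.le
        calc Real.exp 1 ^ 4 ≤ 2.7182818286 ^ 4 := pow_le_pow_left₀ (Real.exp_pos _).le h2 4
          _ ≤ 55 := by norm_num
      have h3 : Real.sqrt Real.pi ≤ 1.8 := by
        rw [Real.sqrt_le_left (by norm_num)]
        have := Real.pi_lt_d2
        norm_num at this ⊢
        linarith
      calc Real.exp 1 ^ 4 * Real.sqrt Real.pi ≤ 55 * 1.8 := by gcongr
        _ ≤ 100 := by norm_num

end Pool.Agent.Helper802.JB.N_ball_volume
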