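import Mathlib
import Pool.Agent.Helper802.JS.Defs

set_option autoImplicit false
open Filter Topology MeasureTheory

open Pool.Agent.Helper802.JB 

namespace Pool.Agent.Helper802.JB.N_select_class


theorem cnt_8537 {N b : ℕ} (i j : Fin N) (hij : i ≠ j) :
    Fintype.card {χ : Fin N → Fin b // χ i = χ j} * b = b ^ N := by
  have e : ({χ : Fin N → Fin b // χ i = χ j} × Fin b) ≃ (Fin N → Fin b) :=
    { toFun := fun p => Function.update p.1.1 i p.2
      invFun := fun ψ => (⟨Function.update ψ i (ψ j), by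
        rw [Function.update_self, Function.update_of_ne hij.symm]⟩, ψ i)
      left_inv := by
        rintro ⟨⟨χ, hχ⟩, c⟩
        simp only [Function.update_self, Function.update_idem, Prod.mk.injEq, Subtype.mk.injEq,
          and_true]
        rw [Function.update_of_ne hij.symm, ← hχ, Function.update_eq_self]
      right_inv := by
        intro ψ
        simp }
  have := Fintype.card_congr e
  rw [Fintype.card_prod, Fintype.card_fin] at this
  rw [this]
  simp

theorem avg_8537 {N : ℕ} (A : Fin N → Fin N → ℝ) (K : ℝ) (b : ℕ) (hb : 0 < b)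
    (hA : ∀ i, ∑ j, A i j ^ 2 ≤ K ^ 2) :
    ∃ χ : Fin N → Fin b, (b:ℝ) * ∑ i, ∑ j ∈ Finset.univ.erase i,
      (if χ i = χ j then A i j ^ 2 else 0) ≤ K ^ 2 * N := by
  haveI : Nonempty (Fin b) := ⟨⟨0, hb⟩⟩
  have hsum : ∑ χ : Fin N → Fin b, (b:ℝ) * ∑ i, ∑ j ∈ Finset.univ.erase i,
      (if χ i = χ j then A i j ^ 2 else 0) ≤ ∑ χ : Fin N → Fin b, K ^ 2 * N := by
    have h1 : ∑ χ : Fin N → Fin b, (b:ℝ) * ∑ i, ∑ j ∈ Finset.univ.erase i,
      (if χ i = χ j then A i j ^ 2 else 0) =
        ∑ i, ∑ j ∈ Finset.univ.erase i, A i j ^ 2 * (b:ℝ) ^ N := by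
      rw [← Finset.mul_sum, Finset.sum_comm, Finset.mul_sum]
      refine Finset.sum_congr rfl fun i _ => ?_
      rw [Finset.sum_comm, Finset.mul_sum]
      refine Finset.sum_congr rfl fun j hj => ?_
      have hij : i ≠ j := (Finset.ne_of_mem_erase hj).symm
      rw [← Finset.sum_filter, Finset.sum_const, nsmul_eq_mul, ← Fintype.card_subtype]
      have h2 := cnt_8537 (b := b) i j hij
      have h3 : (Fintype.card {χ : Fin N → Fin b // χ i = χ j} : ℝ) * b = (b:ℝ) ^ N := by
        exact_mod_cast h2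
      rw [← h3]
      ring
    rw [h1]
    have h4 : ∀ i, ∑ j ∈ Finset.univ.erase i, A i j ^ 2 * (b:ℝ) ^ N ≤ K ^ 2 * (b:ℝ) ^ N := by
      intro i
      rw [← Finset.sum_mul]
      refine mul_le_mul_of_nonneg_right ?_ (by positivity)
      refine le_trans (Finset.sum_le_sum_of_subset_of_nonneg (Finset.erase_subset _ _) ?_) (hA i)
      intro _ _ _
      positivity
    refine (Finset.sum_le_sum fun i _ => h4 i).trans ?_
    rw [Finset.sum_const, Finset.sum_const]
    simp only [Finset.card_univ, Fintype.card_fin, nsmul_eq_mul, Fintype.card_pi, Finset.prod_const]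
    push_cast
    apply le_of_eq
    ring
  obtain ⟨χ, -, hχ⟩ := Finset.exists_le_of_sum_le Finset.univ_nonempty hsum
  exact ⟨χ, hχ⟩

theorem split_8537 {N b : ℕ} (A : Fin N → Fin N → ℝ) (χ : Fin N → Fin b) :
    ∑ i, ∑ j ∈ Finset.univ.erase i, (if χ i = χ j then A i j ^ 2 else 0) =
    ∑ c : Fin b, ∑ i ∈ Finset.univ.filter (fun i => χ i = c),
      ∑ j ∈ (Finset.univ.filter (fun i => χ i = c)).erase i, A i j ^ 2 := by
  rw [← Finset.sum_fiberwise (s := Finset.univ) (g := χ)]
  refine Finset.sum_congr rfl fun c _ => ?_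
  refine Finset.sum_congr rfl fun i hi => ?_
  rw [← Finset.sum_filter]
  refine Finset.sum_congr ?_ fun _ _ => rfl
  have hi' : χ i = c := (Finset.mem_filter.1 hi).2
  ext j
  simp only [Finset.mem_filter, Finset.mem_erase, Finset.mem_univ, and_true, true_and]
  rw [hi']
  constructor
  · rintro ⟨h1, h2⟩; exact ⟨h1, h2.symm⟩
  · rintro ⟨h1, h2⟩; exact ⟨h1, h2.symm⟩

-- TARGET
/-- A3: selecting a class with small off-diagonal part -/
theorem select_class {N : ℕ} (hN : 0 < N) (A : Fin N → Fin N → ℝ) (K : ℝ) (b : ℕ) (hb : 0 < b)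
    (hA : ∀ i, ∑ j, A i j ^ 2 ≤ K ^ 2) :
    ∃ I : Finset (Fin N), N ≤ 2 * b * I.card ∧
      (b : ℝ) * ∑ i ∈ I, ∑ j ∈ I.erase i, A i j ^ 2 ≤ 2 * K ^ 2 * I.card := by
  classical
  haveI : Nonempty (Fin b) := ⟨⟨0, hb⟩⟩
  by_contra hno
  push Not at hno
  obtain ⟨χ, hχ⟩ := avg_8537 A K b hb hA
  rw [split_8537, Finset.mul_sum] at hχ
  have hbR : (0:ℝ) < b := by exact_mod_cast hb
  have hcard : ∑ c : Fin b, (((Finset.univ.filter (fun i => χ i = c)).card : ℕ) : ℝ) = N := by
    have := Finset.card_eq_sum_card_fiberwise (s := (Finset.univ : Finset (Fin N)))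
      (t := (Finset.univ : Finset (Fin b))) (f := χ) (fun _ _ => Finset.mem_coe.2 (Finset.mem_univ _))
    rw [Finset.card_univ, Fintype.card_fin] at this
    exact_mod_cast this.symm
  -- a big class
  obtain ⟨c0, -, hc0⟩ := Finset.exists_le_of_sum_le (s := (Finset.univ : Finset (Fin b)))
    (f := fun _ => (N:ℝ) / b) (g := fun c => (((Finset.univ.filter (fun i => χ i = c)).card : ℕ) : ℝ))
    Finset.univ_nonempty (by
      rw [hcard, Finset.sum_const, Finset.card_univ, Fintype.card_fin, nsmul_eq_mul]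
      apply le_of_eq
      field_simp)
  have hK : 0 ≤ K ^ 2 := sq_nonneg K
  have hNb : 0 ≤ K ^ 2 * ((N:ℝ) / b) := by positivity
  have hT0 : ∀ c : Fin b, 0 ≤ (b:ℝ) * ∑ i ∈ Finset.univ.filter (fun i => χ i = c),
      ∑ j ∈ (Finset.univ.filter (fun i => χ i = c)).erase i, A i j ^ 2 := by
    intro c
    refine mul_nonneg hbR.le ?_
    exact Finset.sum_nonneg fun i _ => Finset.sum_nonneg fun j _ => sq_nonneg _
  have hbig : ∀ c : Fin b, N ≤ 2 * b * (Finset.univ.filter (fun i => χ i = c)).card →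
      K ^ 2 * (2 * (((Finset.univ.filter (fun i => χ i = c)).card : ℕ) : ℝ) - (N:ℝ) / b) <
      (b:ℝ) * ∑ i ∈ Finset.univ.filter (fun i => χ i = c),
      ∑ j ∈ (Finset.univ.filter (fun i => χ i = c)).erase i, A i j ^ 2 := by
    intro c hc
    have := hno _ hc
    nlinarith
  have hlt : ∑ c : Fin b, K ^ 2 * (2 * (((Finset.univ.filter (fun i => χ i = c)).card : ℕ) : ℝ) - (N:ℝ) / b) <
      ∑ c : Fin b, (b:ℝ) * ∑ i ∈ Finset.univ.filter (fun i => χ i = c),
      ∑ j ∈ (Finset.univ.filter (fun i => χ i = c)).erase i, A i j ^ 2 := by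
    refine Finset.sum_lt_sum ?_ ⟨c0, Finset.mem_univ _, ?_⟩
    · intro c _
      by_cases hc : N ≤ 2 * b * (Finset.univ.filter (fun i => χ i = c)).card
      · exact (hbig c hc).le
      · refine le_trans ?_ (hT0 c)
        push Not at hc
        have hc' : 2 * (b:ℝ) * (((Finset.univ.filter (fun i => χ i = c)).card : ℕ) : ℝ) < N := by
          exact_mod_cast hc
        have : 2 * (((Finset.univ.filter (fun i => χ i = c)).card : ℕ) : ℝ) ≤ (N:ℝ) / b := by
          rw [le_div_iff₀ hbR]; linarith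
        exact mul_nonpos_of_nonneg_of_nonpos hK (by linarith)
    · refine hbig c0 ?_
      rw [div_le_iff₀ hbR] at hc0
      have : (N:ℝ) ≤ 2 * (b:ℝ) * (((Finset.univ.filter (fun i => χ i = c0)).card : ℕ) : ℝ) := by
        have h0 : 0 ≤ (((Finset.univ.filter (fun i => χ i = c0)).card : ℕ) : ℝ) * b := by positivity
        linarith
      exact_mod_cast this
  rw [← Finset.mul_sum, Finset.sum_sub_distrib, ← Finset.mul_sum, hcard, Finset.sum_const,
    Finset.card_univ, Fintype.card_fin, nsmul_eq_mul] at hlt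
  have e : (b:ℝ) * ((N:ℝ) / b) = N := by field_simp
  rw [e] at hlt
  have e2 : K ^ 2 * (2 * (N:ℝ) - N) = K ^ 2 * N := by ring
  rw [e2] at hlt
  exact absurd (lt_of_lt_of_le hlt hχ) (lt_irrefl _)

end Pool.Agent.Helper802.JB.N_select_class
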