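import Mathlib
import Pool.Agent.Helper802.JS.Defs

set_option autoImplicit false
open Filter Topology MeasureTheory

open Pool.Agent.Helper802.JB 

namespace Pool.Agent.Helper802.JB.N_small_ball

theorem sb_packing {W : Type} [NormedAddCommGroup W] [InnerProductSpace ℝ W]
    [FiniteDimensional ℝ W] (R h : ℝ) (hR : 0 < R) (hh : 0 < h) :
    ∃ P : Finset W, (∀ p ∈ P, ‖p‖ ≤ R) ∧ (∀ p ∈ P, ∀ q ∈ P, p ≠ q → h < dist p q) ∧
      (R / h) ^ (Module.finrank ℝ W) ≤ (P.card : ℝ) := by
  classical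
  letI : MeasurableSpace W := borel W
  haveI : BorelSpace W := ⟨rfl⟩
  obtain ⟨ε, hε⟩ : ∃ ε : NNReal, (ε : ℝ) = h / 2 := ⟨⟨h / 2, by positivity⟩, rfl⟩
  have hε0 : ε ≠ 0 := by
    intro h0
    rw [h0, NNReal.coe_zero] at hε
    linarith
  have h2ε : ((2 * ε : NNReal) : ℝ) = h := by
    push_cast
    rw [hε]
    ring
  obtain ⟨N, hNs, hNf, hN⟩ := Metric.exists_finite_isCover_of_isCompact hε0
    (isCompact_closedBall (0 : W) R)
  have hpack : Metric.packingNumber (2 * ε) (Metric.closedBall (0 : W) R) ≠ ⊤ := by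
    have h1 := (Metric.packingNumber_two_mul_le_externalCoveringNumber ε
      (Metric.closedBall (0 : W) R)).trans hN.externalCoveringNumber_le_encard
    exact ne_top_of_le_ne_top (Set.encard_ne_top_iff.2 hNf) h1
  have hSf : (Metric.maximalSeparatedSet (2 * ε) (Metric.closedBall (0 : W) R)).Finite := by
    apply Set.encard_ne_top_iff.1
    rw [Metric.encard_maximalSeparatedSet hpack]
    exact hpack
  refine ⟨hSf.toFinset, ?_, ?_, ?_⟩
  · intro p hp
    rw [Set.Finite.mem_toFinset] at hp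
    have := Metric.maximalSeparatedSet_subset hp
    rwa [mem_closedBall_zero_iff] at this
  · intro p hp q hq hpq
    rw [Set.Finite.mem_toFinset] at hp hq
    have h1 := Metric.isSeparated_maximalSeparatedSet hp hq hpq
    rw [← h2ε, dist_edist]
    rw [← ENNReal.coe_toReal]
    exact (ENNReal.toReal_lt_toReal ENNReal.coe_ne_top (edist_ne_top p q)).2 h1
  · have hcov := (Metric.isCover_maximalSeparatedSet hpack).subset_iUnion_closedBall
    rw [h2ε] at hcov
    have hm1 : volume (Metric.closedBall (0 : W) R) ≤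
        ∑ p ∈ hSf.toFinset, volume (Metric.closedBall p h) := by
      refine (measure_mono hcov).trans ?_
      refine le_trans (measure_mono ?_) (measure_biUnion_finset_le _ _)
      intro x hx
      simp only [Set.mem_iUnion, exists_prop, Set.Finite.mem_toFinset] at hx ⊢
      exact hx
    rw [Measure.addHaar_closedBall _ _ hR.le] at hm1
    have hm2 : ∀ p ∈ hSf.toFinset, volume (Metric.closedBall p h) =
        ENNReal.ofReal (h ^ Module.finrank ℝ W) * volume (Metric.ball (0 : W) 1) :=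
      fun p _ => Measure.addHaar_closedBall _ _ hh.le
    rw [Finset.sum_congr rfl hm2, Finset.sum_const, nsmul_eq_mul, ← mul_assoc] at hm1
    have hb0 : volume (Metric.ball (0 : W) 1) ≠ 0 := (Metric.measure_ball_pos _ _ one_pos).ne'
    have hbt : volume (Metric.ball (0 : W) 1) ≠ ⊤ := measure_ball_lt_top.ne
    rw [ENNReal.mul_le_mul_iff_left hb0 hbt] at hm1
    have hcast : ((hSf.toFinset.card : ℕ) : ENNReal) = ENNReal.ofReal (hSf.toFinset.card : ℝ) := by
      rw [ENNReal.ofReal_natCast]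
    rw [hcast, ← ENNReal.ofReal_mul (by positivity),
      ENNReal.ofReal_le_ofReal_iff (by positivity)] at hm1
    rw [div_pow, div_le_iff₀ (by positivity)]
    exact hm1

-- TARGET
/-- A6 -/
theorem small_ball {ι : Type} [Fintype ι] {F : Type} [NormedAddCommGroup F] [NormedSpace ℝ F]
    (Λ : EuclideanSpace ℝ ι →ₗ[ℝ] F) (V : Submodule ℝ (EuclideanSpace ℝ ι)) (c ρ R : ℝ)
    (hc : 0 < c) (hρ : 0 < ρ) (hR : 0 < R) (hV : ∀ v ∈ V, c * ‖v‖ ≤ ‖Λ v‖) (y : F) :
    volume {x : EuclideanSpace ℝ ι | ‖x‖ ≤ R ∧ ‖Λ x - y‖ ≤ ρ} *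
        ENNReal.ofReal ((R / (3 * ρ / c)) ^ Module.finrank ℝ V) ≤
      volume (Metric.closedBall (0 : EuclideanSpace ℝ ι) (2 * R)) := by
  classical
  obtain ⟨P, hP1, hP2, hP3⟩ := sb_packing (W := V) R (3 * ρ / c) hR (by positivity)
  obtain ⟨B, hB⟩ : ∃ B : Set (EuclideanSpace ℝ ι), B =
      {x : EuclideanSpace ℝ ι | ‖x‖ ≤ R ∧ ‖Λ x - y‖ ≤ ρ} := ⟨_, rfl⟩
  have hBmem : ∀ x, x ∈ B ↔ ‖x‖ ≤ R ∧ ‖Λ x - y‖ ≤ ρ := by
    intro x
    rw [hB]
    exact Iff.rfl
  rw [← hB]
  have hΛ : Continuous Λ := Λ.continuous_of_finiteDimensional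
  have hBc : IsClosed B := by
    have e : B = {x | ‖x‖ ≤ R} ∩ {x | ‖Λ x - y‖ ≤ ρ} := by
      ext x
      rw [hBmem]
      exact Iff.rfl
    rw [e]
    exact (isClosed_le continuous_norm continuous_const).inter
      (isClosed_le (hΛ.sub continuous_const).norm continuous_const)
  obtain ⟨T, hT⟩ : ∃ T : V → Set (EuclideanSpace ℝ ι), ∀ p, T p =
      (fun x => x + (-(p : EuclideanSpace ℝ ι))) ⁻¹' B := ⟨_, fun p => rfl⟩
  have hTmem : ∀ p x, x ∈ T p ↔ x + (-(p : EuclideanSpace ℝ ι)) ∈ B := by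
    intro p x
    rw [hT]
    exact Iff.rfl
  have hTvol : ∀ p, volume (T p) = volume B := by
    intro p
    rw [hT]
    exact measure_preimage_add_right _ _ _
  have hTmeas : ∀ p, MeasurableSet (T p) := by
    intro p
    rw [hT]
    exact (hBc.preimage (continuous_id.add continuous_const)).measurableSet
  have hdisj : Set.PairwiseDisjoint (P : Set V) T := by
    intro p hp q hq hpq
    rw [Function.onFun, Set.disjoint_left]
    intro x hxp hxq
    rw [hTmem, hBmem] at hxp hxq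
    have h1 := hP2 p hp q hq hpq
    have h2 := hV ((p - q : V) : EuclideanSpace ℝ ι) (p - q : V).2
    have h3 : Λ ((p - q : V) : EuclideanSpace ℝ ι) =
        (Λ (x + (-(q : EuclideanSpace ℝ ι))) - y) - (Λ (x + (-(p : EuclideanSpace ℝ ι))) - y) := by
      rw [Submodule.coe_sub, map_sub, map_add, map_add, map_neg, map_neg]
      abel
    have h4 : ‖Λ ((p - q : V) : EuclideanSpace ℝ ι)‖ ≤ 2 * ρ := by
      rw [h3]
      refine (norm_sub_le _ _).trans ?_
      linarith [hxp.2, hxq.2]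
    have h5 : dist p q = ‖((p - q : V) : EuclideanSpace ℝ ι)‖ := by
      rw [dist_eq_norm, Submodule.coe_norm]
    rw [h5, div_lt_iff₀ hc] at h1
    nlinarith
  have hsub : (⋃ p ∈ P, T p) ⊆ Metric.closedBall (0 : EuclideanSpace ℝ ι) (2 * R) := by
    intro x hx
    simp only [Set.mem_iUnion, exists_prop] at hx
    obtain ⟨p, hp, hxp⟩ := hx
    rw [hTmem, hBmem] at hxp
    rw [mem_closedBall_zero_iff]
    have h1 : ‖(p : EuclideanSpace ℝ ι)‖ ≤ R := by
      rw [← Submodule.coe_norm]; exact hP1 p hp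
    have h2 : x = (x + (-(p : EuclideanSpace ℝ ι))) + p := by abel
    rw [h2]
    refine (norm_add_le _ _).trans ?_
    linarith [hxp.1]
  have hcard : ENNReal.ofReal ((R / (3 * ρ / c)) ^ Module.finrank ℝ V) ≤ (P.card : ENNReal) := by
    rw [← ENNReal.ofReal_natCast]
    exact ENNReal.ofReal_le_ofReal hP3
  calc volume B * ENNReal.ofReal ((R / (3 * ρ / c)) ^ Module.finrank ℝ V)
      ≤ volume B * (P.card : ENNReal) := mul_le_mul_right hcard _
    _ = ∑ p ∈ P, volume (T p) := by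
        rw [Finset.sum_congr rfl (fun p _ => hTvol p), Finset.sum_const, nsmul_eq_mul, mul_comm]
    _ = volume (⋃ p ∈ P, T p) :=
        (measure_biUnion_finset hdisj (fun p _ => hTmeas p)).symm
    _ ≤ _ := measure_mono hsub

end Pool.Agent.Helper802.JB.N_small_ball
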