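import Mathlib
import Pool.Agent.Helper802.JS.Defs
import Pool.Agent.Helper802.JS.sv_split

set_option autoImplicit false
open Filter Topology MeasureTheory

open Pool.Agent.Helper802.JB Pool.Agent.Helper802.JB.N_sv_split

namespace Pool.Agent.Helper802.JB.N_sylvester



/-- matrix of the off-diagonal part -/
noncomputable def h170M {N : ℕ} (A : Fin N → Fin N → ℝ) (I : Finset (Fin N)) (i j : Fin N) : ℝ :=
  if i ∈ I then (if j ∈ I.erase i then A i j else 0) else 0

noncomputable def h170Off {N : ℕ} (A : Fin N → Fin N → ℝ) (I : Finset (Fin N)) : EE N →ₗ[ℝ] EE N where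
  toFun x := WithLp.toLp 2 (fun i => ∑ j, h170M A I i j * x j)
  map_add' := by
    intro x y
    ext i
    simp [mul_add, Finset.sum_add_distrib]
  map_smul' := by
    intro c x
    ext i
    simp only [PiLp.smul_apply, smul_eq_mul, RingHom.id_apply, Finset.mul_sum]
    refine Finset.sum_congr rfl fun j _ => ?_
    ring

theorem h170Off_apply {N : ℕ} (A : Fin N → Fin N → ℝ) (I : Finset (Fin N)) (x : EE N) (i : Fin N) :
    h170Off A I x i = ∑ j, h170M A I i j * x j := rfl

theorem h170Off_sum {N : ℕ} (A : Fin N → Fin N → ℝ) (I : Finset (Fin N)) :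
    ∑ k, ‖h170Off A I (EuclideanSpace.single k 1)‖ ^ 2 = ∑ i ∈ I, ∑ j ∈ I.erase i, A i j ^ 2 := by
  have h1 : ∀ k, ‖h170Off A I (EuclideanSpace.single k 1)‖ ^ 2 = ∑ i, h170M A I i k ^ 2 := by
    intro k
    rw [EuclideanSpace.real_norm_sq_eq]
    refine Finset.sum_congr rfl fun i _ => ?_
    rw [h170Off_apply]
    congr 1
    rw [Finset.sum_eq_single k]
    · simp
    · intro j _ hj
      simp [hj]
    · intro h
      exact absurd (Finset.mem_univ k) h
  simp only [h1]
  rw [Finset.sum_comm]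
  have h2 : ∀ i, ∑ k, h170M A I i k ^ 2 = if i ∈ I then ∑ j ∈ I.erase i, A i j ^ 2 else 0 := by
    intro i
    unfold h170M
    split_ifs with hi
    · have h3 : ∀ k, (if k ∈ I.erase i then A i k else 0) ^ 2 = if k ∈ I.erase i then A i k ^ 2 else 0 := by
        intro k
        split_ifs <;> simp
      simp only [h3]
      rw [Finset.sum_ite_mem, Finset.univ_inter]
    · simp
  simp only [h2]
  rw [Finset.sum_ite_mem, Finset.univ_inter]

/-- the matrix with given rows -/
noncomputable def h170Psi {N n : ℕ} (U : Fin N → Submodule ℝ (EE n)) :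
    ((i : Fin N) → U i) →ₗ[ℝ] EuclideanSpace ℝ (Fin N × Fin n) where
  toFun u := WithLp.toLp 2 (fun p => (u p.1 : EE n) p.2)
  map_add' := by
    intro x y
    ext p
    simp
  map_smul' := by
    intro c x
    ext p
    simp

noncomputable def h170T {N n : ℕ} (U : Fin N → Submodule ℝ (EE n)) (V0 : Submodule ℝ (EE N)) :
    ((i : Fin N) → U i) →ₗ[ℝ] (Fin n → V0) where
  toFun u := fun k => V0.orthogonalProjectionOnto (WithLp.toLp 2 (fun i => (u i : EE n) k))
  map_add' := by
    intro x y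
    funext k
    have h1 : (WithLp.toLp 2 (fun i => ((x + y) i : EE n) k) : EE N) =
        WithLp.toLp 2 (fun i => (x i : EE n) k) + WithLp.toLp 2 (fun i => (y i : EE n) k) := by
      ext i
      simp
    exact (congrArg V0.orthogonalProjectionOnto h1).trans (map_add _ _ _)
  map_smul' := by
    intro c x
    funext k
    have h1 : (WithLp.toLp 2 (fun i => ((c • x) i : EE n) k) : EE N) =
        c • WithLp.toLp 2 (fun i => (x i : EE n) k) := by
      ext i
      simp
    exact (congrArg V0.orthogonalProjectionOnto h1).trans (map_smul _ _ _)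

theorem h170_dim {N n : ℕ} (U : Fin N → Submodule ℝ (EE n)) (V0 : Submodule ℝ (EE N)) :
    ∃ V : Submodule ℝ (EuclideanSpace ℝ (Fin N × Fin n)),
      (∑ i, Module.finrank ℝ (U i)) ≤ Module.finrank ℝ V + n * Module.finrank ℝ V0 ∧
      ∀ v ∈ V, (∀ i, row v i ∈ U i) ∧ ∀ k : Fin n, (WithLp.toLp 2 (fun i => v (i, k)) : EE N) ∈ V0ᗮ := by
  set T := h170T U V0 with hT
  have hinj : Function.Injective ((h170Psi U).comp (Submodule.subtype (LinearMap.ker T))) := by
    rw [LinearMap.coe_comp]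
    refine Function.Injective.comp ?_ (Submodule.injective_subtype _)
    intro u u' h
    funext i
    apply Subtype.ext
    ext k
    have h1 := congrArg (fun w : EuclideanSpace ℝ (Fin N × Fin n) => w (i, k)) h
    exact h1
  refine ⟨LinearMap.range ((h170Psi U).comp (Submodule.subtype (LinearMap.ker T))), ?_, ?_⟩
  · rw [LinearMap.finrank_range_of_inj hinj]
    have h1 := LinearMap.finrank_range_add_finrank_ker T
    rw [Module.finrank_pi_fintype] at h1
    have h2 : Module.finrank ℝ (LinearMap.range T) ≤ n * Module.finrank ℝ V0 := by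
      refine (Submodule.finrank_le _).trans ?_
      rw [Module.finrank_pi_fintype]
      simp
    omega
  · rintro v ⟨⟨u, hu⟩, rfl⟩
    constructor
    · intro i
      exact (u i).2
    · intro k
      rw [← Submodule.orthogonalProjectionOnto_eq_zero_iff]
      have h1 : T u k = 0 := by
        rw [LinearMap.mem_ker.1 hu]
        rfl
      exact h1

theorem h170_norm_rows {N n : ℕ} (v : EuclideanSpace ℝ (Fin N × Fin n)) :
    ‖v‖ ^ 2 = ∑ i, ‖row v i‖ ^ 2 := by
  rw [EuclideanSpace.real_norm_sq_eq, Fintype.sum_prod_type]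
  refine Finset.sum_congr rfl fun i _ => ?_
  rw [EuclideanSpace.real_norm_sq_eq]
  rfl

theorem h170_norm_cols {N n : ℕ} (v : EuclideanSpace ℝ (Fin N × Fin n)) :
    ‖v‖ ^ 2 = ∑ k : Fin n, ‖(WithLp.toLp 2 (fun i => v (i, k)) : EE N)‖ ^ 2 := by
  rw [EuclideanSpace.real_norm_sq_eq, Fintype.sum_prod_type, Finset.sum_comm]
  refine Finset.sum_congr rfl fun i _ => ?_
  rw [EuclideanSpace.real_norm_sq_eq]

theorem h170_off_rows {N n : ℕ} (A : Fin N → Fin N → ℝ) (I : Finset (Fin N))
    (v : EuclideanSpace ℝ (Fin N × Fin n)) :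
    ∑ i, ‖∑ j, h170M A I i j • row v j‖ ^ 2 =
      ∑ k : Fin n, ‖h170Off A I (WithLp.toLp 2 (fun i => v (i, k)))‖ ^ 2 := by
  have h1 : ∀ i, ‖∑ j, h170M A I i j • row v j‖ ^ 2 = ∑ k : Fin n, (∑ j, h170M A I i j * v (j, k)) ^ 2 := by
    intro i
    rw [EuclideanSpace.real_norm_sq_eq]
    refine Finset.sum_congr rfl fun k _ => ?_
    congr 1
    rw [WithLp.ofLp_sum, Finset.sum_apply]
    rfl
  simp only [h1]
  rw [Finset.sum_comm]
  refine Finset.sum_congr rfl fun k _ => ?_
  rw [EuclideanSpace.real_norm_sq_eq]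
  rfl

-- TARGET
/-- A5 -/
theorem sylvester {N n : ℕ} (S : EE n →ₗ[ℝ] EE n) (A : Fin N → Fin N → ℝ) (K α s : ℝ)
    (hα : 0 < α) (hs : 0 < s) (I : Finset (Fin N)) (hdiag : ∀ i, |A i i| ≤ K)
    (hoff : ∑ i ∈ I, ∑ j ∈ I.erase i, A i j ^ 2 ≤ α * s ^ 2 / 8 * I.card)
    (hfar : Far S K α s) :
    ∃ V : Submodule ℝ (EuclideanSpace ℝ (Fin N × Fin n)),
      α / 2 * n * I.card ≤ Module.finrank ℝ V ∧
      ∀ v ∈ V, (s / 2) ^ 2 * ‖v‖ ^ 2 ≤ ∑ i ∈ I, ‖S (row v i) - ∑ j, A i j • row v j‖ ^ 2 := by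
  choose Vi hVi using fun i => hfar (A i i) (hdiag i)
  obtain ⟨V0, -, hV0, hV0d⟩ := sv_split (h170Off A I) (s / 2) (by linarith)
  rw [h170Off_sum] at hV0d
  obtain ⟨V, hVd, hV⟩ := h170_dim (fun i => if i ∈ I then Vi i else ⊥) V0
  refine ⟨V, ?_, ?_⟩
  · have h1 : (Module.finrank ℝ V0 : ℝ) ≤ α / 2 * I.card := by
      have h2 := hV0d.trans hoff
      have h3 : (0:ℝ) < s ^ 2 := by positivity
      have h4 : s ^ 2 / 4 * (Module.finrank ℝ V0 : ℝ) ≤ s ^ 2 / 4 * (α / 2 * I.card) := by
        calc s ^ 2 / 4 * (Module.finrank ℝ V0 : ℝ) = (s / 2) ^ 2 * (Module.finrank ℝ V0 : ℝ) := by ring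
          _ ≤ _ := h2
          _ = _ := by ring
      exact le_of_mul_le_mul_left h4 (by positivity)
    have h5 : ((∑ i, Module.finrank ℝ (if i ∈ I then Vi i else ⊥ : Submodule ℝ (EE n)) : ℕ) : ℝ) ≤
        Module.finrank ℝ V + n * Module.finrank ℝ V0 := by exact_mod_cast hVd
    have h6 : α * n * I.card ≤ ((∑ i, Module.finrank ℝ (if i ∈ I then Vi i else ⊥ : Submodule ℝ (EE n)) : ℕ) : ℝ) := by
      rw [Nat.cast_sum]
      have h7 : ∑ i, (if i ∈ I then α * n else 0) ≤
          ∑ i, (Module.finrank ℝ (if i ∈ I then Vi i else ⊥ : Submodule ℝ (EE n)) : ℝ) := by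
        refine Finset.sum_le_sum fun i _ => ?_
        by_cases hi : i ∈ I
        · rw [if_pos hi, if_pos hi]
          exact (hVi i).1
        · rw [if_neg hi]
          positivity
      rw [Finset.sum_ite_mem, Finset.univ_inter, Finset.sum_const, nsmul_eq_mul] at h7
      linarith
    have h8 : (n : ℝ) * Module.finrank ℝ V0 ≤ n * (α / 2 * I.card) :=
      mul_le_mul_of_nonneg_left h1 (Nat.cast_nonneg _)
    linarith
  · intro v hv
    obtain ⟨hrow, hcol⟩ := hV v hv
    have hrow0 : ∀ i, i ∉ I → row v i = 0 := by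
      intro i hi
      have := hrow i
      rw [if_neg hi] at this
      exact (Submodule.mem_bot ℝ).1 this
    have hrow1 : ∀ i ∈ I, row v i ∈ Vi i := by
      intro i hi
      have := hrow i
      rwa [if_pos hi] at this
    have hsplit : ∀ i ∈ I, S (row v i) - ∑ j, A i j • row v j =
        (S (row v i) - A i i • row v i) - ∑ j, h170M A I i j • row v j := by
      intro i hi
      have h1 : ∑ j, A i j • row v j = A i i • row v i + ∑ j, h170M A I i j • row v j := by
        rw [← Finset.add_sum_erase Finset.univ (fun j => A i j • row v j) (Finset.mem_univ i),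
          ← Finset.add_sum_erase Finset.univ (fun j => h170M A I i j • row v j) (Finset.mem_univ i)]
        have h2 : h170M A I i i = 0 := by
          unfold h170M
          rw [if_pos hi, if_neg (Finset.notMem_erase i I)]
        rw [h2, zero_smul, zero_add]
        congr 1
        refine Finset.sum_congr rfl fun j hj => ?_
        have hji : j ≠ i := Finset.ne_of_mem_erase hj
        by_cases hjI : j ∈ I
        · unfold h170M
          rw [if_pos hi, if_pos (Finset.mem_erase.2 ⟨hji, hjI⟩)]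
        · rw [hrow0 j hjI, smul_zero, smul_zero]
      rw [h1]
      abel
    have hb1 : s ^ 2 * ‖v‖ ^ 2 ≤ ∑ i ∈ I, ‖S (row v i) - A i i • row v i‖ ^ 2 := by
      have h1 : ‖v‖ ^ 2 = ∑ i ∈ I, ‖row v i‖ ^ 2 := by
        rw [h170_norm_rows]
        symm
        refine Finset.sum_subset (Finset.subset_univ I) ?_
        intro i _ hi
        rw [hrow0 i hi]
        simp
      rw [h1, Finset.mul_sum]
      refine Finset.sum_le_sum fun i hi => ?_
      have h2 := (hVi i).2 (row v i) (hrow1 i hi)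
      calc s ^ 2 * ‖row v i‖ ^ 2 = (s * ‖row v i‖) ^ 2 := by ring
        _ ≤ _ := pow_le_pow_left₀ (by positivity) h2 2
    have hb2 : ∑ i ∈ I, ‖∑ j, h170M A I i j • row v j‖ ^ 2 ≤ (s / 2) ^ 2 * ‖v‖ ^ 2 := by
      have h1 : ∑ i ∈ I, ‖∑ j, h170M A I i j • row v j‖ ^ 2 ≤ ∑ i, ‖∑ j, h170M A I i j • row v j‖ ^ 2 :=
        Finset.sum_le_sum_of_subset_of_nonneg (Finset.subset_univ I) (fun i _ _ => by positivity)
      refine h1.trans ?_
      rw [h170_off_rows, h170_norm_cols, Finset.mul_sum]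
      refine Finset.sum_le_sum fun k _ => ?_
      have h2 := hV0 _ (hcol k)
      calc _ ≤ (s / 2 * ‖(WithLp.toLp 2 (fun i => v (i, k)) : EE N)‖) ^ 2 := pow_le_pow_left₀ (norm_nonneg _) h2 2
        _ = _ := by ring
    have hb3 : ∑ i ∈ I, ‖S (row v i) - A i i • row v i‖ ^ 2 ≤
        2 * ∑ i ∈ I, ‖S (row v i) - ∑ j, A i j • row v j‖ ^ 2 +
          2 * ∑ i ∈ I, ‖∑ j, h170M A I i j • row v j‖ ^ 2 := by
      rw [Finset.mul_sum, Finset.mul_sum, ← Finset.sum_add_distrib]
      refine Finset.sum_le_sum fun i hi => ?_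
      rw [hsplit i hi]
      set a := S (row v i) - A i i • row v i
      set u := ∑ j, h170M A I i j • row v j
      have h1 : ‖a‖ ≤ ‖a - u‖ + ‖u‖ := by
        have := norm_add_le (a - u) u
        rwa [sub_add_cancel] at this
      have h2 : ‖a‖ ^ 2 ≤ (‖a - u‖ + ‖u‖) ^ 2 := pow_le_pow_left₀ (norm_nonneg _) h1 2
      nlinarith [sq_nonneg (‖a - u‖ - ‖u‖)]
    nlinarith

end Pool.Agent.Helper802.JB.N_sylvester
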