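import Mathlib
import Pool.Agent.Helper802.JS.Defs
import Pool.Agent.Helper802.JS.select_class
import Pool.Agent.Helper802.JS.sylvester
import Pool.Agent.Helper802.JS.small_ball
import Pool.Agent.Helper802.JS.ball_volume

set_option autoImplicit false
open Filter Topology MeasureTheory

open Pool.Agent.Helper802.JB Pool.Agent.Helper802.JB.N_select_class Pool.Agent.Helper802.JB.N_sylvester Pool.Agent.Helper802.JB.N_small_ball Pool.Agent.Helper802.JB.N_ball_volume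

namespace Pool.Agent.Helper802.JB.N_piece_volume






theorem row_sq {N n : ℕ} (K q : ℝ) (hN : 0 < N) (hq1 : 1 ≤ q) (hq2 : q ≤ 2) (hK : 1 ≤ K)
    (z : (Fin N ⊕ Fin n) → ℤ) (hz : ∑ j, |(z j : ℝ)| ^ q ≤ (N : ℝ) + n) :
    ∑ j : Fin N, (K * ((N : ℝ) + n) ^ (-(1 / q)) * z (Sum.inl j)) ^ 2 ≤ K ^ 2 := by
  have hM : (0 : ℝ) < (N : ℝ) + n := by positivity
  set M : ℝ := (N : ℝ) + n with hMdef
  have hq0 : 0 < q := by linarith
  have hK0 : 0 < K := by linarith
  set κ : ℝ := K * M ^ (-(1 / q)) with hκ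
  have hκ0 : 0 < κ := by positivity
  have hκq : κ ^ q * M = K ^ q := by
    rw [hκ, Real.mul_rpow hK0.le (by positivity), ← Real.rpow_mul hM.le]
    have : -(1 / q) * q = -1 := by field_simp
    rw [this, Real.rpow_neg_one]
    field_simp
  have hsum : ∑ j : Fin N, |(z (Sum.inl j) : ℝ)| ^ q ≤ M := by
    rw [Fintype.sum_sum_type] at hz
    have h2 : 0 ≤ ∑ j : Fin n, |(z (Sum.inr j) : ℝ)| ^ q :=
      Finset.sum_nonneg fun j _ => by positivity
    linarith
  have hterm : ∀ j : Fin N, (κ * |(z (Sum.inl j) : ℝ)|) ^ q = κ ^ q * |(z (Sum.inl j) : ℝ)| ^ q :=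
    fun j => Real.mul_rpow hκ0.le (abs_nonneg _)
  have hsum2 : ∑ j : Fin N, (κ * |(z (Sum.inl j) : ℝ)|) ^ q ≤ K ^ q := by
    simp_rw [hterm]
    rw [← Finset.mul_sum, ← hκq]
    exact mul_le_mul_of_nonneg_left hsum (by positivity)
  have hle : ∀ j : Fin N, κ * |(z (Sum.inl j) : ℝ)| ≤ K := by
    intro j
    have h1 : (κ * |(z (Sum.inl j) : ℝ)|) ^ q ≤ K ^ q :=
      le_trans (Finset.single_le_sum (f := fun j : Fin N => (κ * |(z (Sum.inl j) : ℝ)|) ^ q)
        (fun i _ => by positivity) (Finset.mem_univ j)) hsum2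
    exact (Real.rpow_le_rpow_iff (by positivity) hK0.le hq0).1 h1
  have hsq : ∀ j : Fin N, (κ * z (Sum.inl j)) ^ 2 ≤ K ^ (2 - q) * (κ * |(z (Sum.inl j) : ℝ)|) ^ q := by
    intro j
    have h0 : 0 ≤ κ * |(z (Sum.inl j) : ℝ)| := by positivity
    have h1 : (κ * z (Sum.inl j)) ^ 2 = (κ * |(z (Sum.inl j) : ℝ)|) ^ 2 := by
      rw [mul_pow κ, mul_pow κ, sq_abs]
    rw [h1]
    rcases h0.eq_or_lt with h | h
    · rw [← h, Real.zero_rpow hq0.ne']; simp
    · have h2 : (κ * |(z (Sum.inl j) : ℝ)|) ^ 2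
          = (κ * |(z (Sum.inl j) : ℝ)|) ^ (2 - q) * (κ * |(z (Sum.inl j) : ℝ)|) ^ q := by
        rw [← Real.rpow_add h]
        norm_num
      rw [h2]
      apply mul_le_mul_of_nonneg_right _ (by positivity)
      exact Real.rpow_le_rpow h0 (hle j) (by linarith)
  calc ∑ j : Fin N, (κ * z (Sum.inl j)) ^ 2
      ≤ ∑ j : Fin N, K ^ (2 - q) * (κ * |(z (Sum.inl j) : ℝ)|) ^ q :=
        Finset.sum_le_sum fun j _ => hsq j
    _ = K ^ (2 - q) * ∑ j : Fin N, (κ * |(z (Sum.inl j) : ℝ)|) ^ q := by rw [Finset.mul_sum]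
    _ ≤ K ^ (2 - q) * K ^ q := mul_le_mul_of_nonneg_left hsum2 (by positivity)
    _ = K ^ 2 := by
        rw [← Real.rpow_add hK0]
        norm_num

/-- row as a linear map -/
noncomputable def rowL {N n : ℕ} (i : Fin N) : EuclideanSpace ℝ (Fin N × Fin n) →ₗ[ℝ] EE n where
  toFun G := row G i
  map_add' x y := by ext k; simp [row]
  map_smul' c x := by ext k; simp [row]

/-- the linear map whose components are the class rows -/
noncomputable def Lam {N n : ℕ} (S : EE n →ₗ[ℝ] EE n) (A : Fin N → Fin N → ℝ) (I : Finset (Fin N)) :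
    EuclideanSpace ℝ (Fin N × Fin n) →ₗ[ℝ] PiLp 2 (fun _ : I => EE n) :=
  ((WithLp.linearEquiv 2 ℝ (I → EE n)).symm.toLinearMap).comp
    (LinearMap.pi fun i : I => S.comp (rowL i.1) - ∑ j, A i.1 j • rowL j)

theorem Lam_apply {N n : ℕ} (S : EE n →ₗ[ℝ] EE n) (A : Fin N → Fin N → ℝ) (I : Finset (Fin N))
    (G : EuclideanSpace ℝ (Fin N × Fin n)) (i : I) :
    Lam S A I G i = S (row G i.1) - ∑ j, A i.1 j • row G j := by
  simp [Lam, rowL, LinearMap.sub_apply, LinearMap.sum_apply]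

-- TARGET
theorem piece_volume {N n : ℕ} (hN : 0 < N) (hn : 0 < n) (K q α s ρ0 : ℝ) (hq1 : 1 ≤ q)
    (hq2 : q ≤ 2) (hK : 1 ≤ K) (hα : 0 < α) (hs : 0 < s) (b : ℕ)
    (hb : 64 * K ^ 2 ≤ α * s ^ 2 * b) (hρ : 0 < ρ0) (hρs : 12 * ρ0 ≤ s)
    (Z : Fin n → Fin n → ℤ) (hfar : Far (Smat Z) K α (s / 2))
    (z : Fin N → (Fin N ⊕ Fin n) → ℤ) (hz : ∀ i, ∑ j, |(z i j : ℝ)| ^ q ≤ (N : ℝ) + n) :
    volume (Piece K q ρ0 Z z) ≤
      ENNReal.ofReal (100 ^ (N * n) * (12 * ρ0 / s) ^ (α * n * N / (4 * b))) := by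
  have hK0 : 0 < K := by linarith
  have hNr : (0 : ℝ) < N := by exact_mod_cast hN
  have hnr : (0 : ℝ) < n := by exact_mod_cast hn
  have hbpos : 0 < b := by
    rcases Nat.eq_zero_or_pos b with h | h
    · subst h
      simp at hb
      nlinarith
    · exact h
  have hbr : (0 : ℝ) < b := by exact_mod_cast hbpos
  set A : Fin N → Fin N → ℝ := fun i j => K * ((N : ℝ) + n) ^ (-(1 / q)) * z i (Sum.inl j) with hA
  have hAsq : ∀ i, ∑ j, A i j ^ 2 ≤ K ^ 2 := fun i => row_sq K q hN hq1 hq2 hK (z i) (hz i)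
  obtain ⟨I, hI1, hI2⟩ := select_class hN A K b hbpos hAsq
  have hdiag : ∀ i, |A i i| ≤ K := by
    intro i
    have h1 : A i i ^ 2 ≤ K ^ 2 :=
      le_trans (Finset.single_le_sum (f := fun j => A i j ^ 2) (fun j _ => sq_nonneg _)
        (Finset.mem_univ i)) (hAsq i)
    exact abs_le_of_sq_le_sq h1 hK0.le
  have hoff : ∑ i ∈ I, ∑ j ∈ I.erase i, A i j ^ 2 ≤ α * (s / 2) ^ 2 / 8 * I.card := by
    have h1 : (2 * K ^ 2) * (I.card : ℝ) ≤ (α * s ^ 2 * b / 32) * I.card := by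
      apply mul_le_mul_of_nonneg_right _ (by positivity)
      linarith
    have h2 : (b : ℝ) * ∑ i ∈ I, ∑ j ∈ I.erase i, A i j ^ 2
        ≤ b * (α * (s / 2) ^ 2 / 8 * I.card) := by
      calc _ ≤ 2 * K ^ 2 * I.card := hI2
        _ ≤ (α * s ^ 2 * b / 32) * I.card := h1
        _ = _ := by ring
    exact le_of_mul_le_mul_left h2 hbr
  obtain ⟨V, hV1, hV2⟩ := sylvester (Smat Z) A K α (s / 2) hα (by positivity) I hdiag hoff hfar
  set Λ := Lam (Smat Z) A I with hΛ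
  have hΛn : ∀ G, ‖Λ G‖ ^ 2 = ∑ i ∈ I, ‖Smat Z (row G i) - ∑ j, A i j • row G j‖ ^ 2 := by
    intro G
    rw [PiLp.norm_sq_eq_of_L2, ← Finset.sum_coe_sort I]
    apply Finset.sum_congr rfl
    intro i _
    rw [hΛ, Lam_apply]
  have hΛV : ∀ v ∈ V, (s / 4) * ‖v‖ ≤ ‖Λ v‖ := by
    intro v hv
    have h1 := hV2 v hv
    rw [← hΛn] at h1
    have h2 : ((s / 4) * ‖v‖) ^ 2 ≤ ‖Λ v‖ ^ 2 := by
      calc ((s / 4) * ‖v‖) ^ 2 = (s / 2 / 2) ^ 2 * ‖v‖ ^ 2 := by ring
        _ ≤ _ := h1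
    exact le_of_sq_le_sq h2 (norm_nonneg _)
  set R : ℝ := Real.sqrt (N * n) with hR
  have hRpos : 0 < R := Real.sqrt_pos.2 (by positivity)
  set y : PiLp 2 (fun _ : I => EE n) := WithLp.toLp 2 fun i : I =>
    Real.sqrt n • ∑ k, (K * ((N : ℝ) + n) ^ (-(1 / q)) * z i.1 (Sum.inr k)) •
        (EuclideanSpace.single k (1 : ℝ) : EE n) with hy
  have hsub : Piece K q ρ0 Z z ⊆ {x | ‖x‖ ≤ R ∧ ‖Λ x - y‖ ≤ R * ρ0} := by
    rintro G ⟨hG1, hG2⟩
    refine ⟨hG1, ?_⟩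
    apply le_of_sq_le_sq _ (by positivity)
    rw [PiLp.norm_sq_eq_of_L2]
    have h1 : ∀ i : I, ‖(Λ G - y) i‖ ^ 2 ≤ n * ρ0 ^ 2 := by
      intro i
      have h2 := hG2 i.1
      have h3 : (Λ G - y) i = Smat Z (row G i.1) - ∑ j, A i.1 j • row G j
          - Real.sqrt n • ∑ k, (K * ((N : ℝ) + n) ^ (-(1 / q)) * z i.1 (Sum.inr k)) •
          (EuclideanSpace.single k (1 : ℝ) : EE n) := by
        rw [PiLp.sub_apply, hΛ, Lam_apply]
      rw [h3]
      calc _ ≤ (Real.sqrt n * ρ0) ^ 2 := by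
            apply pow_le_pow_left₀ (norm_nonneg _) h2
        _ = n * ρ0 ^ 2 := by rw [mul_pow, Real.sq_sqrt hnr.le]
    calc ∑ i : I, ‖(Λ G - y) i‖ ^ 2 ≤ ∑ i : I, (n * ρ0 ^ 2 : ℝ) :=
          Finset.sum_le_sum fun i _ => h1 i
      _ = I.card * (n * ρ0 ^ 2) := by simp
      _ ≤ N * (n * ρ0 ^ 2) := by
          apply mul_le_mul_of_nonneg_right _ (by positivity)
          have : I.card ≤ N := by
            calc I.card ≤ Fintype.card (Fin N) := Finset.card_le_univ I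
              _ = N := Fintype.card_fin N
          exact_mod_cast this
      _ = (R * ρ0) ^ 2 := by rw [mul_pow, hR, Real.sq_sqrt (by positivity)]; ring
  have hsb := small_ball Λ V (s / 4) (R * ρ0) R (by positivity) (by positivity) hRpos hΛV y
  have hratio : R / (3 * (R * ρ0) / (s / 4)) = s / (12 * ρ0) := by
    field_simp
    ring
  rw [hratio] at hsb
  have hcard : Fintype.card (Fin N × Fin n) = N * n := by simp
  have hbv := ball_volume (ι := Fin N × Fin n)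
  rw [hcard] at hbv
  have hR2 : (2 * Real.sqrt ((N * n : ℕ) : ℝ)) = 2 * R := by rw [hR]; push_cast; rfl
  rw [hR2] at hbv
  set d := Module.finrank ℝ V with hd
  have hX0 : 0 < s / (12 * ρ0) := by positivity
  have hvol : volume (Piece K q ρ0 Z z) * ENNReal.ofReal ((s / (12 * ρ0)) ^ d) ≤
      ENNReal.ofReal (100 ^ (N * n)) :=
    le_trans (le_trans (mul_le_mul_left (measure_mono hsub) _) hsb) hbv
  have h3 : volume (Piece K q ρ0 Z z) ≤
      ENNReal.ofReal (100 ^ (N * n) * (12 * ρ0 / s) ^ d) := by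
    have h4 : volume (Piece K q ρ0 Z z) =
        volume (Piece K q ρ0 Z z) * ENNReal.ofReal ((s / (12 * ρ0)) ^ d) *
          ENNReal.ofReal ((12 * ρ0 / s) ^ d) := by
      rw [mul_assoc, ← ENNReal.ofReal_mul (by positivity), ← mul_pow]
      have : s / (12 * ρ0) * (12 * ρ0 / s) = 1 := by field_simp
      rw [this]; simp
    rw [h4, ENNReal.ofReal_mul (by positivity)]
    exact mul_le_mul_left hvol _
  refine le_trans h3 (ENNReal.ofReal_le_ofReal ?_)
  apply mul_le_mul_of_nonneg_left _ (by positivity)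
  rw [← Real.rpow_natCast]
  apply Real.rpow_le_rpow_of_exponent_ge (by positivity)
  · rw [div_le_one hs]; exact hρs
  · have h5 : (N : ℝ) ≤ 2 * b * I.card := by exact_mod_cast hI1
    calc α * n * N / (4 * b) ≤ α * n * (2 * b * I.card) / (4 * b) := by
          apply div_le_div_of_nonneg_right _ (by positivity)
          apply mul_le_mul_of_nonneg_left h5 (by positivity)
      _ = α / 2 * n * I.card := by field_simp; ring
      _ ≤ _ := hV1

end Pool.Agent.Helper802.JB.N_piece_volume
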