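import Mathlib
import Pool.Agent.Helper802.JS.Defs

set_option autoImplicit false
open Filter Topology MeasureTheory

open Pool.Agent.Helper802.JB 

namespace Pool.Agent.Helper802.JB.N_zcount

theorem zc_sum (L : ℕ) : ∑ t ∈ Finset.Icc (-(L : ℤ)) L, (1 / 2 : ℝ) ^ t.natAbs = 3 - 2 * (1 / 2) ^ L := by
  induction L with
  | zero => norm_num
  | succ L ih =>
    have h : Finset.Icc (-((L + 1 : ℕ) : ℤ)) ((L + 1 : ℕ) : ℤ) =
        insert ((L : ℤ) + 1) (insert (-((L : ℤ) + 1)) (Finset.Icc (-(L : ℤ)) L)) := by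
      ext t
      simp only [Finset.mem_Icc, Finset.mem_insert]
      push_cast
      omega
    rw [h, Finset.sum_insert, Finset.sum_insert, ih]
    · have e1 : ((L : ℤ) + 1).natAbs = L + 1 := by omega
      have e2 : (-((L : ℤ) + 1)).natAbs = L + 1 := by omega
      rw [e1, e2, pow_succ]
      ring
    · simp only [Finset.mem_Icc]
      omega
    · simp only [Finset.mem_insert, Finset.mem_Icc]
      omega

-- TARGET
/-- the finite set of integer vectors used for rounding -/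
theorem zcount {ι : Type} [Fintype ι] (q : ℝ) (hq : 1 ≤ q) :
    {z : ι → ℤ | ∑ i, |(z i : ℝ)| ^ q ≤ Fintype.card ι}.Finite ∧
      {z : ι → ℤ | ∑ i, |(z i : ℝ)| ^ q ≤ Fintype.card ι}.ncard ≤ 6 ^ Fintype.card ι := by
  classical
  set L := Fintype.card ι with hL
  set S : Set (ι → ℤ) := {z : ι → ℤ | ∑ i, |(z i : ℝ)| ^ q ≤ L} with hS
  let box : Finset (ι → ℤ) := Fintype.piFinset (fun _ : ι => Finset.Icc (-(L : ℤ)) L)
  have hsum : ∀ z ∈ S, ∑ i, (z i).natAbs ≤ L := by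
    intro z hz
    have h1 : ∀ i, ((z i).natAbs : ℝ) ≤ |(z i : ℝ)| ^ q := by
      intro i
      have e : ((z i).natAbs : ℝ) = |(z i : ℝ)| := by
        rw [Nat.cast_natAbs, Int.cast_abs]
      rw [e]
      by_cases h0 : z i = 0
      · rw [h0]
        simp only [Int.cast_zero, abs_zero]
        rw [Real.zero_rpow (by linarith)]
      · apply Real.self_le_rpow_of_one_le _ hq
        have : 1 ≤ |z i| := Int.one_le_abs h0
        exact_mod_cast this
    have h2 : ((∑ i, (z i).natAbs : ℕ) : ℝ) ≤ L := by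
      push_cast
      exact (Finset.sum_le_sum fun i _ => h1 i).trans hz
    exact_mod_cast h2
  have hbox : ∀ z ∈ S, z ∈ box := by
    intro z hz
    rw [Fintype.mem_piFinset]
    intro i
    have h1 : (z i).natAbs ≤ L :=
      (Finset.single_le_sum (f := fun i => (z i).natAbs) (fun _ _ => Nat.zero_le _)
        (Finset.mem_univ i)).trans (hsum z hz)
    rw [Finset.mem_Icc]
    omega
  have hfin : S.Finite := box.finite_toSet.subset hbox
  refine ⟨hfin, ?_⟩
  rw [Set.ncard_eq_toFinset_card _ hfin]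
  have h3 : ∑ z ∈ box, ∏ i, (1 / 2 : ℝ) ^ (z i).natAbs =
      ∏ _i : ι, ∑ t ∈ Finset.Icc (-(L : ℤ)) L, (1 / 2 : ℝ) ^ t.natAbs := by
    rw [Finset.prod_univ_sum]
  have h4 : ∏ _i : ι, ∑ t ∈ Finset.Icc (-(L : ℤ)) L, (1 / 2 : ℝ) ^ t.natAbs ≤ 3 ^ L := by
    rw [Finset.prod_const, Finset.card_univ, zc_sum]
    apply pow_le_pow_left₀
    · have : (1 / 2 : ℝ) ^ L ≤ 1 := pow_le_one₀ (by norm_num) (by norm_num)
      linarith
    · have : (0 : ℝ) < (1 / 2 : ℝ) ^ L := by positivity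
      linarith
  have h5 : (hfin.toFinset.card : ℝ) * (1 / 2) ^ L ≤ ∑ z ∈ hfin.toFinset, ∏ i, (1 / 2 : ℝ) ^ (z i).natAbs := by
    rw [← nsmul_eq_mul]
    apply Finset.card_nsmul_le_sum
    intro z hz
    rw [Finset.prod_pow_eq_pow_sum]
    exact pow_le_pow_of_le_one (by norm_num) (by norm_num) (hsum z (hfin.mem_toFinset.1 hz))
  have h6 : ∑ z ∈ hfin.toFinset, ∏ i, (1 / 2 : ℝ) ^ (z i).natAbs ≤
      ∑ z ∈ box, ∏ i, (1 / 2 : ℝ) ^ (z i).natAbs := by
    apply Finset.sum_le_sum_of_subset_of_nonneg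
    · intro z hz
      exact hbox z (hfin.mem_toFinset.1 hz)
    · intro z _ _
      positivity
  have h7 : (hfin.toFinset.card : ℝ) * (1 / 2) ^ L ≤ 3 ^ L := by
    refine h5.trans (h6.trans ?_)
    rw [h3]
    exact h4
  have h8 : (hfin.toFinset.card : ℝ) ≤ 6 ^ L := by
    have e : (6 : ℝ) ^ L = 3 ^ L * 2 ^ L := by
      rw [← mul_pow]
      norm_num
    rw [e]
    have h2 : (0 : ℝ) < 2 ^ L := by positivity
    calc (hfin.toFinset.card : ℝ) = (hfin.toFinset.card : ℝ) * (1 / 2) ^ L * 2 ^ L := by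
          rw [mul_assoc, ← mul_pow]
          norm_num
      _ ≤ 3 ^ L * 2 ^ L := mul_le_mul_of_nonneg_right h7 h2.le
  exact_mod_cast h8

end Pool.Agent.Helper802.JB.N_zcount
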