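import Mathlib
import Pool.Agent.Helper802.JS.Defs
import Pool.Agent.Helper802.JS.zcount
import Pool.Agent.Helper802.JS.opnorm_volume
import Pool.Agent.Helper802.JS.piece_volume
import Pool.Agent.Helper802.JS.good_inclusion
import Pool.Agent.Helper802.JS.numeric

set_option autoImplicit false
open Filter Topology MeasureTheory

open Pool.Agent.Helper802.JB Pool.Agent.Helper802.JB.N_zcount Pool.Agent.Helper802.JB.N_opnorm_volume Pool.Agent.Helper802.JB.N_piece_volume Pool.Agent.Helper802.JB.N_good_inclusion Pool.Agent.Helper802.JB.N_numeric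

namespace Pool.Agent.Helper802.JB.N_few_op







theorem fewop_card_int (Y : ℝ) (hY : 0 ≤ Y) :
    ((Finset.Icc (-⌊Y⌋) ⌊Y⌋).card : ℝ) ≤ 2 * Y + 1 := by
  have h0 : 0 ≤ ⌊Y⌋ := Int.floor_nonneg.mpr hY
  rw [Int.card_Icc]
  have h1 : ((⌊Y⌋ + 1 - -⌊Y⌋).toNat : ℝ) = ((⌊Y⌋ + 1 - -⌊Y⌋ : ℤ) : ℝ) := by
    have h2 : (((⌊Y⌋ + 1 - -⌊Y⌋).toNat : ℤ)) = ⌊Y⌋ + 1 - -⌊Y⌋ := Int.toNat_of_nonneg (by omega)
    exact_mod_cast h2
  rw [h1]
  push_cast
  have := Int.floor_le Y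
  linarith

theorem fewop_norm {N n : ℕ} (hn : 0 < n) (G : EuclideanSpace ℝ (Fin N × Fin n))
    (hG : ∀ a, |G a| ≤ 1) (i : Fin N) : ‖(1 / Real.sqrt n) • row G i‖ ≤ 1 := by
  have hn0 : (0 : ℝ) < n := by exact_mod_cast hn
  have hs : 0 < Real.sqrt n := Real.sqrt_pos.mpr hn0
  rw [norm_smul, Real.norm_eq_abs, abs_of_pos (by positivity), one_div, ← div_eq_inv_mul,
    div_le_one hs, EuclideanSpace.norm_eq]
  apply Real.sqrt_le_sqrt
  calc ∑ k, ‖row G i k‖ ^ 2 ≤ ∑ _k : Fin n, (1 : ℝ) := by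
        apply Finset.sum_le_sum
        intro k _
        have h1 : ‖row G i k‖ ≤ 1 := hG (i, k)
        have h2 : ‖row G i k‖ ^ 2 ≤ 1 ^ 2 := pow_le_pow_left₀ (norm_nonneg _) h1 2
        simpa using h2
    _ = n := by simp

-- TARGET
/-- Few operators: existence of good random vectors -/
theorem few_op (p K α s : ℝ) (hp : 2 < p) (hp4 : p ≤ 4) (hK : 1 ≤ K) (hα : 0 < α) (hs : 0 < s) :
    ∃ (C1 n1 : ℕ), 1 ≤ C1 ∧ ∀ n : ℕ, n1 ≤ n → ∃ g : Fin (C1 * n) → EE n,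
      (∀ i, ‖g i‖ ≤ 1) ∧ FewOp p (withBasis g) K α s := by
  classical
  set q : ℝ := p / (p - 1) with hq
  have hp1 : 0 < p - 1 := by linarith
  have hq1 : 1 < q := by rw [hq, lt_div_iff₀ hp1]; linarith
  have hq2 : q < 2 := by rw [hq, div_lt_iff₀ hp1]; linarith
  have hpq : 1 / p + 1 / q = 1 := by
    rw [hq]
    have : p ≠ 0 := by linarith
    field_simp
    ring
  obtain ⟨Cop, hCop, hvol⟩ := opnorm_volume
  set b : ℕ := ⌈64 * K ^ 2 / (α * s ^ 2)⌉₊ + 1 with hb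
  have hb0 : 0 < b := by omega
  have hbK : 64 * K ^ 2 ≤ α * s ^ 2 * b := by
    have h1 : 64 * K ^ 2 / (α * s ^ 2) ≤ (b : ℝ) := by
      rw [hb]; push_cast
      have := Nat.le_ceil (64 * K ^ 2 / (α * s ^ 2))
      linarith
    rw [div_le_iff₀ (by positivity)] at h1
    linarith
  obtain ⟨C1, n1, hC1, hn1, hnum⟩ := numeric q K α s Cop b hq1 hq2 hK hα hs hCop hb0
  refine ⟨C1, n1, hC1, fun n hn => ?_⟩
  by_contra hcon
  push Not at hcon
  have hn0 : 0 < n := by omega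
  set N := C1 * n with hN
  have hNn : n ≤ N := by rw [hN]; exact Nat.le_mul_of_pos_left n hC1
  have hN0 : 0 < N := by omega
  clear_value N
  set ρ0 : ℝ := 1 / n + (Cop * Real.sqrt N / Real.sqrt n + 1) *
    (K * ((N : ℝ) + n) ^ (1 / 2 - 1 / q)) with hρ0
  obtain ⟨hns, hρs, hfin⟩ := hnum n N hn hN ρ0 hρ0
  have hnR : (0 : ℝ) < n := by exact_mod_cast hn0
  have hNR : (0 : ℝ) < N := by exact_mod_cast hN0
  have hρpos : 0 < ρ0 := by rw [hρ0]; positivity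
  set Y : ℝ := Real.sqrt n * K * (N + n) * n ^ 2 with hY
  have hY0 : 0 ≤ Y := by rw [hY]; positivity
  let PZ : Finset (Fin n → Fin n → ℤ) :=
    Fintype.piFinset (fun _ => Fintype.piFinset (fun _ => Finset.Icc (-⌊Y⌋) ⌊Y⌋))
  obtain ⟨hzf, hzc⟩ := zcount (ι := Fin N ⊕ Fin n) q hq1.le
  have hcard : (Fintype.card (Fin N ⊕ Fin n) : ℝ) = (N : ℝ) + n := by simp
  have hcard' : Fintype.card (Fin N ⊕ Fin n) = N + n := by simp
  let Pz : Finset (Fin N → (Fin N ⊕ Fin n) → ℤ) := Fintype.piFinset (fun _ => hzf.toFinset)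
  let 𝒮 : Finset ((Fin n → Fin n → ℤ) × (Fin N → (Fin N ⊕ Fin n) → ℤ)) :=
    (PZ ×ˢ Pz).filter (fun Zz => Far (Smat Zz.1) K α (s / 2))
  set 𝒢 : Set (EuclideanSpace ℝ (Fin N × Fin n)) := {G | (∀ a, |G a| ≤ 1) ∧
    ∀ (x : EE N) (y : EE n),
      |∑ i, x i * inner ℝ (row G i) y| ≤ Cop * Real.sqrt N * ‖x‖ * ‖y‖} with h𝒢
  have hsub : 𝒢 ⊆ ⋃ Zz ∈ 𝒮, Piece K q ρ0 Zz.1 Zz.2 := by
    rintro G ⟨hG1, hG2⟩
    have hbad : ¬ FewOp p (withBasis (fun i => (1 / Real.sqrt n) • row G i)) K α s := by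
      subst hN
      exact hcon _ (fun i => fewop_norm hn0 G hG1 i)
    obtain ⟨Z, z, h1, h2, h3, h4⟩ := good_inclusion hN0 hn0 p q K α s Cop hp hpq hK hs
      (by linarith) G hG1 hG2 hns hbad
    rw [Set.mem_iUnion₂]
    refine ⟨(Z, z), ?_, h4⟩
    rw [Finset.mem_filter, Finset.mem_product]
    refine ⟨⟨?_, ?_⟩, h3⟩
    · simp only [PZ, Fintype.mem_piFinset, Finset.mem_Icc]
      intro k l
      have h5 := abs_le.mp (h1 k l)
      constructor
      · have h6 : (-Z k l : ℤ) ≤ ⌊Y⌋ := by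
          rw [Int.le_floor]; push_cast; linarith [h5.1]
        omega
      · rw [Int.le_floor]; exact h5.2
    · simp only [Pz, Fintype.mem_piFinset, Set.Finite.mem_toFinset, Set.mem_ofPred_eq]
      intro i
      rw [hcard]
      exact h2 i
  have hpiece : ∀ Zz ∈ 𝒮, volume (Piece K q ρ0 Zz.1 Zz.2) ≤
      ENNReal.ofReal (100 ^ (N * n) * (12 * ρ0 / s) ^ (α * n * N / (4 * b))) := by
    intro Zz hZz
    rw [Finset.mem_filter, Finset.mem_product] at hZz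
    obtain ⟨⟨_, hz⟩, hfar⟩ := hZz
    refine piece_volume hN0 hn0 K q α s ρ0 hq1.le hq2.le hK hα hs b hbK hρpos hρs Zz.1 hfar Zz.2 ?_
    intro i
    simp only [Pz, Fintype.mem_piFinset, Set.Finite.mem_toFinset, Set.mem_ofPred_eq] at hz
    rw [← hcard]
    exact hz i
  set B : ℝ := 100 ^ (N * n) * (12 * ρ0 / s) ^ (α * n * N / (4 * b)) with hB
  have hB0 : 0 ≤ B := by rw [hB]; positivity
  have hcS : (𝒮.card : ℝ) ≤ (2 * Y + 1) ^ (n * n) * (6 ^ (N + n)) ^ N := by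
    have h1 : 𝒮.card ≤ PZ.card * Pz.card := by
      rw [← Finset.card_product]
      exact Finset.card_filter_le _ _
    have h2 : (PZ.card : ℝ) ≤ (2 * Y + 1) ^ (n * n) := by
      simp only [PZ, Fintype.card_piFinset, Finset.prod_const, Finset.card_univ, Fintype.card_fin]
      push_cast
      rw [← pow_mul]
      exact pow_le_pow_left₀ (Nat.cast_nonneg _) (fewop_card_int Y hY0) _
    have h3 : (Pz.card : ℝ) ≤ ((6 : ℝ) ^ (N + n)) ^ N := by
      simp only [Pz, Fintype.card_piFinset, Finset.prod_const, Finset.card_univ, Fintype.card_fin]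
      push_cast
      apply pow_le_pow_left₀ (Nat.cast_nonneg _)
      rw [← Set.ncard_eq_toFinset_card _ hzf]
      rw [hcard'] at hzc
      have h4 : ({z : (Fin N ⊕ Fin n) → ℤ | ∑ i, |(z i : ℝ)| ^ q ≤
        (Fintype.card (Fin N ⊕ Fin n) : ℝ)}.ncard : ℝ) ≤ ((6 ^ (N + n) : ℕ) : ℝ) := by
        rw [hcard']
        exact_mod_cast hzc
      push_cast at h4
      exact_mod_cast h4
    calc (𝒮.card : ℝ) ≤ (PZ.card : ℝ) * Pz.card := by exact_mod_cast h1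
      _ ≤ _ := mul_le_mul h2 h3 (Nat.cast_nonneg _) (by positivity)
  have hle : ENNReal.ofReal (2 ^ (N * n) / 2) ≤ ENNReal.ofReal
      ((2 * Y + 1) ^ (n * n) * (6 ^ (N + n)) ^ N * B) := by
    calc ENNReal.ofReal (2 ^ (N * n) / 2) ≤ volume 𝒢 := hvol n N hn0 hNn
      _ ≤ volume (⋃ Zz ∈ 𝒮, Piece K q ρ0 Zz.1 Zz.2) := measure_mono hsub
      _ ≤ ∑ Zz ∈ 𝒮, volume (Piece K q ρ0 Zz.1 Zz.2) := measure_biUnion_finset_le _ _
      _ ≤ ∑ _Zz ∈ 𝒮, ENNReal.ofReal B := Finset.sum_le_sum hpiece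
      _ = ENNReal.ofReal (𝒮.card * B) := by
          rw [Finset.sum_const, nsmul_eq_mul, ENNReal.ofReal_mul (Nat.cast_nonneg _),
            ENNReal.ofReal_natCast]
      _ ≤ _ := ENNReal.ofReal_le_ofReal (mul_le_mul_of_nonneg_right hcS hB0)
  rw [ENNReal.ofReal_le_ofReal_iff (by positivity)] at hle
  linarith

end Pool.Agent.Helper802.JB.N_few_op
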