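import Mathlib
import Pool.Agent.Helper802.JS.Defs

set_option autoImplicit false
open Filter Topology MeasureTheory

open Pool.Agent.Helper802.JB 

namespace Pool.Agent.Helper802.JB.N_hs_bound


/-- a sign -/
def sg (b : Bool) : ℝ := if b then 1 else -1

theorem sum_cons {n : ℕ} (F : (Fin (n + 1) → Bool) → ℝ) :
    ∑ ε, F ε = ∑ ε' : Fin n → Bool, (F (Fin.cons true ε') + F (Fin.cons false ε')) := by
  rw [← (Fin.consEquiv (fun _ : Fin (n + 1) => Bool)).sum_comp F, Fintype.sum_prod_type,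
    Fintype.sum_bool, ← Finset.sum_add_distrib]
  rfl

theorem sum_sq {E : Type} [NormedAddCommGroup E] [InnerProductSpace ℝ E] :
    ∀ (n : ℕ) (v : Fin n → E), ∑ ε : Fin n → Bool, ‖∑ k, sg (ε k) • v k‖ ^ 2 =
      2 ^ n * ∑ k, ‖v k‖ ^ 2 := by
  intro n
  induction n with
  | zero => intro v; simp
  | succ n ih =>
    intro v
    rw [sum_cons]
    have h1 : ∀ ε' : Fin n → Bool,
        ‖∑ k, sg ((Fin.cons true ε' : Fin (n + 1) → Bool) k) • v k‖ ^ 2 +
          ‖∑ k, sg ((Fin.cons false ε' : Fin (n + 1) → Bool) k) • v k‖ ^ 2 =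
        2 * ‖v 0‖ ^ 2 + 2 * ‖∑ k : Fin n, sg (ε' k) • v k.succ‖ ^ 2 := by
      intro ε'
      rw [Fin.sum_univ_succ, Fin.sum_univ_succ]
      simp only [Fin.cons_zero, Fin.cons_succ, sg, if_true]
      have := parallelogram_law_with_norm ℝ (v 0)
        (∑ k : Fin n, (if ε' k = true then (1:ℝ) else -1) • v k.succ)
      have h2 : ‖(if false = true then (1:ℝ) else -1) • v 0 +
          ∑ k : Fin n, (if ε' k = true then (1:ℝ) else -1) • v k.succ‖ =
          ‖v 0 - ∑ k : Fin n, (if ε' k = true then (1:ℝ) else -1) • v k.succ‖ := by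
        rw [← norm_neg]
        congr 1
        simp
        abel
      rw [h2, one_smul]
      nlinarith [this]
    rw [Finset.sum_congr rfl (fun ε' _ => h1 ε'), Finset.sum_add_distrib, ← Finset.mul_sum,
      ← Finset.mul_sum, ih (fun k => v k.succ), Fin.sum_univ_succ]
    simp only [Finset.sum_const, Finset.card_univ, Fintype.card_fun, Fintype.card_bool,
      Fintype.card_fin, nsmul_eq_mul]
    push_cast
    ring

theorem sum_four : ∀ (n : ℕ) (a : Fin n → ℝ), ∑ ε : Fin n → Bool, (∑ k, sg (ε k) * a k) ^ 4 ≤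
      3 * 2 ^ n * (∑ k, a k ^ 2) ^ 2 := by
  intro n
  induction n with
  | zero => intro a; simp
  | succ n ih =>
    intro a
    rw [sum_cons]
    have h1 : ∀ ε' : Fin n → Bool,
        (∑ k, sg ((Fin.cons true ε' : Fin (n + 1) → Bool) k) * a k) ^ 4 +
          (∑ k, sg ((Fin.cons false ε' : Fin (n + 1) → Bool) k) * a k) ^ 4 =
        2 * a 0 ^ 4 + 12 * a 0 ^ 2 * ‖∑ k : Fin n, sg (ε' k) • a k.succ‖ ^ 2 +
          2 * (∑ k : Fin n, sg (ε' k) * a k.succ) ^ 4 := by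
      intro ε'
      rw [Fin.sum_univ_succ, Fin.sum_univ_succ]
      simp only [Fin.cons_zero, Fin.cons_succ, smul_eq_mul, Real.norm_eq_abs, sq_abs]
      have h2 : sg true = 1 := rfl
      have h3 : sg false = -1 := rfl
      rw [h2, h3]
      ring
    rw [Finset.sum_congr rfl (fun ε' _ => h1 ε'), Finset.sum_add_distrib, Finset.sum_add_distrib,
      ← Finset.mul_sum, ← Finset.mul_sum, ← Finset.mul_sum, sum_sq n (fun k => a k.succ),
      Fin.sum_univ_succ]
    have h4 := ih (fun k => a k.succ)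
    simp only [Finset.sum_const, Finset.card_univ, Fintype.card_fun, Fintype.card_bool,
      Fintype.card_fin, nsmul_eq_mul, Real.norm_eq_abs, sq_abs]
    have h5 : (0:ℝ) < 2 ^ n := by positivity
    have h6 : (0:ℝ) ≤ ∑ k : Fin n, a k.succ ^ 2 := Finset.sum_nonneg (fun k _ => sq_nonneg _)
    push_cast
    have h7 : (0:ℝ) ≤ 2 ^ n * a 0 ^ 4 := by positivity
    have h8 : (2:ℝ) ^ (n + 1) = 2 ^ n * 2 := pow_succ _ _
    have h9 : (2:ℝ) * (∑ ε : Fin n → Bool, (∑ k, sg (ε k) * a k.succ) ^ 4) ≤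
        2 * (3 * 2 ^ n * (∑ k : Fin n, a k.succ ^ 2) ^ 2) := by linarith
    have h10 : 3 * (2:ℝ) ^ (n + 1) * (a 0 ^ 2 + ∑ i : Fin n, a i.succ ^ 2) ^ 2 =
        2 * (2 ^ n * a 0 ^ 4) + 12 * a 0 ^ 2 * (2 ^ n * ∑ i : Fin n, a i.succ ^ 2) +
          2 * (3 * 2 ^ n * (∑ k : Fin n, a k.succ ^ 2) ^ 2) + 4 * (2 ^ n * a 0 ^ 4) := by
      rw [h8]; ring
    linarith

/-- the sign vector -/
noncomputable def sv {n : ℕ} (ε : Fin n → Bool) : EE n := ∑ k, sg (ε k) • EuclideanSpace.single k 1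

theorem inner_sv {n : ℕ} (w : EE n) (ε : Fin n → Bool) :
    inner ℝ w (sv ε) = ∑ k, sg (ε k) * w k := by
  unfold sv
  rw [inner_sum]
  refine Finset.sum_congr rfl (fun k _ => ?_)
  rw [inner_smul_right]
  simp [EuclideanSpace.inner_single_right]

/-- power mean -/
theorem pmean {ι : Type} [Fintype ι] [Nonempty ι] (z : ι → ℝ) (hz : ∀ i, 0 ≤ z i) (q : ℝ)
    (hq : 1 ≤ q) : ((∑ i, z i) / Fintype.card ι) ^ q ≤ (∑ i, z i ^ q) / Fintype.card ι := by
  have hc : (0:ℝ) < Fintype.card ι := by exact_mod_cast Fintype.card_pos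
  have h := Real.rpow_arith_mean_le_arith_mean_rpow Finset.univ (fun _ : ι => (1:ℝ) / Fintype.card ι)
    z (fun _ _ => by positivity) (by simp [hc.ne']) (fun i _ => hz i) hq
  rw [← Finset.mul_sum, ← Finset.mul_sum] at h
  rw [div_eq_inv_mul, div_eq_inv_mul, ← one_div]
  exact h

-- TARGET
theorem hs_bound {n N d : ℕ} (p K : ℝ) (hp : 2 < p) (hp4 : p ≤ 4) (hK : 0 ≤ K) (g : Fin N → EE n)
    (hg : ∀ i, ‖g i‖ ≤ 1) (A : EE n →ₗ[ℝ] EE d)
    (hA : ∀ x, ‖A x‖ ≤ K * NE p (withBasis g) x) :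
    ∑ k, ‖A (EuclideanSpace.single k 1)‖ ^ 2 ≤ K ^ 2 * (3 * N + n : ℝ) ^ (2 / p) := by
  have hp0 : 0 < p := by linarith
  have hM : (0:ℝ) < 2 ^ n := by positivity
  have hcard : (Fintype.card (Fin n → Bool) : ℝ) = 2 ^ n := by simp
  -- step 1
  have h1 : ∑ ε : Fin n → Bool, ‖A (sv ε)‖ ^ 2 =
      2 ^ n * ∑ k, ‖A (EuclideanSpace.single k 1)‖ ^ 2 := by
    rw [← sum_sq n (fun k => A (EuclideanSpace.single k 1))]
    refine Finset.sum_congr rfl (fun ε _ => ?_)
    unfold sv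
    rw [map_sum]
    simp only [map_smul]
  -- the power sums
  let S : (Fin n → Bool) → ℝ := fun ε => ∑ i, |inner ℝ (withBasis g i) (sv ε)| ^ p
  have hS0 : ∀ ε, 0 ≤ S ε := fun ε =>
    Finset.sum_nonneg (fun i _ => Real.rpow_nonneg (abs_nonneg _) _)
  have h2 : ∀ ε, ‖A (sv ε)‖ ^ 2 ≤ K ^ 2 * S ε ^ (2 / p) := by
    intro ε
    have h3 := hA (sv ε)
    have h4 : NE p (withBasis g) (sv ε) = S ε ^ (1 / p) := rfl
    rw [h4] at h3
    have h5 : S ε ^ (2 / p) = (S ε ^ (1 / p)) ^ 2 := by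
      rw [← Real.rpow_natCast, ← Real.rpow_mul (hS0 ε)]
      congr 1
      push_cast
      ring
    rw [h5, ← mul_pow]
    exact pow_le_pow_left₀ (norm_nonneg _) h3 2
  -- Jensen
  have h3 : (∑ ε, S ε ^ (2 / p)) / 2 ^ n ≤ ((∑ ε, S ε) / 2 ^ n) ^ (2 / p) := by
    have h4 := pmean (fun ε => S ε ^ (2 / p)) (fun ε => Real.rpow_nonneg (hS0 ε) _) (p / 2)
      (by linarith)
    rw [hcard] at h4
    have h5 : ∀ ε, (S ε ^ (2 / p)) ^ (p / 2) = S ε := by
      intro ε
      rw [← Real.rpow_mul (hS0 ε)]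
      have : 2 / p * (p / 2) = 1 := by field_simp
      rw [this, Real.rpow_one]
    simp only [h5] at h4
    have h6 : 0 ≤ (∑ ε, S ε ^ (2 / p)) / 2 ^ n :=
      div_nonneg (Finset.sum_nonneg (fun ε _ => Real.rpow_nonneg (hS0 ε) _)) hM.le
    have h7 := Real.rpow_le_rpow (Real.rpow_nonneg h6 _) h4 (show 0 ≤ 2 / p by positivity)
    rw [← Real.rpow_mul h6] at h7
    have : p / 2 * (2 / p) = 1 := by field_simp
    rw [this, Real.rpow_one] at h7
    exact h7
  -- the average of S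
  have h4 : ∀ i : Fin N, ∑ ε : Fin n → Bool, |inner ℝ (g i) (sv ε)| ^ p ≤ 3 * 2 ^ n := by
    intro i
    have h5 := pmean (fun ε : Fin n → Bool => |inner ℝ (g i) (sv ε)| ^ p)
      (fun ε => Real.rpow_nonneg (abs_nonneg _) _) (4 / p) (by rw [le_div_iff₀ hp0]; linarith)
    rw [hcard] at h5
    have h6 : ∀ ε : Fin n → Bool, (|inner ℝ (g i) (sv ε)| ^ p) ^ (4 / p) =
        (∑ k, sg (ε k) * g i k) ^ 4 := by
      intro ε
      rw [← Real.rpow_mul (abs_nonneg _)]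
      have : p * (4 / p) = ((4 : ℕ) : ℝ) := by push_cast; field_simp
      rw [this, Real.rpow_natCast, inner_sv]
      exact (show Even 4 by decide).pow_abs _
    simp only [h6] at h5
    have h7 := sum_four n (fun k => g i k)
    have h8 : ∑ k, g i k ^ 2 = ‖g i‖ ^ 2 := by
      rw [EuclideanSpace.norm_sq_eq]
      simp
    have h9 : (∑ k, g i k ^ 2) ^ 2 ≤ 1 := by
      rw [h8]
      have h10 : ‖g i‖ ^ 2 ≤ 1 := by
        have := hg i
        nlinarith [norm_nonneg (g i)]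
      nlinarith [sq_nonneg ‖g i‖]
    have h10 : (∑ ε : Fin n → Bool, (∑ k, sg (ε k) * g i k) ^ 4) / 2 ^ n ≤ 3 := by
      rw [div_le_iff₀ hM]
      refine h7.trans ?_
      nlinarith
    have h11 : 0 ≤ (∑ ε : Fin n → Bool, |inner ℝ (g i) (sv ε)| ^ p) / 2 ^ n :=
      div_nonneg (Finset.sum_nonneg (fun ε _ => Real.rpow_nonneg (abs_nonneg _) _)) hM.le
    have h12 : (∑ ε : Fin n → Bool, |inner ℝ (g i) (sv ε)| ^ p) / 2 ^ n ≤ 3 := by
      by_contra hcon
      push Not at hcon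
      have h13 : (3:ℝ) ^ (1:ℝ) ≤ 3 ^ (4 / p) :=
        Real.rpow_le_rpow_of_exponent_le (by norm_num) (by rw [le_div_iff₀ hp0]; linarith)
      have h14 : (3:ℝ) ^ (4 / p) <
          ((∑ ε : Fin n → Bool, |inner ℝ (g i) (sv ε)| ^ p) / 2 ^ n) ^ (4 / p) :=
        Real.rpow_lt_rpow (by norm_num) hcon (by positivity)
      rw [Real.rpow_one] at h13
      linarith
    rw [div_le_iff₀ hM] at h12
    exact h12
  have h5 : ∑ ε, S ε ≤ (3 * N + n) * 2 ^ n := by
    show ∑ ε : Fin n → Bool, ∑ i, |inner ℝ (withBasis g i) (sv ε)| ^ p ≤ _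
    rw [Finset.sum_comm, Fintype.sum_sum_type]
    have h6 : ∀ k : Fin n, ∑ ε : Fin n → Bool,
        |inner ℝ (withBasis g (Sum.inr k)) (sv ε)| ^ p = 2 ^ n := by
      intro k
      have h7 : ∀ ε : Fin n → Bool, |inner ℝ (withBasis g (Sum.inr k)) (sv ε)| ^ p = 1 := by
        intro ε
        have h8 : |inner ℝ (withBasis g (Sum.inr k)) (sv ε)| = 1 := by
          rw [inner_sv]
          simp only [withBasis, Sum.elim_inr]
          rw [Finset.sum_eq_single k]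
          · simp only [EuclideanSpace.single_apply, if_true, mul_one]
            unfold sg
            split <;> simp
          · intro j _ hj
            simp [hj]
          · intro h; exact absurd (Finset.mem_univ _) h
        rw [h8, Real.one_rpow]
      rw [Finset.sum_congr rfl (fun ε _ => h7 ε)]
      simp
    have h7 : ∑ i : Fin N, ∑ ε : Fin n → Bool,
        |inner ℝ (withBasis g (Sum.inl i)) (sv ε)| ^ p ≤ ∑ _i : Fin N, (3 * 2 ^ n : ℝ) :=
      Finset.sum_le_sum (fun i _ => h4 i)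
    have h8 : ∑ k : Fin n, ∑ ε : Fin n → Bool,
        |inner ℝ (withBasis g (Sum.inr k)) (sv ε)| ^ p = ∑ _k : Fin n, (2 ^ n : ℝ) :=
      Finset.sum_congr rfl (fun k _ => h6 k)
    rw [h8]
    simp only [Finset.sum_const, Finset.card_univ, Fintype.card_fin, nsmul_eq_mul] at h7 ⊢
    nlinarith [h7]
  -- conclusion
  have h6 : (2:ℝ) ^ n * ∑ k, ‖A (EuclideanSpace.single k 1)‖ ^ 2 ≤
      K ^ 2 * ∑ ε, S ε ^ (2 / p) := by
    rw [← h1, Finset.mul_sum]
    exact Finset.sum_le_sum (fun ε _ => h2 ε)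
  have h7 : ((∑ ε, S ε) / 2 ^ n) ^ (2 / p) ≤ (3 * N + n : ℝ) ^ (2 / p) := by
    refine Real.rpow_le_rpow (div_nonneg (Finset.sum_nonneg (fun ε _ => hS0 ε)) hM.le) ?_
      (by positivity)
    rw [div_le_iff₀ hM]
    exact h5
  have h8 := h3.trans h7
  rw [div_le_iff₀ hM] at h8
  have h9 := mul_le_mul_of_nonneg_left h8 (sq_nonneg K)
  have h10 : (2:ℝ) ^ n * ∑ k, ‖A (EuclideanSpace.single k 1)‖ ^ 2 ≤
      2 ^ n * (K ^ 2 * (3 * N + n : ℝ) ^ (2 / p)) := by
    refine (h6.trans h9).trans (le_of_eq ?_)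
    ring
  exact le_of_mul_le_mul_left h10 hM

end Pool.Agent.Helper802.JB.N_hs_bound
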