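import Mathlib
import Pool.Agent.Helper802.JS.Defs

set_option autoImplicit false
open Filter Topology MeasureTheory

open Pool.Agent.Helper802.JB 

namespace Pool.Agent.Helper802.JB.N_scalar_path


theorem finrank_inf_ge' {n : ℕ} (s t : Submodule ℝ (EE n)) :
    (Module.finrank ℝ s : ℝ) + Module.finrank ℝ t - n ≤ Module.finrank ℝ (s ⊓ t : Submodule ℝ (EE n)) := by
  have h1 := Submodule.finrank_sup_add_finrank_inf_eq s t
  have h2 : Module.finrank ℝ (s ⊔ t : Submodule ℝ (EE n)) ≤ n := by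
    have := Submodule.finrank_le (s ⊔ t)
    rwa [finrank_euclideanSpace_fin] at this
  have h1' : (Module.finrank ℝ (s ⊔ t : Submodule ℝ (EE n)) : ℝ) +
      Module.finrank ℝ (s ⊓ t : Submodule ℝ (EE n)) = Module.finrank ℝ s + Module.finrank ℝ t := by
    exact_mod_cast h1
  have h2' : (Module.finrank ℝ (s ⊔ t : Submodule ℝ (EE n)) : ℝ) ≤ n := by exact_mod_cast h2
  linarith

theorem exists_ne_zero' {n : ℕ} (s : Submodule ℝ (EE n)) (h : (0 : ℝ) < Module.finrank ℝ s) :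
    ∃ x ∈ s, x ≠ 0 := by
  apply Submodule.exists_mem_ne_zero_of_ne_bot
  rintro rfl
  rw [finrank_bot] at h
  simp at h

theorem adj_close' {n : ℕ} (T : ℕ → (EE n →ₗ[ℝ] EE n))
    (hlim : ∀ x, Tendsto (fun j => T j x) atTop (𝓝 x)) :
    ∃ j, ∀ x, ‖(T j).adjoint x - x‖ ≤ 1 / 100 * ‖x‖ := by
  have h1 : Tendsto (fun j => ∑ i : Fin n, ‖T j (EuclideanSpace.basisFun (Fin n) ℝ i) -
      EuclideanSpace.basisFun (Fin n) ℝ i‖ ^ 2) atTop (𝓝 0) := by
    have : (0 : ℝ) = ∑ i : Fin n, (0 : ℝ) := by simp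
    rw [this]
    refine tendsto_finset_sum _ fun i _ => ?_
    have h2 := ((hlim (EuclideanSpace.basisFun (Fin n) ℝ i)).sub_const
      (EuclideanSpace.basisFun (Fin n) ℝ i)).norm.pow 2
    simpa using h2
  have h3 := h1.eventually (gt_mem_nhds (show (0 : ℝ) < (1 / 100) ^ 2 by norm_num))
  obtain ⟨j, hj⟩ := h3.exists
  refine ⟨j, fun x => ?_⟩
  refine abs_le_of_sq_le_sq' ?_ (by positivity) |>.2
  rw [← OrthonormalBasis.sum_sq_norm_inner_right (EuclideanSpace.basisFun (Fin n) ℝ)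
    ((T j).adjoint x - x), mul_pow]
  calc ∑ i, ‖inner ℝ (EuclideanSpace.basisFun (Fin n) ℝ i) ((T j).adjoint x - x)‖ ^ 2 ≤
        ∑ i, ‖T j (EuclideanSpace.basisFun (Fin n) ℝ i) -
          EuclideanSpace.basisFun (Fin n) ℝ i‖ ^ 2 * ‖x‖ ^ 2 := by
        refine Finset.sum_le_sum fun i _ => ?_
        rw [← mul_pow]
        refine pow_le_pow_left₀ (norm_nonneg _) ?_ 2
        rw [inner_sub_right, LinearMap.adjoint_inner_right, ← inner_sub_left]
        exact norm_inner_le_norm _ _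
    _ = (∑ i, ‖T j (EuclideanSpace.basisFun (Fin n) ℝ i) -
          EuclideanSpace.basisFun (Fin n) ℝ i‖ ^ 2) * ‖x‖ ^ 2 := (Finset.sum_mul _ _ _).symm
    _ ≤ (1 / 100) ^ 2 * ‖x‖ ^ 2 := mul_le_mul_of_nonneg_right hj.le (by positivity)

-- TARGET
theorem scalar_path {n : ℕ} {ι : Type} [Fintype ι] (p K : ℝ) (w : ι → EE n) (hn : 3 ≤ n)
    (hfew : FewOp p w K (1 / 100) (1 / 100))
    (T : ℕ → (EE n →ₗ[ℝ] EE n)) (h0 : T 0 = 0) (hK : ∀ j x, NE p w (T j x) ≤ K * NE p w x)
    (hlim : ∀ x, Tendsto (fun j => T j x) atTop (𝓝 x))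
    (hrank : ∀ j, Module.finrank ℝ (LinearMap.range (T (j + 1) - T j)) ≤ 1) :
    ∃ (j : ℕ) (c : ℝ), |c - 1 / 2| ≤ 1 / 50 ∧ ∃ V : Submodule ℝ (EE n),
      (1 - 1 / 100) * n ≤ (Module.finrank ℝ V : ℝ) ∧
      ∀ x ∈ V, ‖(T j).adjoint x - c • x‖ ≤ 1 / 100 * ‖x‖ := by
  choose c hc V hV hx using fun j => hfew (T j) (hK j)
  have hn' : (3 : ℝ) ≤ n := by exact_mod_cast hn
  have habs : ∀ (a b : ℝ) (x : EE n), x ≠ 0 → ‖a • x‖ ≤ b * ‖x‖ → |a| ≤ b := by
    intro a b x hx0 h
    rw [norm_smul, Real.norm_eq_abs] at h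
    exact le_of_mul_le_mul_right h (norm_pos_iff.2 hx0)
  -- (a)
  have ha : |c 0| ≤ 1 / 100 := by
    obtain ⟨x, hxV, hx0⟩ := exists_ne_zero' (V 0) (by have := hV 0; nlinarith)
    refine habs _ _ x hx0 ?_
    have h := hx 0 x hxV
    rw [h0, map_zero, LinearMap.zero_apply, zero_sub, norm_neg] at h
    exact h
  -- (b)
  have hb : ∀ j, |c (j + 1) - c j| ≤ 1 / 50 := by
    intro j
    set D := (T (j + 1) - T j).adjoint with hD
    have hk : (n : ℝ) - 1 ≤ Module.finrank ℝ (LinearMap.ker D) := by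
      have h1 := LinearMap.finrank_range_add_finrank_ker D
      rw [finrank_euclideanSpace_fin] at h1
      have h2 : Module.finrank ℝ (LinearMap.range D) ≤ 1 := by
        rw [hD, LinearMap.finrank_range_adjoint]; exact hrank j
      have h1' : (Module.finrank ℝ (LinearMap.range D) : ℝ) +
        Module.finrank ℝ (LinearMap.ker D) = n := by exact_mod_cast h1
      have h2' : (Module.finrank ℝ (LinearMap.range D) : ℝ) ≤ 1 := by exact_mod_cast h2
      linarith
    have h3 := finrank_inf_ge' (V j) (V (j + 1))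
    have h4 := finrank_inf_ge' (V j ⊓ V (j + 1)) (LinearMap.ker D)
    obtain ⟨x, hxV, hx0⟩ := exists_ne_zero' ((V j ⊓ V (j + 1)) ⊓ LinearMap.ker D) (by
      have := hV j
      have := hV (j + 1)
      nlinarith)
    rw [Submodule.mem_inf, Submodule.mem_inf] at hxV
    obtain ⟨⟨h5, h6⟩, h7⟩ := hxV
    have e1 := hx j x h5
    have e2 := hx (j + 1) x h6
    have e3 : (T (j + 1)).adjoint x = (T j).adjoint x := by
      rw [LinearMap.mem_ker, hD, map_sub, LinearMap.sub_apply, sub_eq_zero] at h7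
      exact h7
    refine habs _ _ x hx0 ?_
    have e4 : (c (j + 1) - c j) • x = ((T j).adjoint x - c j • x) -
        ((T (j + 1)).adjoint x - c (j + 1) • x) := by
      rw [e3, sub_smul]; abel
    rw [e4]
    refine (norm_sub_le _ _).trans ?_
    linarith
  -- (c)
  obtain ⟨J, hJ⟩ := adj_close' T hlim
  have hcJ : |1 - c J| ≤ 1 / 50 := by
    obtain ⟨x, hxV, hx0⟩ := exists_ne_zero' (V J) (by have := hV J; nlinarith)
    refine habs _ _ x hx0 ?_
    have e1 := hx J x hxV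
    have e2 := hJ x
    have e3 : (1 - c J) • x = ((T J).adjoint x - c J • x) - ((T J).adjoint x - x) := by
      rw [sub_smul, one_smul]; abel
    rw [e3]
    refine (norm_sub_le _ _).trans ?_
    linarith
  -- (d)
  classical
  have hex : ∃ j, (49 / 100 : ℝ) ≤ c j := ⟨J, by have := (abs_le.1 hcJ).2; linarith⟩
  set j := Nat.find hex with hj
  have hj1 : (49 / 100 : ℝ) ≤ c j := Nat.find_spec hex
  have hj0 : j ≠ 0 := by
    intro h
    rw [h] at hj1
    have := (abs_le.1 ha).2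
    linarith
  obtain ⟨k, hk⟩ := Nat.exists_eq_succ_of_ne_zero hj0
  have hk1 : c k < 49 / 100 := by
    have := Nat.find_min hex (show k < j by omega)
    exact not_le.1 this
  have hjk := hb k
  have hj2 : c j ≤ 51 / 100 := by
    have h := (abs_le.1 hjk).2
    rw [show k + 1 = j from hk.symm] at h
    linarith
  refine ⟨j, c j, ?_, V j, hV j, hx j⟩
  rw [abs_le]
  constructor <;> linarith

end Pool.Agent.Helper802.JB.N_scalar_path
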