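import Mathlib
import Pool.Agent.Helper802.JS.Defs
import Pool.Agent.Helper802.JS.sv_split
import Pool.Agent.Helper802.JS.scalar_path
import Pool.Agent.Helper802.JS.hs_bound

set_option autoImplicit false
open Filter Topology MeasureTheory

open Pool.Agent.Helper802.JB Pool.Agent.Helper802.JB.N_sv_split Pool.Agent.Helper802.JB.N_scalar_path Pool.Agent.Helper802.JB.N_hs_bound

namespace Pool.Agent.Helper802.JB.N_no_path_of_fewOp





-- TARGET
theorem np_comap {a b : ℕ} (L : EE a →ₗ[ℝ] EE b) (W : Submodule ℝ (EE b)) :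
    (a : ℝ) + Module.finrank ℝ W ≤ (Module.finrank ℝ (W.comap L) : ℝ) + b := by
  have h1 : W.comap L = LinearMap.ker (W.mkQ.comp L) := by
    rw [LinearMap.ker_comp, Submodule.ker_mkQ]
  have h2 := LinearMap.finrank_range_add_finrank_ker (W.mkQ.comp L)
  rw [← h1, finrank_euclideanSpace_fin] at h2
  have h3 : Module.finrank ℝ (LinearMap.range (W.mkQ.comp L)) ≤ Module.finrank ℝ (EE b ⧸ W) :=
    Submodule.finrank_le _
  have h4 := Submodule.finrank_quotient_add_finrank W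
  rw [finrank_euclideanSpace_fin] at h4
  have h5 : a + Module.finrank ℝ W ≤ Module.finrank ℝ (W.comap L) + b := by omega
  exact_mod_cast h5

theorem np_inf {a : ℕ} (U W : Submodule ℝ (EE a)) :
    (Module.finrank ℝ U : ℝ) + Module.finrank ℝ W ≤
      (Module.finrank ℝ (U ⊓ W : Submodule ℝ (EE a)) : ℝ) + a := by
  have h1 := Submodule.finrank_sup_add_finrank_inf_eq U W
  have h2 : Module.finrank ℝ (U ⊔ W : Submodule ℝ (EE a)) ≤ a := by
    have := Submodule.finrank_le (U ⊔ W)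
    rwa [finrank_euclideanSpace_fin] at this
  have h3 : Module.finrank ℝ U + Module.finrank ℝ W ≤
      Module.finrank ℝ (U ⊓ W : Submodule ℝ (EE a)) + a := by omega
  exact_mod_cast h3

theorem np_orth {a : ℕ} (U : Submodule ℝ (EE a)) :
    (Module.finrank ℝ (Uᗮ : Submodule ℝ (EE a)) : ℝ) = a - Module.finrank ℝ U := by
  have h1 := Submodule.finrank_add_finrank_orthogonal U
  rw [finrank_euclideanSpace_fin] at h1
  have h2 : (Module.finrank ℝ U : ℝ) + Module.finrank ℝ (Uᗮ : Submodule ℝ (EE a)) = a := by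
    exact_mod_cast h1
  linarith

theorem np_le_NE {n N : ℕ} (p : ℝ) (hp : 0 < p) (g : Fin N → EE n) (k : Fin n) (z : EE n) :
    |inner ℝ (EuclideanSpace.single k (1 : ℝ)) z| ≤ NE p (withBasis g) z := by
  unfold NE
  have h1 : |inner ℝ (EuclideanSpace.single k (1 : ℝ)) z| ^ p ≤
      ∑ i, |inner ℝ (withBasis g i) z| ^ p := by
    have h2 : |inner ℝ (withBasis g (Sum.inr k)) z| ^ p ≤
        ∑ i, |inner ℝ (withBasis g i) z| ^ p :=
      Finset.single_le_sum (f := fun i => |inner ℝ (withBasis g i) z| ^ p)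
        (fun i _ => Real.rpow_nonneg (abs_nonneg _) _) (Finset.mem_univ (Sum.inr k))
    exact h2
  calc |inner ℝ (EuclideanSpace.single k (1 : ℝ)) z|
      = (|inner ℝ (EuclideanSpace.single k (1 : ℝ)) z| ^ p) ^ (1 / p) := by
        rw [← Real.rpow_mul (abs_nonneg _), mul_one_div_cancel hp.ne', Real.rpow_one]
    _ ≤ _ := Real.rpow_le_rpow (Real.rpow_nonneg (abs_nonneg _) _) h1 (by positivity)

theorem np_hs {a b : ℕ} (A : EE a →ₗ[ℝ] EE b) :
    ∑ l, ‖A.adjoint (EuclideanSpace.single l 1)‖ ^ 2 =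
      ∑ k, ‖A (EuclideanSpace.single k 1)‖ ^ 2 := by
  have h1 : ∀ l : Fin b, ‖A.adjoint (EuclideanSpace.single l 1)‖ ^ 2 =
      ∑ k, (inner ℝ (A (EuclideanSpace.single k 1)) (EuclideanSpace.single l (1 : ℝ))) ^ 2 := by
    intro l
    rw [EuclideanSpace.norm_sq_eq]
    refine Finset.sum_congr rfl fun k _ => ?_
    rw [Real.norm_eq_abs, sq_abs]
    have h2 : (A.adjoint (EuclideanSpace.single l 1)) k =
        inner ℝ (EuclideanSpace.single k (1 : ℝ)) (A.adjoint (EuclideanSpace.single l 1)) := by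
      rw [EuclideanSpace.inner_single_left]; simp
    rw [h2, LinearMap.adjoint_inner_right]
  have h3 : ∀ k : Fin a, ‖A (EuclideanSpace.single k 1)‖ ^ 2 =
      ∑ l, (inner ℝ (A (EuclideanSpace.single k 1)) (EuclideanSpace.single l (1 : ℝ))) ^ 2 := by
    intro k
    rw [EuclideanSpace.norm_sq_eq]
    refine Finset.sum_congr rfl fun l _ => ?_
    rw [Real.norm_eq_abs, sq_abs, EuclideanSpace.inner_single_right]
    simp
  rw [Finset.sum_congr rfl fun l _ => h1 l, Finset.sum_congr rfl fun k _ => h3 k,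
    Finset.sum_comm]

theorem np_asymp (p K : ℝ) (hp : 2 < p) (C : ℝ) (hC : 0 ≤ C) :
    ∃ n1 : ℕ, ∀ n : ℕ, n1 ≤ n → 100 * K ^ 4 * (C * n) ^ (2 / p) ≤ (n : ℝ) / 4 := by
  have hp0 : 0 < p := by linarith
  have hy : 0 < 1 - 2 / p := by
    rw [sub_pos, div_lt_one hp0]; exact hp
  have h1 : Tendsto (fun x : ℝ => 400 * K ^ 4 * C ^ (2 / p) * x ^ (-(1 - 2 / p))) atTop
      (𝓝 (400 * K ^ 4 * C ^ (2 / p) * 0)) := (tendsto_rpow_neg_atTop hy).const_mul _
  rw [mul_zero] at h1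
  have h2 := (h1.comp tendsto_natCast_atTop_atTop).eventually
    (gt_mem_nhds (show (0 : ℝ) < 1 by norm_num))
  obtain ⟨n1, hn1⟩ := (h2.and (eventually_ge_atTop 1)).exists_forall_of_atTop
  refine ⟨n1, fun n hn => ?_⟩
  obtain ⟨h3, h4⟩ := hn1 n hn
  have hn0 : (0 : ℝ) < n := by exact_mod_cast h4
  have h3' : 400 * K ^ 4 * C ^ (2 / p) * (n : ℝ) ^ (-(1 - 2 / p)) < 1 := h3
  rw [Real.mul_rpow hC hn0.le]
  have h5 : (n : ℝ) ^ (2 / p) = n * (n : ℝ) ^ (-(1 - 2 / p)) := by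
    have : (n : ℝ) ^ (2 / p) = (n : ℝ) ^ ((1 : ℝ) + -(1 - 2 / p)) := by
      congr 1; ring
    rw [this, Real.rpow_add hn0, Real.rpow_one]
  rw [h5]
  have h6 : 100 * K ^ 4 * (C ^ (2 / p) * (n * (n : ℝ) ^ (-(1 - 2 / p)))) =
      (400 * K ^ 4 * C ^ (2 / p) * (n : ℝ) ^ (-(1 - 2 / p))) * n / 4 := by ring
  rw [h6]
  have h7 := mul_le_mul_of_nonneg_right h3'.le hn0.le
  linarith

/-- A10 -/
theorem no_path_of_fewOp (p K : ℝ) (hp : 2 < p) (hp4 : p ≤ 4) (hK : 1 ≤ K) (C1 n0 : ℕ)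
    (hC1 : 1 ≤ C1) :
    ∃ n2 : ℕ, ∀ n, n2 ≤ n → ∀ g : Fin (C1 * n) → EE n, (∀ i, ‖g i‖ ≤ 1) →
      FewOp p (withBasis g) K (1 / 100) (1 / 100) → NoPath p (withBasis g) K n0 := by
  obtain ⟨n1, hn1⟩ := np_asymp p K hp (3 * C1 + 1) (by positivity)
  refine ⟨max n1 (max 3 (8 * n0)), fun n hn g hg hfew => ?_⟩
  have hnn1 : n1 ≤ n := (le_max_left _ _).trans hn
  have hn3 : 3 ≤ n := (le_max_left _ _).trans ((le_max_right _ _).trans hn)
  have hn8 : 8 * n0 ≤ n := (le_max_right _ _).trans ((le_max_right _ _).trans hn)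
  have hK0 : 0 < K := by linarith
  have hp0 : 0 < p := by linarith
  have hn0R : (0 : ℝ) < n := by
    have : 0 < n := by omega
    exact_mod_cast this
  intro T h0 hTK hlim hrank hfac
  obtain ⟨j, c, hc, V, hV, hVb⟩ := scalar_path p K (withBasis g) hn3 hfew T h0 hTK hlim hrank
  obtain ⟨R, d, A, B, hR, hA, hB, hfj⟩ := hfac j
  set S := (T j).adjoint with hS
  have hSS : ∀ x, S x - S (S x) = R.adjoint x + A.adjoint (B.adjoint x) := by
    intro x
    refine ext_inner_right ℝ fun y => ?_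
    rw [inner_sub_left, hS, LinearMap.adjoint_inner_left, LinearMap.adjoint_inner_left,
      LinearMap.adjoint_inner_left, ← inner_sub_right, hfj, inner_add_left,
      LinearMap.adjoint_inner_left, LinearMap.adjoint_inner_left, LinearMap.adjoint_inner_left,
      ← inner_add_right]
  -- the subspaces
  set V1 : Submodule ℝ (EE n) := V.comap (S - c • LinearMap.id) with hV1
  have hV1r : (Module.finrank ℝ V : ℝ) ≤ Module.finrank ℝ V1 := by
    have := np_comap (S - c • LinearMap.id) V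
    linarith
  set KR : Submodule ℝ (EE n) := (LinearMap.range R)ᗮ with hKR
  have hKRr : (n : ℝ) - n0 ≤ Module.finrank ℝ KR := by
    rw [hKR, np_orth]
    have : (Module.finrank ℝ (LinearMap.range R) : ℝ) ≤ n0 := by exact_mod_cast hR
    linarith
  obtain ⟨V2, _, hV2b, hV2r⟩ := sv_split B.adjoint (2 * K) (by linarith)
  have hBe : ∀ k : Fin n, ‖B.adjoint (EuclideanSpace.single k 1)‖ ≤ K := by
    intro k
    have h1 : ‖B.adjoint (EuclideanSpace.single k 1)‖ ^ 2 ≤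
        K * ‖B.adjoint (EuclideanSpace.single k 1)‖ := by
      rw [← real_inner_self_eq_norm_sq, LinearMap.adjoint_inner_left]
      refine (le_abs_self _).trans ((np_le_NE p hp0 g k _).trans (hB _))
    by_cases h2 : ‖B.adjoint (EuclideanSpace.single k (1 : ℝ))‖ = 0
    · rw [h2]; exact hK0.le
    · have h3 : 0 < ‖B.adjoint (EuclideanSpace.single k (1 : ℝ))‖ :=
        lt_of_le_of_ne (norm_nonneg _) (Ne.symm h2)
      rw [sq] at h1
      exact le_of_mul_le_mul_right h1 h3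
  have hV2c : (Module.finrank ℝ V2 : ℝ) ≤ n / 4 := by
    have h1 : ∑ k : Fin n, ‖B.adjoint (EuclideanSpace.single k 1)‖ ^ 2 ≤ n * K ^ 2 := by
      calc ∑ k : Fin n, ‖B.adjoint (EuclideanSpace.single k 1)‖ ^ 2 ≤ ∑ _k : Fin n, K ^ 2 :=
            Finset.sum_le_sum fun k _ => pow_le_pow_left₀ (norm_nonneg _) (hBe k) 2
        _ = n * K ^ 2 := by
            rw [Finset.sum_const, Finset.card_univ, Fintype.card_fin, nsmul_eq_mul]
    have h2 : (2 * K) ^ 2 * (Module.finrank ℝ V2 : ℝ) ≤ n * K ^ 2 := hV2r.trans h1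
    have h3 : 0 < K ^ 2 := by positivity
    have h4 : K ^ 2 * (4 * (Module.finrank ℝ V2 : ℝ)) ≤ K ^ 2 * n := by nlinarith
    have h5 := le_of_mul_le_mul_left h4 h3
    linarith
  obtain ⟨W, _, hWb, hWr⟩ := sv_split A.adjoint (1 / (10 * K)) (by positivity)
  have hWc : (Module.finrank ℝ W : ℝ) ≤ n / 4 := by
    rw [np_hs] at hWr
    have h1 := hs_bound (N := C1 * n) p K hp hp4 hK0.le g hg A hA
    have h2 := hn1 n hnn1
    have h3 : (3 * ((C1 * n : ℕ) : ℝ) + n : ℝ) = (3 * C1 + 1) * n := by push_cast; ring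
    rw [h3] at h1
    have h4 := hWr.trans h1
    have h5 : (Module.finrank ℝ W : ℝ) =
        (100 * K ^ 2) * ((1 / (10 * K)) ^ 2 * (Module.finrank ℝ W : ℝ)) := by
      field_simp
      ring
    rw [h5]
    calc (100 * K ^ 2) * ((1 / (10 * K)) ^ 2 * (Module.finrank ℝ W : ℝ))
        ≤ (100 * K ^ 2) * (K ^ 2 * ((3 * C1 + 1) * n) ^ (2 / p)) :=
          mul_le_mul_of_nonneg_left h4 (by positivity)
      _ = 100 * K ^ 4 * ((3 * C1 + 1) * n) ^ (2 / p) := by ring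
      _ ≤ n / 4 := h2
  set U3 : Submodule ℝ (EE n) := (Wᗮ).comap B.adjoint with hU3
  have hU3r : (n : ℝ) - n / 4 ≤ Module.finrank ℝ U3 := by
    have h1 := np_comap B.adjoint Wᗮ
    rw [np_orth] at h1
    linarith
  have hU2r : (n : ℝ) - n / 4 ≤ (Module.finrank ℝ (V2ᗮ : Submodule ℝ (EE n)) : ℝ) := by
    rw [np_orth]; linarith
  have hn0' : (n0 : ℝ) ≤ n / 8 := by
    have : (8 * n0 : ℝ) ≤ n := by exact_mod_cast hn8
    linarith
  have i1 := np_inf V V1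
  have i2 := np_inf (V ⊓ V1) KR
  have i3 := np_inf (V ⊓ V1 ⊓ KR) V2ᗮ
  have i4 := np_inf (V ⊓ V1 ⊓ KR ⊓ V2ᗮ) U3
  have hpos : (0 : ℝ) < Module.finrank ℝ (V ⊓ V1 ⊓ KR ⊓ V2ᗮ ⊓ U3 : Submodule ℝ (EE n)) := by
    linarith
  have hpos' : 0 < Module.finrank ℝ (V ⊓ V1 ⊓ KR ⊓ V2ᗮ ⊓ U3 : Submodule ℝ (EE n)) := by
    exact_mod_cast hpos
  have hne : (V ⊓ V1 ⊓ KR ⊓ V2ᗮ ⊓ U3 : Submodule ℝ (EE n)) ≠ ⊥ := by
    intro h
    rw [h, finrank_bot] at hpos'
    exact lt_irrefl _ hpos'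
  obtain ⟨x, hx, hx0⟩ := Submodule.exists_mem_ne_zero_of_ne_bot hne
  obtain ⟨⟨⟨⟨hxV, hxV1⟩, hxKR⟩, hxV2⟩, hxU3⟩ := hx
  have hxn : 0 < ‖x‖ := norm_pos_iff.2 hx0
  have hRx : R.adjoint x = 0 := by
    refine ext_inner_right ℝ fun y => ?_
    rw [LinearMap.adjoint_inner_left, inner_zero_left, real_inner_comm]
    exact (Submodule.mem_orthogonal _ _).1 hxKR _ (LinearMap.mem_range_self _ _)
  have hAB : ‖A.adjoint (B.adjoint x)‖ ≤ 1 / 5 * ‖x‖ := by
    have h1 := hWb (B.adjoint x) hxU3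
    have h2 := hV2b x hxV2
    calc ‖A.adjoint (B.adjoint x)‖ ≤ 1 / (10 * K) * ‖B.adjoint x‖ := h1
      _ ≤ 1 / (10 * K) * (2 * K * ‖x‖) := mul_le_mul_of_nonneg_left h2 (by positivity)
      _ = 1 / 5 * ‖x‖ := by field_simp; ring
  set v : EE n := S x - c • x with hv
  have hvV : v ∈ V := by
    have h1 : (S - c • (LinearMap.id : EE n →ₗ[ℝ] EE n)) x ∈ V := hxV1
    exact h1
  have hvn : ‖v‖ ≤ 1 / 100 * ‖x‖ := hVb x hxV
  have hvn2 : ‖S v - c • v‖ ≤ 1 / 100 * ‖v‖ := hVb v hvV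
  have hSx : S x = c • x + v := by rw [hv]; abel
  have hident : (c - c ^ 2) • x = A.adjoint (B.adjoint x) - (1 - 2 * c) • v + (S v - c • v) := by
    have h1 := hSS x
    rw [hRx, zero_add] at h1
    rw [← h1]
    have h2 : S (S x) = c • (c • x + v) + S v := by
      conv_lhs => rw [hSx, map_add, map_smul, hSx]
    rw [h2, hSx]
    module
  have hnorm : |c - c ^ 2| * ‖x‖ ≤ 1 / 5 * ‖x‖ + |1 - 2 * c| * ‖v‖ + 1 / 100 * ‖v‖ := by
    have h1 : ‖(c - c ^ 2) • x‖ = |c - c ^ 2| * ‖x‖ := by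
      rw [norm_smul, Real.norm_eq_abs]
    rw [← h1, hident]
    refine (norm_add_le _ _).trans (add_le_add ((norm_sub_le _ _).trans (add_le_add hAB ?_)) hvn2)
    rw [norm_smul, Real.norm_eq_abs]
  have hc1 : |1 - 2 * c| ≤ 1 / 25 := by
    have : 1 - 2 * c = -(2 * (c - 1 / 2)) := by ring
    rw [this, abs_neg, abs_mul, abs_two]
    linarith
  have hc2 : 1 / 4 - 1 / 2500 ≤ |c - c ^ 2| := by
    have h1 : c - c ^ 2 = 1 / 4 - (c - 1 / 2) ^ 2 := by ring
    have h2 : (c - 1 / 2) ^ 2 ≤ 1 / 2500 := by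
      rw [← sq_abs]
      have := abs_nonneg (c - 1 / 2)
      nlinarith
    refine le_trans ?_ (le_abs_self _)
    rw [h1]; linarith
  have hv0 := norm_nonneg v
  have e1 : |1 - 2 * c| * ‖v‖ ≤ 1 / 25 * (1 / 100 * ‖x‖) :=
    mul_le_mul hc1 hvn hv0 (by norm_num)
  have e2 : (1 / 4 - 1 / 2500) * ‖x‖ ≤ |c - c ^ 2| * ‖x‖ :=
    mul_le_mul_of_nonneg_right hc2 hxn.le
  nlinarith

end Pool.Agent.Helper802.JB.N_no_path_of_fewOp
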