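import Mathlib
import Pool.Agent.Helper802.JS.Defs
import Pool.Agent.Helper802.JS.few_op
import Pool.Agent.Helper802.JS.no_path_of_fewOp

set_option autoImplicit false
open Filter Topology MeasureTheory

open Pool.Agent.Helper802.JB Pool.Agent.Helper802.JB.N_few_op Pool.Agent.Helper802.JB.N_no_path_of_fewOp

namespace Pool.Agent.Helper802.JB.N_finite_core




-- TARGET
lemma NE_nonneg {n : ℕ} {ι : Type} [Fintype ι] (p : ℝ) (w : ι → EE n) (x : EE n) :
    0 ≤ NE p w x := by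
  unfold NE
  exact Real.rpow_nonneg (Finset.sum_nonneg fun i _ => Real.rpow_nonneg (abs_nonneg _) _) _

lemma NE_reindex {n : ℕ} {ι κ : Type} [Fintype ι] [Fintype κ] (p : ℝ) (w : ι → EE n)
    (e : κ ≃ ι) : NE p (w ∘ e) = NE p w := by
  funext x
  unfold NE
  congr 1
  exact Fintype.sum_equiv e _ _ (fun i => rfl)

lemma NoPath_transfer {n : ℕ} {ι κ : Type} [Fintype ι] [Fintype κ] (p : ℝ) (w : ι → EE n)
    (w' : κ → EE n) (h : NE p w' = NE p w) {K K' : ℝ} (hK : K ≤ K') {n0 : ℕ}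
    (H : NoPath p w K' n0) : NoPath p w' K n0 := by
  intro T h0 h1 h2 h3 h4
  rw [h] at h1 h4
  have hN := NE_nonneg p w
  refine H T h0 (fun j x => (h1 j x).trans (mul_le_mul_of_nonneg_right hK (hN x))) h2 h3 ?_
  intro j
  obtain ⟨R, d, A, B, a1, a2, a3, a4⟩ := h4 j
  exact ⟨R, d, A, B, a1, fun x => (a2 x).trans (mul_le_mul_of_nonneg_right hK (hN x)),
    fun y => (a3 y).trans (mul_le_mul_of_nonneg_right hK (norm_nonneg _)), a4⟩

lemma NE_withBasis_zero {n : ℕ} {ι : Type} [Fintype ι] (p : ℝ) (hp : 0 < p) (g : ι → EE n)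
    (x : EE n) (hx : NE p (withBasis g) x = 0) : x = 0 := by
  unfold NE at hx
  have hnn : ∀ i ∈ (Finset.univ : Finset (ι ⊕ Fin n)),
      0 ≤ |inner ℝ (withBasis g i) x| ^ p := fun i _ => Real.rpow_nonneg (abs_nonneg _) _
  rw [Real.rpow_eq_zero (Finset.sum_nonneg hnn) (by positivity),
    Finset.sum_eq_zero_iff_of_nonneg hnn] at hx
  ext k
  have h1 := hx (Sum.inr k) (Finset.mem_univ _)
  rw [Real.rpow_eq_zero (abs_nonneg _) hp.ne', abs_eq_zero] at h1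
  simp only [withBasis, Sum.elim_inr] at h1
  rw [EuclideanSpace.inner_single_left] at h1
  simpa using h1

/-- Part A -/
theorem finite_core (p K : ℝ) (hp : 2 < p) (hp4 : p ≤ 4) (n0 : ℕ) :
    ∃ (n L : ℕ) (w : Fin L → EE n), n0 ≤ n ∧ 0 < n ∧ n ≤ L ∧ (∀ x, NE p w x = 0 → x = 0) ∧
      NoPath p w K n0 := by
  obtain ⟨C1, n1, hC1, H1⟩ := few_op p (max K 1) (1 / 100) (1 / 100) hp hp4 (le_max_right _ _)
    (by norm_num) (by norm_num)
  obtain ⟨n2, H2⟩ := no_path_of_fewOp p (max K 1) hp hp4 (le_max_right _ _) C1 n0 hC1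
  obtain ⟨n, hn1, hn2, hn3, hn4⟩ : ∃ n : ℕ, n1 ≤ n ∧ n2 ≤ n ∧ n0 ≤ n ∧ 1 ≤ n :=
    ⟨n1 + n2 + n0 + 1, by omega, by omega, by omega, by omega⟩
  obtain ⟨g, hg1, hg2⟩ := H1 n hn1
  have hnp := H2 n hn2 g hg1 hg2
  have hNE := NE_reindex p (withBasis g) (finSumFinEquiv (m := C1 * n) (n := n)).symm
  refine ⟨n, C1 * n + n, withBasis g ∘ finSumFinEquiv.symm, hn3, hn4, by omega, ?_, ?_⟩
  · intro x hx
    rw [hNE] at hx
    exact NE_withBasis_zero p (by linarith) g x hx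
  · exact NoPath_transfer p (withBasis g) _ hNE (le_max_left _ _) hnp

end Pool.Agent.Helper802.JB.N_finite_core
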