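import Mathlib
import Pool.Agent.Helper802.JS.Defs
import Pool.Agent.Helper802.JS.finite_core

set_option autoImplicit false
open Filter Topology MeasureTheory

open Pool.Agent.Helper802.JB Pool.Agent.Helper802.JB.N_finite_core

namespace Pool.Agent.Helper802.JB.N_choose_data



theorem cd_noPath_mono {n : ℕ} {ι : Type} [Fintype ι] {p : ℝ} {w : ι → EE n} {K : ℝ} {n0 n1 : ℕ}
    (h : NoPath p w K n1) (hn : n0 ≤ n1) : NoPath p w K n0 := by
  intro T h0 h1 h2 h3 h4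
  refine h T h0 h1 h2 h3 (fun j => ?_)
  obtain ⟨R, d, A, B, hR, hA, hB, hx⟩ := h4 j
  exact ⟨R, d, A, B, hR.trans hn, hA, hB, hx⟩

theorem cd_step (D N0 m : ℕ) : ∃ (p : ℝ) (n L : ℕ) (w : Fin L → EE n),
    2 < p ∧ p ≤ 4 ∧ m ≤ L ∧ 0 < n ∧ n ≤ L ∧ (m : ℝ) ≤ (L : ℝ) ^ (1 - 2 / p) ∧
    (7 : ℝ) ^ (5 ^ D + m + 1) ≤ 2 ^ (p / (p - 2)) ∧ (∀ x, NE p w x = 0 → x = 0) ∧
    NoPath p w m N0 ∧ |p - 2| ≤ 1 / ((m : ℝ) + 1) := by
  set q : ℕ := 3 * (5 ^ D + m + 1) with hq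
  have hq1 : m + 1 ≤ q := by
    have : 0 < 5 ^ D := by positivity
    omega
  have hq3 : 3 ≤ q := by omega
  have hqr1 : (m : ℝ) + 1 ≤ q := by exact_mod_cast hq1
  have hqr3 : (3 : ℝ) ≤ q := by exact_mod_cast hq3
  have hq0 : (0 : ℝ) < q := by linarith
  set ε : ℝ := 1 / q with hε
  have hε0 : 0 < ε := by positivity
  have hε1 : ε ≤ 1 / ((m : ℝ) + 1) := by
    apply one_div_le_one_div_of_le (by positivity) hqr1
  have hε3 : ε ≤ 1 := by
    rw [hε, div_le_one hq0]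
    linarith
  have hp : (2 : ℝ) < 2 + ε := by linarith
  have hp4 : 2 + ε ≤ 4 := by linarith
  have hexp : 0 < 1 - 2 / (2 + ε) := by
    have : 2 / (2 + ε) < 1 := by
      rw [div_lt_one (by linarith)]
      linarith
    linarith
  have htend : Tendsto (fun n : ℕ => (n : ℝ) ^ (1 - 2 / (2 + ε))) atTop atTop :=
    (tendsto_rpow_atTop hexp).comp tendsto_natCast_atTop_atTop
  obtain ⟨n1, hn1⟩ := Filter.eventually_atTop.mp (htend.eventually_ge_atTop (m : ℝ))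
  obtain ⟨n, L, w, hn, hn0, hnL, hNE, hNP⟩ := finite_core (2 + ε) m hp hp4 (max N0 (max m n1))
  have hL1 : N0 ≤ n := (le_max_left _ _).trans hn
  have hL2 : m ≤ n := ((le_max_left _ _).trans (le_max_right _ _)).trans hn
  have hL3 : n1 ≤ n := ((le_max_right _ _).trans (le_max_right _ _)).trans hn
  refine ⟨2 + ε, n, L, w, hp, hp4, hL2.trans hnL, hn0, hnL, hn1 L (hL3.trans hnL), ?_, hNE,
    cd_noPath_mono hNP (le_max_left _ _), ?_⟩
  · have h1 : (2 + ε) / (2 + ε - 2) = 2 * q + 1 := by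
      rw [hε]
      field_simp
      ring
    rw [h1]
    have h2 : (7 : ℝ) ^ (5 ^ D + m + 1) ≤ 8 ^ (5 ^ D + m + 1) :=
      pow_le_pow_left₀ (by norm_num) (by norm_num) _
    have h3 : (8 : ℝ) ^ (5 ^ D + m + 1) = 2 ^ q := by
      rw [hq, pow_mul]
      norm_num
    have h4 : (2 : ℝ) ^ q = 2 ^ (q : ℝ) := (Real.rpow_natCast 2 q).symm
    have h5 : (2 : ℝ) ^ (q : ℝ) ≤ 2 ^ (2 * (q : ℝ) + 1) :=
      Real.rpow_le_rpow_of_exponent_le (by norm_num) (by linarith)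
    rw [h3, h4] at h2
    exact h2.trans h5
  · rw [add_sub_cancel_left, abs_of_pos hε0]
    exact hε1

-- TARGET
/-- the choice of the parameters -/
theorem choose_data : ∃ (k n : ℕ → ℕ) (pr : ℕ → ℝ) (w : ∀ m, Fin (k m) → EE (n m)),
    (∀ m, 2 < pr m) ∧ (∀ m, pr m ≤ 4) ∧ (∀ m, m ≤ k m) ∧ (∀ m, 0 < n m) ∧ (∀ m, n m ≤ k m) ∧
    (∀ m : ℕ, (m : ℝ) ≤ (k m : ℝ) ^ (1 - 2 / pr m)) ∧
    (∀ m, (7 : ℝ) ^ (5 ^ (∑ i ∈ Finset.range m, k i) + m + 1) ≤ 2 ^ (pr m / (pr m - 2))) ∧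
    (∀ m x, NE (pr m) (w m) x = 0 → x = 0) ∧
    (∀ m, NoPath (pr m) (w m) m (∑ i ∈ Finset.range m, n i)) ∧
    Tendsto pr atTop (𝓝 2) := by
  choose P NN LL W h1 h2 h3 h4 h5 h6 h7 h8 h9 h10 using cd_step
  let s : ℕ → ℕ × ℕ := fun m => Nat.rec (0, 0)
    (fun m st => (st.1 + LL st.1 st.2 m, st.2 + NN st.1 st.2 m)) m
  have hs0 : s 0 = (0, 0) := rfl
  have hs1 : ∀ m, s (m + 1) = ((s m).1 + LL (s m).1 (s m).2 m, (s m).2 + NN (s m).1 (s m).2 m) :=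
    fun m => rfl
  have hk : ∀ m, ∑ i ∈ Finset.range m, LL (s i).1 (s i).2 i = (s m).1 := by
    intro m
    induction m with
    | zero => rw [Finset.sum_range_zero, hs0]
    | succ m ih => rw [Finset.sum_range_succ, ih, hs1]
  have hn : ∀ m, ∑ i ∈ Finset.range m, NN (s i).1 (s i).2 i = (s m).2 := by
    intro m
    induction m with
    | zero => rw [Finset.sum_range_zero, hs0]
    | succ m ih => rw [Finset.sum_range_succ, ih, hs1]
  refine ⟨fun m => LL (s m).1 (s m).2 m, fun m => NN (s m).1 (s m).2 m,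
    fun m => P (s m).1 (s m).2 m, fun m => W (s m).1 (s m).2 m,
    fun m => h1 _ _ _, fun m => h2 _ _ _, fun m => h3 _ _ _, fun m => h4 _ _ _,
    fun m => h5 _ _ _, fun m => h6 _ _ _, ?_, fun m x => h8 _ _ _ x, ?_, ?_⟩
  · intro m
    have := h7 (s m).1 (s m).2 m
    change (7 : ℝ) ^ (5 ^ (∑ i ∈ Finset.range m, LL (s i).1 (s i).2 i) + m + 1) ≤
      2 ^ (P (s m).1 (s m).2 m / (P (s m).1 (s m).2 m - 2))
    rw [hk m]
    exact this
  · intro m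
    have := h9 (s m).1 (s m).2 m
    change NoPath (P (s m).1 (s m).2 m) (W (s m).1 (s m).2 m) m
      (∑ i ∈ Finset.range m, NN (s i).1 (s i).2 i)
    rw [hn m]
    exact this
  · rw [tendsto_iff_norm_sub_tendsto_zero]
    exact squeeze_zero (fun m => norm_nonneg _) (fun m => h10 (s m).1 (s m).2 m)
      tendsto_one_div_add_atTop_nhds_zero_nat

end Pool.Agent.Helper802.JB.N_choose_data
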