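import Mathlib
import Pool.Agent.Helper802.JS.Defs

set_option autoImplicit false
open Filter Topology MeasureTheory

open Pool.Agent.Helper802.JB 

namespace Pool.Agent.Helper802.JB.N_fdd_of_proj

-- TARGET
/-- FDD from commuting projections. -/
theorem fdd_of_proj {E : Type*} [NormedAddCommGroup E] [NormedSpace ℝ E]
    (Q : ℕ → E →L[ℝ] E) (hfin : ∀ n, FiniteDimensional ℝ (LinearMap.range (Q n : E →ₗ[ℝ] E)))
    (h1 : ∀ m n, m ≤ n → ∀ x, Q m (Q n x) = Q m x) (h2 : ∀ m n, m ≤ n → ∀ x, Q n (Q m x) = Q m x)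
    (hlim : ∀ x, Tendsto (fun n => Q n x) atTop (𝓝 x)) :
    ∃ F : ℕ → Submodule ℝ E, (∀ n, FiniteDimensional ℝ (F n)) ∧
      ∀ x : E, ∃! y : ℕ → E, (∀ n, y n ∈ F n) ∧
        Tendsto (fun N => ∑ i ∈ Finset.range N, y i) atTop (𝓝 x) := by
  obtain ⟨P, hP0, hPs⟩ : ∃ P : ℕ → E →L[ℝ] E, P 0 = Q 0 ∧ ∀ m, P (m + 1) = Q (m + 1) - Q m :=
    ⟨fun n => Nat.casesOn n (Q 0) (fun m => Q (m + 1) - Q m), rfl, fun _ => rfl⟩
  have hsum : ∀ x N, ∑ i ∈ Finset.range (N + 1), P i x = Q N x := by
    intro x N
    induction N with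
    | zero => simp [hP0]
    | succ N ih => rw [Finset.sum_range_succ, ih, hPs]; simp
  have hle : ∀ n, LinearMap.range (P n : E →ₗ[ℝ] E) ≤ LinearMap.range (Q n : E →ₗ[ℝ] E) := by
    intro n
    cases n with
    | zero => rw [hP0]
    | succ m =>
      rintro _ ⟨x, rfl⟩
      refine ⟨x - Q m x, ?_⟩
      have e : P (m + 1) x = Q (m + 1) x - Q m x := by rw [hPs]; rfl
      simp only [ContinuousLinearMap.coe_coe]
      rw [e, map_sub, h2 m (m + 1) (Nat.le_succ m) x]
  have hQP1 : ∀ m i, i ≤ m → ∀ u, Q m (P i u) = P i u := by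
    intro m i him u
    cases i with
    | zero => rw [hP0]; exact h2 0 m him u
    | succ i =>
      have e : P (i + 1) u = Q (i + 1) u - Q i u := by rw [hPs]; rfl
      rw [e, map_sub, h2 (i + 1) m him, h2 i m (by omega)]
  have hQP2 : ∀ m i, m < i → ∀ u, Q m (P i u) = 0 := by
    intro m i him u
    cases i with
    | zero => omega
    | succ i =>
      have e : P (i + 1) u = Q (i + 1) u - Q i u := by rw [hPs]; rfl
      rw [e, map_sub, h1 m (i + 1) (by omega), h1 m i (by omega), sub_self]
  refine ⟨fun n => LinearMap.range (P n : E →ₗ[ℝ] E), fun n => ?_, fun x => ?_⟩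
  · have := hfin n
    exact Submodule.finiteDimensional_of_le (hle n)
  · refine ⟨fun n => P n x, ⟨fun n => ⟨x, rfl⟩, ?_⟩, ?_⟩
    · rw [← tendsto_add_atTop_iff_nat 1]
      simp_rw [hsum]
      exact hlim x
    · rintro z ⟨hz, hzlim⟩
      have hzQ : ∀ m, ∑ i ∈ Finset.range (m + 1), z i = Q m x := by
        intro m
        have t1 : Tendsto (fun N => Q m (∑ i ∈ Finset.range N, z i)) atTop (𝓝 (Q m x)) :=
          ((Q m).continuous.tendsto x).comp hzlim
        have t2 : ∀ᶠ N in atTop, Q m (∑ i ∈ Finset.range N, z i) =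
            ∑ i ∈ Finset.range (m + 1), z i := by
          filter_upwards [eventually_ge_atTop (m + 1)] with N hN
          rw [map_sum, ← Finset.sum_range_add_sum_Ico _ hN]
          have a1 : ∑ k ∈ Finset.range (m + 1), Q m (z k) = ∑ k ∈ Finset.range (m + 1), z k := by
            apply Finset.sum_congr rfl
            intro k hk
            obtain ⟨u, hu⟩ := hz k
            have hu' : P k u = z k := hu
            rw [← hu']
            exact hQP1 m k (by rw [Finset.mem_range] at hk; omega) u
          have a2 : ∑ k ∈ Finset.Ico (m + 1) N, Q m (z k) = 0 := by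
            apply Finset.sum_eq_zero
            intro k hk
            obtain ⟨u, hu⟩ := hz k
            have hu' : P k u = z k := hu
            rw [← hu']
            exact hQP2 m k (by rw [Finset.mem_Ico] at hk; omega) u
          rw [a1, a2, add_zero]
        have t3 : Tendsto (fun N => Q m (∑ i ∈ Finset.range N, z i)) atTop
            (𝓝 (∑ i ∈ Finset.range (m + 1), z i)) :=
          tendsto_const_nhds.congr' (t2.mono fun N hN => hN.symm)
        exact tendsto_nhds_unique t3 t1
      funext n
      show z n = P n x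
      cases n with
      | zero =>
        have := hzQ 0
        simp at this
        rw [this, hP0]
      | succ n =>
        have a := hzQ (n + 1)
        rw [Finset.sum_range_succ, hzQ n] at a
        rw [hPs]
        have : z (n + 1) = Q (n + 1) x - Q n x := by rw [← a]; abel
        rw [this]; rfl

end Pool.Agent.Helper802.JB.N_fdd_of_proj
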