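import Mathlib
import Pool.Agent.Helper802.JS.Defs

set_option autoImplicit false
open Filter Topology MeasureTheory

open Pool.Agent.Helper802.JB 

namespace Pool.Agent.Helper802.JB.N_glue_proj

-- TARGET
/-- gluing a lifting and a projection of the kernel part. -/
theorem glue_proj {E : Type*} [NormedAddCommGroup E] [NormedSpace ℝ E] (W G : Submodule ℝ E)
    (c r : ℝ) (hc : 0 ≤ c) (hr : 0 ≤ r)
    (hG : ∀ x : E, ∃ g ∈ G, x - g ∈ W ∧ ‖g‖ ≤ c * ‖x‖)
    (R : E →ₗ[ℝ] E) (hRG : ∀ w ∈ W, R w ∈ G ⊓ W) (hRid : ∀ w ∈ G ⊓ W, R w = w)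
    (hRn : ∀ w ∈ W, ‖R w‖ ≤ r * ‖w‖) :
    ∃ Q : E →L[ℝ] E, (∀ x, Q x ∈ G) ∧ (∀ x ∈ G, Q x = x) ∧ ‖Q‖ ≤ c + r * (1 + c) ∧
      (∀ x, x - Q x ∈ W) ∧ (∀ x ∈ W, Q x = R x) := by
  choose g0 hgG hgW hgn using hG
  have key : ∀ x g : E, g ∈ G → x - g ∈ W → g0 x + R (x - g0 x) = g + R (x - g) := by
    intro x g hg hxg
    have h1 : g - g0 x ∈ G ⊓ W := by
      refine ⟨G.sub_mem hg (hgG x), ?_⟩
      have : g - g0 x = (x - g0 x) - (x - g) := by abel
      rw [this]
      exact W.sub_mem (hgW x) hxg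
    have h2 := hRid _ h1
    have h3 : R (x - g0 x) = R (x - g) + R (g - g0 x) := by
      rw [← map_add]; congr 1; abel
    rw [h3, h2]; abel
  let Q0 : E →ₗ[ℝ] E :=
    { toFun := fun x => g0 x + R (x - g0 x)
      map_add' := by
        intro x y
        rw [key (x + y) (g0 x + g0 y) (G.add_mem (hgG x) (hgG y)) (by
          have : x + y - (g0 x + g0 y) = (x - g0 x) + (y - g0 y) := by abel
          rw [this]; exact W.add_mem (hgW x) (hgW y))]
        have : x + y - (g0 x + g0 y) = (x - g0 x) + (y - g0 y) := by abel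
        rw [this, map_add]; abel
      map_smul' := by
        intro a x
        simp only [RingHom.id_apply]
        rw [key (a • x) (a • g0 x) (G.smul_mem a (hgG x)) (by
          rw [← smul_sub]; exact W.smul_mem a (hgW x))]
        rw [← smul_sub, map_smul, smul_add] }
  have hQ0 : ∀ x, Q0 x = g0 x + R (x - g0 x) := fun x => rfl
  have hbound : ∀ x, ‖Q0 x‖ ≤ (c + r * (1 + c)) * ‖x‖ := by
    intro x
    rw [hQ0]
    have h1 := norm_add_le (g0 x) (R (x - g0 x))
    have h2 := hRn _ (hgW x)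
    have h3 := norm_sub_le x (g0 x)
    have h4 := hgn x
    have h5 : r * ‖x - g0 x‖ ≤ r * (‖x‖ + c * ‖x‖) :=
      mul_le_mul_of_nonneg_left (by linarith) hr
    nlinarith
  refine ⟨Q0.mkContinuous (c + r * (1 + c)) hbound, ?_, ?_, ?_, ?_, ?_⟩
  · intro x
    show Q0 x ∈ G
    rw [hQ0]
    exact G.add_mem (hgG x) (hRG _ (hgW x)).1
  · intro x hx
    show Q0 x = x
    rw [hQ0, key x x hx (by simp)]
    simp
  · exact LinearMap.mkContinuous_norm_le _ (by positivity) _
  · intro x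
    show x - Q0 x ∈ W
    rw [hQ0]
    have : x - (g0 x + R (x - g0 x)) = (x - g0 x) - R (x - g0 x) := by abel
    rw [this]
    exact W.sub_mem (hgW x) (hRG _ (hgW x)).2
  · intro x hx
    show Q0 x = R x
    rw [hQ0, key x 0 G.zero_mem (by simpa using hx)]
    simp

end Pool.Agent.Helper802.JB.N_glue_proj
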