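import Mathlib
import Pool.Agent.Helper802.JS.Defs

set_option autoImplicit false
open Filter Topology MeasureTheory

open Pool.Agent.Helper802.JB 

namespace Pool.Agent.Helper802.JB.N_lift_net


private theorem exists_max_net {V : Type*} [NormedAddCommGroup V] [NormedSpace ℝ V]
    [FiniteDimensional ℝ V] :
    ∃ F : Finset V, (∀ c ∈ F, ‖c‖ ≤ 2) ∧ F.card ≤ 5 ^ Module.finrank ℝ V ∧
      ∀ v : V, ‖v‖ ≤ 2 → ∃ f ∈ F, ‖v - f‖ < 1 := by
  classical
  let P : ℕ → Prop := fun n => ∃ F : Finset V, (∀ c ∈ F, ‖c‖ ≤ 2) ∧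
    (∀ c ∈ F, ∀ d ∈ F, c ≠ d → 1 ≤ ‖c - d‖) ∧ F.card = n
  have hP0 : P 0 := ⟨∅, by simp, by simp, by simp⟩
  have hbd : ∀ n, P n → n ≤ 5 ^ Module.finrank ℝ V := by
    rintro n ⟨F, h1, h2, h3⟩
    rw [← h3]
    exact Besicovitch.card_le_of_separated F h1 h2
  have hmax := Nat.findGreatest_spec (P := P) (m := 0) (n := 5 ^ Module.finrank ℝ V)
    (Nat.zero_le _) hP0
  obtain ⟨F, h1, h2, h3⟩ := hmax
  refine ⟨F, h1, Besicovitch.card_le_of_separated F h1 h2, ?_⟩
  intro v hv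
  by_contra hcon
  push Not at hcon
  have hvF : v ∉ F := by
    intro h
    have := hcon v h
    simp at this
    linarith
  have hPn : P (F.card + 1) := by
    refine ⟨insert v F, ?_, ?_, Finset.card_insert_of_notMem hvF⟩
    · intro c hc
      rcases Finset.mem_insert.mp hc with rfl | hc
      · exact hv
      · exact h1 c hc
    · intro c hc d hd hcd
      rcases Finset.mem_insert.mp hc with hc1 | hc1
      · rcases Finset.mem_insert.mp hd with hd1 | hd1
        · exact absurd (hc1.trans hd1.symm) hcd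
        · rw [hc1]
          exact hcon d hd1
      · rcases Finset.mem_insert.mp hd with hd1 | hd1
        · rw [hd1, norm_sub_rev]
          exact hcon c hc1
        · exact h2 c hc1 d hd1 hcd
  have := Nat.le_findGreatest (hbd _ hPn) hPn
  rw [h3] at this
  omega

-- TARGET
/-- finite dimensional lifting with a dimension bound and a norm bound. -/
theorem lift_net {E : Type*} [NormedAddCommGroup E] [NormedSpace ℝ E] (W : Submodule ℝ E)
    (hW : IsClosed (W : Set E)) (D : ℕ) [FiniteDimensional ℝ (E ⧸ W)]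
    (hD : Module.finrank ℝ (E ⧸ W) ≤ D) :
    ∃ G : Submodule ℝ E, FiniteDimensional ℝ G ∧ Module.finrank ℝ G ≤ 5 ^ D ∧
      ∀ x : E, ∃ g ∈ G, x - g ∈ W ∧ ‖g‖ ≤ 6 * ‖x‖ := by
  classical
  haveI : IsClosed (W : Set E) := hW
  obtain ⟨F, hF1, hF2, hF3⟩ := exists_max_net (V := E ⧸ W)
  have hl : ∀ v : E ⧸ W, ∃ m : E, Submodule.Quotient.mk m = v ∧ ‖m‖ < ‖v‖ + 1 := fun v =>
    Submodule.Quotient.norm_mk_lt v one_pos
  choose l hl1 hl2 using hl
  let G : Submodule ℝ E := Submodule.span ℝ ((F.image l : Finset E) : Set E)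
  haveI hGfin : FiniteDimensional ℝ G := FiniteDimensional.span_finset ℝ _
  have hGrank : Module.finrank ℝ G ≤ 5 ^ D := by
    calc Module.finrank ℝ G ≤ (F.image l).card := finrank_span_finset_le_card _
      _ ≤ F.card := Finset.card_image_le
      _ ≤ 5 ^ Module.finrank ℝ (E ⧸ W) := hF2
      _ ≤ 5 ^ D := Nat.pow_le_pow_right (by norm_num) hD
  refine ⟨G, hGfin, hGrank, ?_⟩
  have hlG : ∀ f ∈ F, l f ∈ G := fun f hf => Submodule.subset_span (by
    simp only [Finset.coe_image, Set.mem_image, Finset.mem_coe]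
    exact ⟨f, hf, rfl⟩)
  -- approximation
  have happ : ∀ k : ℕ, ∀ v : E ⧸ W, ‖v‖ ≤ 2 → ∃ g ∈ G, ‖g‖ ≤ 6 * (1 - (1/2) ^ k) ∧
      ‖v - W.mkQ g‖ ≤ 2 * (1/2) ^ k := by
    intro k
    induction k with
    | zero =>
      intro v hv
      refine ⟨0, G.zero_mem, by simp, ?_⟩
      simpa using hv
    | succ k ih =>
      intro v hv
      obtain ⟨f, hf, hvf⟩ := hF3 v hv
      obtain ⟨g', hg'G, hg'1, hg'2⟩ := ih ((2 : ℝ) • (v - f)) (by
        rw [norm_smul]
        simp only [Real.norm_ofNat]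
        linarith)
      refine ⟨l f + (1/2 : ℝ) • g', G.add_mem (hlG f hf) (G.smul_mem _ hg'G), ?_, ?_⟩
      · have h1 : ‖l f‖ ≤ 3 := by
          have := hl2 f
          have := hF1 f hf
          linarith
        have h2 : ‖(1/2 : ℝ) • g'‖ = (1/2) * ‖g'‖ := by
          rw [norm_smul]
          norm_num
        calc ‖l f + (1/2 : ℝ) • g'‖ ≤ ‖l f‖ + ‖(1/2 : ℝ) • g'‖ := norm_add_le _ _
          _ ≤ 3 + (1/2) * (6 * (1 - (1/2) ^ k)) := by rw [h2]; linarith
          _ = 6 * (1 - (1/2) ^ (k+1)) := by rw [pow_succ]; ring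
      · have h3 : v - W.mkQ (l f + (1/2 : ℝ) • g') = (1/2 : ℝ) • ((2 : ℝ) • (v - f) - W.mkQ g') := by
          rw [map_add, map_smul, smul_sub, smul_smul]
          have : W.mkQ (l f) = f := hl1 f
          rw [this]
          norm_num
          abel
        rw [h3, norm_smul]
        have h4 : ‖(1/2 : ℝ)‖ = 1/2 := by norm_num
        rw [h4, pow_succ]
        linarith
  -- exact lifting
  let T : G →ₗ[ℝ] (E ⧸ W) := W.mkQ.comp G.subtype
  have hTc : Continuous T := T.continuous_of_finiteDimensional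
  have hex : ∀ v : E ⧸ W, ‖v‖ ≤ 2 → ∃ g ∈ G, ‖g‖ ≤ 6 ∧ W.mkQ g = v := by
    intro v hv
    haveI : ProperSpace G := FiniteDimensional.proper_real G
    have hK : IsCompact (Metric.closedBall (0 : G) 6) := isCompact_closedBall _ _
    obtain ⟨g, hg, hgmin⟩ := hK.exists_isMinOn ⟨0, by simp⟩
      (f := fun g : G => ‖v - T g‖) ((continuous_const.sub hTc).norm.continuousOn)
    refine ⟨g, g.2, ?_, ?_⟩
    · have : ‖g‖ ≤ 6 := by simpa using hg
      exact this
    · have hle : ∀ k : ℕ, ‖v - T g‖ ≤ 2 * (1/2) ^ k := by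
        intro k
        obtain ⟨g', hg'G, hg'1, hg'2⟩ := happ k v hv
        have hmem : (⟨g', hg'G⟩ : G) ∈ Metric.closedBall (0 : G) 6 := by
          simp only [mem_closedBall_zero_iff]
          show ‖g'‖ ≤ 6
          have : (0 : ℝ) ≤ (1/2) ^ k := by positivity
          linarith
        exact (hgmin hmem).trans hg'2
      have hlim : Tendsto (fun k : ℕ => 2 * (1/2 : ℝ) ^ k) atTop (𝓝 (2 * 0)) :=
        (tendsto_pow_atTop_nhds_zero_of_lt_one (by norm_num) (by norm_num)).const_mul 2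
      have h0 : ‖v - T g‖ ≤ 2 * 0 := ge_of_tendsto' hlim hle
      have h1 : ‖v - T g‖ = 0 := le_antisymm (by simpa using h0) (norm_nonneg _)
      exact (sub_eq_zero.mp (norm_eq_zero.mp h1)).symm
  intro x
  by_cases hx : W.mkQ x = 0
  · refine ⟨0, G.zero_mem, ?_, by simp⟩
    rw [sub_zero]
    simpa using hx
  · have hpos : 0 < ‖W.mkQ x‖ := norm_pos_iff.mpr hx
    obtain ⟨g', hg'G, hg'1, hg'2⟩ := hex ((2 / ‖W.mkQ x‖) • W.mkQ x) (by
      rw [norm_smul, Real.norm_of_nonneg (by positivity), div_mul_cancel₀ _ hpos.ne'])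
    refine ⟨(‖W.mkQ x‖ / 2) • g', G.smul_mem _ hg'G, ?_, ?_⟩
    · have : W.mkQ (x - (‖W.mkQ x‖ / 2) • g') = 0 := by
        rw [map_sub, map_smul, hg'2, smul_smul]
        have : ‖W.mkQ x‖ / 2 * (2 / ‖W.mkQ x‖) = 1 := by field_simp
        rw [this, one_smul, sub_self]
      exact (Submodule.Quotient.mk_eq_zero W).mp this
    · rw [norm_smul, Real.norm_of_nonneg (by positivity)]
      have hle : ‖W.mkQ x‖ ≤ ‖x‖ := Submodule.Quotient.norm_mk_le W x
      have hx0 : 0 ≤ ‖x‖ := norm_nonneg x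
      nlinarith [norm_nonneg g']

end Pool.Agent.Helper802.JB.N_lift_net
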