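import Mathlib
import Pool.Agent.Helper802.JS.Defs
import Pool.Agent.Helper802.JS.lift_net
import Pool.Agent.Helper802.JS.glue_proj
import Pool.Agent.Helper802.JS.lemmaB

set_option autoImplicit false
open Filter Topology MeasureTheory
open Pool.Agent.Helper802.JB Pool.Agent.Helper802.JB.N_lift_net Pool.Agent.Helper802.JB.N_glue_proj Pool.Agent.Helper802.JB.N_lemmaB

namespace Pool.Agent.Helper802.JB.N_johnson_step

theorem johnson_step (k : ℕ → ℕ) (pr : ℕ → ℝ) (h2 : ∀ n, 2 < pr n) (h4 : ∀ n, pr n ≤ 4)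
    [∀ n, Fact (1 ≤ ENNReal.ofReal (pr n))]
    (hj : ∀ m, (7 : ℝ) ^ (5 ^ (∑ i ∈ Finset.range m, k i) + m + 1) ≤ 2 ^ (pr m / (pr m - 2)))
    (E : Submodule ℝ (XX k (fun n => ENNReal.ofReal (pr n))))
    (hE : IsClosed (E : Set (XX k (fun n => ENNReal.ofReal (pr n))))) (m : ℕ)
    (G : Submodule ℝ E) [FiniteDimensional ℝ G] (hG : Module.finrank ℝ G ≤ m + 1) :
    ∃ (Q : E →L[ℝ] E) (n' : ℕ), m ≤ n' ∧ ‖Q‖ ≤ 34 ∧ (∀ x, Q (Q x) = Q x) ∧ (∀ x ∈ G, Q x = x) ∧
      FiniteDimensional ℝ (LinearMap.range (Q : E →ₗ[ℝ] E)) ∧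
      Module.finrank ℝ (LinearMap.range (Q : E →ₗ[ℝ] E)) ≤
        5 ^ (∑ i ∈ Finset.range m, k i) + Module.finrank ℝ G ∧
      (∀ x : E, ∀ i, i < m → ((x - Q x : E) : XX k (fun n => ENNReal.ofReal (pr n))).1 i = 0) ∧
      (∀ x : E, (∀ i, i < n' → (x : XX k (fun n => ENNReal.ofReal (pr n))).1 i = 0) → Q x = 0) := by
  classical
  set D : ℕ := ∑ i ∈ Finset.range m, k i with hD
  -- evaluation on the first m blocks
  let ev : XX k (fun n => ENNReal.ofReal (pr n)) →ₗ[ℝ]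
      (∀ i : Fin m, PiLp (ENNReal.ofReal (pr i)) (fun _ : Fin (k i) => ℝ)) :=
    { toFun := fun x i => x.1 i
      map_add' := fun _ _ => rfl
      map_smul' := fun _ _ => rfl }
  let L : E →ₗ[ℝ] (∀ i : Fin m, PiLp (ENNReal.ofReal (pr i)) (fun _ : Fin (k i) => ℝ)) :=
    ev ∘ₗ E.subtype
  let W : Submodule ℝ E := LinearMap.ker L
  have hWmem : ∀ x : E, x ∈ W ↔ ∀ i, i < m → (x : XX k (fun n => ENNReal.ofReal (pr n))).1 i = 0 := by
    intro x
    constructor
    · intro hx i hi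
      have := congrFun (LinearMap.mem_ker.mp hx) ⟨i, hi⟩
      exact this
    · intro hx
      refine LinearMap.mem_ker.mpr ?_
      funext i
      exact hx i i.2
  have hWclosed : IsClosed (W : Set E) := by
    have hcont : ∀ i : ℕ, Continuous fun x : E => (x : XX k (fun n => ENNReal.ofReal (pr n))).1 i := by
      intro i
      let f : XX k (fun n => ENNReal.ofReal (pr n)) →ₗ[ℝ] PiLp (ENNReal.ofReal (pr i)) (fun _ : Fin (k i) => ℝ) :=
        { toFun := fun x => x.1 i, map_add' := fun _ _ => rfl, map_smul' := fun _ _ => rfl }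
      have : Continuous f := by
        refine (f.mkContinuous 1 ?_).continuous
        intro x
        rw [one_mul]
        exact lp.norm_apply_le_norm (by norm_num) x i
      exact this.comp continuous_subtype_val
    have : (W : Set E) = ⋂ i : ℕ, ⋂ _ : i < m,
        {x : E | (x : XX k (fun n => ENNReal.ofReal (pr n))).1 i = 0} := by
      ext x
      simp only [SetLike.mem_coe, hWmem, Set.mem_iInter, Set.mem_ofPred_eq]
    rw [this]
    exact isClosed_iInter fun i => isClosed_iInter fun _ => isClosed_eq (hcont i) continuous_const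
  have e1 : (E ⧸ W) ≃ₗ[ℝ] LinearMap.range L := L.quotKerEquivRange
  have hfd : FiniteDimensional ℝ (E ⧸ W) := Module.Finite.equiv e1.symm
  have hfr : Module.finrank ℝ (E ⧸ W) ≤ D := by
    rw [e1.finrank_eq]
    refine (Submodule.finrank_le _).trans ?_
    rw [Module.finrank_pi_fintype]
    have : ∀ i : Fin m, Module.finrank ℝ (PiLp (ENNReal.ofReal (pr i)) (fun _ : Fin (k i) => ℝ)) = k i := by
      intro i
      rw [(WithLp.linearEquiv (ENNReal.ofReal (pr i)) ℝ (Fin (k i) → ℝ)).finrank_eq]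
      simp
    simp only [this]
    rw [hD, Finset.sum_range]
  obtain ⟨G0, hG0fd, hG0fr, hG0lift⟩ := lift_net W hWclosed D hfr
  have := hG0fd
  let G' : Submodule ℝ E := G0 ⊔ G
  have hG'fd : FiniteDimensional ℝ G' := by
    show FiniteDimensional ℝ (G0 ⊔ G : Submodule ℝ E)
    infer_instance
  have hG'fr : Module.finrank ℝ G' ≤ 5 ^ D + Module.finrank ℝ G :=
    (Submodule.finrank_add_le_finrank_add_finrank G0 G).trans (by omega)
  let H : Submodule ℝ (XX k (fun n => ENNReal.ofReal (pr n))) := (G' ⊓ W).map E.subtype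
  have hHfd : FiniteDimensional ℝ H := by
    have : FiniteDimensional ℝ (G' ⊓ W : Submodule ℝ E) :=
      Submodule.finiteDimensional_of_le (inf_le_left : G' ⊓ W ≤ G')
    show FiniteDimensional ℝ ((G' ⊓ W).map E.subtype)
    infer_instance
  have hHfr : Module.finrank ℝ H ≤ 5 ^ D + m + 1 := by
    have h1 : Module.finrank ℝ H ≤ Module.finrank ℝ (G' ⊓ W : Submodule ℝ E) := by
      have : FiniteDimensional ℝ (G' ⊓ W : Submodule ℝ E) :=
        Submodule.finiteDimensional_of_le (inf_le_left : G' ⊓ W ≤ G')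
      exact Submodule.finrank_map_le _ _
    have h3 : Module.finrank ℝ (G' ⊓ W : Submodule ℝ E) ≤ Module.finrank ℝ G' :=
      Submodule.finrank_mono inf_le_left
    omega
  have hpow : ∀ i, m ≤ i → (7 : ℝ) ^ (5 ^ D + m + 1) ≤ 2 ^ (pr i / (pr i - 2)) := by
    intro i hi
    refine le_trans ?_ (hj i)
    refine pow_le_pow_right₀ (by norm_num) ?_
    have : D ≤ ∑ j ∈ Finset.range i, k j := by
      rw [hD]
      exact Finset.sum_le_sum_of_subset (Finset.range_mono hi)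
    have h5 : 5 ^ D ≤ 5 ^ (∑ j ∈ Finset.range i, k j) := Nat.pow_le_pow_right (by norm_num) this
    omega
  have hsupp : ∀ x ∈ H, ∀ i, i < m → (x : ∀ n, PiLp (ENNReal.ofReal (pr n)) (fun _ : Fin (k n) => ℝ)) i = 0 := by
    rintro x ⟨y, hy, rfl⟩ i hi
    exact (hWmem y).mp hy.2 i hi
  obtain ⟨n', d, Φ, Ψ, hn', hΦ, hΨ, hΨH, hΨΦ, hΦ0⟩ :=
    lemmaB k pr h2 h4 m (5 ^ D + m + 1) hpow H hHfr hsupp
  -- the map R
  have hHE : ∀ y ∈ H, y ∈ E := by
    rintro y ⟨z, _, rfl⟩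
    exact z.2
  let R : E →ₗ[ℝ] E :=
    LinearMap.codRestrict E ((Ψ : EuclideanSpace ℝ (Fin d) →ₗ[ℝ] _) ∘ₗ (Φ : _ →ₗ[ℝ] EuclideanSpace ℝ (Fin d)) ∘ₗ E.subtype)
      (fun x => hHE _ (hΨH _))
  have hRval : ∀ x : E, ((R x : E) : XX k (fun n => ENNReal.ofReal (pr n))) = Ψ (Φ x) := fun x => rfl
  have hRH : ∀ x : E, R x ∈ G' ⊓ W := by
    intro x
    obtain ⟨y, hy, hyx⟩ := hΨH (Φ (x : XX k (fun n => ENNReal.ofReal (pr n))))
    have : R x = y := Subtype.ext (by rw [hRval]; exact hyx.symm)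
    rw [this]; exact hy
  obtain ⟨Q, hQG, hQid, hQn, hQW, hQR⟩ := glue_proj W G' 6 4 (by norm_num) (by norm_num)
    (fun x => by
      obtain ⟨g, hg, h⟩ := hG0lift x
      exact ⟨g, (le_sup_left : G0 ≤ G0 ⊔ G) hg, h⟩) R (fun w _ => hRH w)
    (fun w hw => by
      apply Subtype.ext
      rw [hRval]
      exact hΨΦ _ ⟨w, hw, rfl⟩)
    (fun w _ => by
      have : ‖R w‖ = ‖Ψ (Φ (w : XX k (fun n => ENNReal.ofReal (pr n))))‖ := by
        rw [← hRval]; rfl
      rw [this]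
      calc ‖Ψ (Φ (w : XX k (fun n => ENNReal.ofReal (pr n))))‖ ≤ 2 * ‖Φ (w : XX k (fun n => ENNReal.ofReal (pr n)))‖ := hΨ _
        _ ≤ 2 * (2 * ‖(w : XX k (fun n => ENNReal.ofReal (pr n)))‖) := by
            have := hΦ (w : XX k (fun n => ENNReal.ofReal (pr n))); linarith
        _ = 4 * ‖w‖ := by rw [show ‖w‖ = ‖(w : XX k (fun n => ENNReal.ofReal (pr n)))‖ from rfl]; ring)
  have hrange : LinearMap.range (Q : E →ₗ[ℝ] E) ≤ G' := by
    rintro _ ⟨x, rfl⟩
    exact hQG x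
  refine ⟨Q, n', hn', by norm_num at hQn ⊢; exact hQn, fun x => hQid _ (hQG x),
    fun x hx => hQid x ((le_sup_right : G ≤ G0 ⊔ G) hx), Submodule.finiteDimensional_of_le hrange,
    (Submodule.finrank_mono hrange).trans hG'fr, fun x i hi => (hWmem _).mp (hQW x) i hi, ?_⟩
  intro x hx
  have hxW : x ∈ W := (hWmem x).mpr fun i hi => hx i (lt_of_lt_of_le hi hn')
  rw [hQR x hxW]
  apply Subtype.ext
  rw [hRval, hΦ0 _ (fun i _ hi => hx i hi), map_zero]
  rfl

end Pool.Agent.Helper802.JB.N_johnson_step
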