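import Mathlib
import Pool.Agent.Helper802.JS.Defs

set_option autoImplicit false
open Filter Topology MeasureTheory

open Pool.Agent.Helper802.JB 

namespace Pool.Agent.Helper802.JB.N_separable_XX


-- TARGET
theorem separable_XX (k : ℕ → ℕ) (p : ℕ → ENNReal) [∀ n, Fact (1 ≤ p n)] :
    TopologicalSpace.SeparableSpace (XX k p) := by
  have hE : ∀ n, TopologicalSpace.SeparableSpace (PiLp (p n) (fun _ : Fin (k n) => ℝ)) := by
    intro n
    have : ProperSpace (PiLp (p n) (fun _ : Fin (k n) => ℝ)) := FiniteDimensional.proper ℝ _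
    infer_instance
  let S : Set (XX k p) := ⋃ i : ℕ, Set.range (lp.single (E := fun n : ℕ => PiLp (p n) (fun _ : Fin (k n) => ℝ)) 2 i)
  have hS : TopologicalSpace.IsSeparable S := by
    refine TopologicalSpace.IsSeparable.iUnion fun i => ?_
    haveI := hE i
    exact TopologicalSpace.isSeparable_range (lp.isometry_single (E := fun n : ℕ => PiLp (p n) (fun _ : Fin (k n) => ℝ)) (p := 2) i).continuous
  have hspan : TopologicalSpace.IsSeparable (Submodule.span ℝ S : Set (XX k p)) := hS.span
  have hcl := hspan.closure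
  have huniv : closure (Submodule.span ℝ S : Set (XX k p)) = Set.univ := by
    refine Set.eq_univ_of_forall fun x => ?_
    have h := lp.hasSum_single (E := fun n : ℕ => PiLp (p n) (fun _ : Fin (k n) => ℝ)) (p := 2) (by norm_num) x
    refine mem_closure_of_tendsto h (Eventually.of_forall fun s => ?_)
    exact Submodule.sum_mem _ fun i _ => Submodule.subset_span (Set.mem_iUnion.2 ⟨i, ⟨x i, rfl⟩⟩)
  rw [huniv] at hcl
  exact TopologicalSpace.isSeparable_univ_iff.1 hcl

end Pool.Agent.Helper802.JB.N_separable_XX
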