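import Mathlib
import Pool.Agent.Helper802.JS.Defs
import Pool.Agent.Helper802.JS.fdd_of_proj
import Pool.Agent.Helper802.JS.separable_XX
import Pool.Agent.Helper802.JS.johnson_step

set_option autoImplicit false
open Filter Topology MeasureTheory

open Pool.Agent.Helper802.JB Pool.Agent.Helper802.JB.N_fdd_of_proj Pool.Agent.Helper802.JB.N_separable_XX Pool.Agent.Helper802.JB.N_johnson_step

namespace Pool.Agent.Helper802.JB.N_johnson





-- TARGET
/-- Johnson's theorem -/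
theorem johnson (k : ℕ → ℕ) (pr : ℕ → ℝ) (h2 : ∀ n, 2 < pr n) (h4 : ∀ n, pr n ≤ 4)
    [∀ n, Fact (1 ≤ ENNReal.ofReal (pr n))]
    (hj : ∀ m, (7 : ℝ) ^ (5 ^ (∑ i ∈ Finset.range m, k i) + m + 1) ≤ 2 ^ (pr m / (pr m - 2)))
    (E : Submodule ℝ (XX k (fun n => ENNReal.ofReal (pr n))))
    (hE : IsClosed (E : Set (XX k (fun n => ENNReal.ofReal (pr n))))) :
    (∃ F : ℕ → Submodule ℝ E, (∀ n, FiniteDimensional ℝ (F n)) ∧
        ∀ x : E, ∃! y : ℕ → E, (∀ n, y n ∈ F n) ∧
          Tendsto (fun N => ∑ i ∈ Finset.range N, y i) atTop (𝓝 x)) ∧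
      (∃ (C : ℝ) (f : ℕ → ℕ), ∀ G : Submodule ℝ E, FiniteDimensional ℝ G →
        ∃ T : E →L[ℝ] E, (∀ x ∈ G, T x = x) ∧ ‖T‖ ≤ C ∧
          FiniteDimensional ℝ (LinearMap.range (T : E →ₗ[ℝ] E)) ∧
          Module.finrank ℝ (LinearMap.range (T : E →ₗ[ℝ] E)) ≤ f (Module.finrank ℝ G)) := by
  classical
  refine ⟨?_, 34, fun d => 5 ^ (∑ i ∈ Finset.range d, k i) + d, ?_⟩
  swap
  · intro G hG
    haveI := hG
    obtain ⟨Q, n', -, hQ34, -, hQG, hfd, hrk, -, -⟩ :=
      johnson_step k pr h2 h4 hj E hE (Module.finrank ℝ G) G (Nat.le_succ _)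
    exact ⟨Q, hQG, hQ34, hfd, hrk⟩
  haveI hsepV : TopologicalSpace.SeparableSpace (XX k (fun n => ENNReal.ofReal (pr n))) :=
    separable_XX k _
  haveI hsecV : SecondCountableTopology (XX k (fun n => ENNReal.ofReal (pr n))) :=
    UniformSpace.secondCountable_of_separable _
  haveI hsepE : TopologicalSpace.SeparableSpace E := inferInstance
  set x : ℕ → E := TopologicalSpace.denseSeq E with hx
  have hxd : DenseRange x := TopologicalSpace.denseRange_denseSeq E
  set P : (E →L[ℝ] E) × ℕ → Prop := fun s =>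
    FiniteDimensional ℝ (LinearMap.range (s.1 : E →ₗ[ℝ] E)) ∧ ‖s.1‖ ≤ 34 ∧
      (∀ y, s.1 (s.1 y) = s.1 y) ∧
      (∀ y : E, (∀ i, i < s.2 → (y : XX k (fun n => ENNReal.ofReal (pr n))).1 i = 0) →
        s.1 y = 0) with hP
  have step : ∀ (s : {s : (E →L[ℝ] E) × ℕ // P s}) (v : E),
      ∃ s' : {s : (E →L[ℝ] E) × ℕ // P s}, (∀ y, s'.1.1 (s.1.1 y) = s.1.1 y) ∧ s'.1.1 v = v ∧
        (∀ y : E, ∀ i, i < s.1.2 →
          ((y - s'.1.1 y : E) : XX k (fun n => ENNReal.ofReal (pr n))).1 i = 0) := by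
    intro s v
    haveI h1 : FiniteDimensional ℝ (LinearMap.range (s.1.1 : E →ₗ[ℝ] E)) := s.2.1
    haveI h2' : FiniteDimensional ℝ (Submodule.span ℝ ({v} : Set E)) := inferInstance
    set G : Submodule ℝ E := LinearMap.range (s.1.1 : E →ₗ[ℝ] E) ⊔ Submodule.span ℝ {v} with hG
    haveI h3 : FiniteDimensional ℝ G := Submodule.finiteDimensional_sup _ _
    obtain ⟨Q, n', -, hQ34, hid, hQG, hfd, -, hvan, hker⟩ :=
      johnson_step k pr h2 h4 hj E hE (max s.1.2 (Module.finrank ℝ G)) G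
        ((le_max_right _ _).trans (Nat.le_succ _))
    refine ⟨⟨(Q, n'), hfd, hQ34, hid, hker⟩, ?_, ?_, ?_⟩
    · intro y
      exact hQG _ (Submodule.mem_sup_left ⟨y, rfl⟩)
    · exact hQG _ (Submodule.mem_sup_right (Submodule.mem_span_singleton_self v))
    · intro y i hi
      exact hvan y i (lt_of_lt_of_le hi (le_max_left _ _))
  choose F hF1 hF2 hF3 using step
  obtain ⟨s0, hs0⟩ : ∃ s0 : {s : (E →L[ℝ] E) × ℕ // P s}, s0.1.1 (x 0) = x 0 := by
    haveI h2' : FiniteDimensional ℝ (Submodule.span ℝ ({x 0} : Set E)) := inferInstance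
    obtain ⟨Q, n', -, hQ34, hid, hQG, hfd, -, hvan, hker⟩ :=
      johnson_step k pr h2 h4 hj E hE 0 (Submodule.span ℝ ({x 0} : Set E))
        (by simpa using finrank_span_le_card (R := ℝ) ({x 0} : Set E))
    exact ⟨⟨(Q, n'), hfd, hQ34, hid, hker⟩, hQG _ (Submodule.mem_span_singleton_self _)⟩
  let S : ℕ → {s : (E →L[ℝ] E) × ℕ // P s} := fun n => Nat.rec s0 (fun n s => F s (x (n + 1))) n
  have hS : ∀ n, S (n + 1) = F (S n) (x (n + 1)) := fun n => rfl
  set Q : ℕ → E →L[ℝ] E := fun n => (S n).1.1 with hQ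
  have hQa : ∀ n y, Q (n + 1) (Q n y) = Q n y := by
    intro n y
    have := hF1 (S n) (x (n + 1)) y
    rw [← hS] at this
    exact this
  have hQb : ∀ n y, Q n (Q (n + 1) y) = Q n y := by
    intro n y
    have h := (S n).2.2.2.2 (y - Q (n + 1) y) (fun i hi => by
      have := hF3 (S n) (x (n + 1)) y i hi
      rw [← hS] at this
      exact this)
    rw [map_sub, sub_eq_zero] at h
    exact h.symm
  have hidem : ∀ n y, Q n (Q n y) = Q n y := fun n y => (S n).2.2.2.1 y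
  have hup : ∀ m n, m ≤ n → ∀ y, Q n (Q m y) = Q m y := by
    intro m n hmn
    induction n, hmn using Nat.le_induction with
    | base => exact hidem m
    | succ n hmn ih =>
      intro y
      calc Q (n + 1) (Q m y) = Q (n + 1) (Q n (Q m y)) := by rw [ih]
        _ = Q n (Q m y) := hQa n _
        _ = Q m y := ih y
  have hdown : ∀ m n, m ≤ n → ∀ y, Q m (Q n y) = Q m y := by
    intro m n hmn
    induction n, hmn using Nat.le_induction with
    | base => exact hidem m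
    | succ n hmn ih =>
      intro y
      calc Q m (Q (n + 1) y) = Q m (Q n (Q (n + 1) y)) := (ih _).symm
        _ = Q m (Q n y) := by rw [hQb]
        _ = Q m y := ih y
  have hfix : ∀ n, Q n (x n) = x n := by
    intro n
    cases n with
    | zero => exact hs0
    | succ n =>
      have := hF2 (S n) (x (n + 1))
      rw [← hS] at this
      exact this
  have hfix' : ∀ m n, m ≤ n → Q n (x m) = x m := by
    intro m n hmn
    calc Q n (x m) = Q n (Q m (x m)) := by rw [hfix]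
      _ = Q m (x m) := hup m n hmn _
      _ = x m := hfix m
  have hnorm : ∀ n, ‖Q n‖ ≤ 34 := fun n => (S n).2.2.1
  refine fdd_of_proj Q (fun n => (S n).2.1) hdown hup ?_
  intro y
  rw [Metric.tendsto_atTop]
  intro ε hε
  obtain ⟨m, hm⟩ := hxd.exists_dist_lt y (show (0 : ℝ) < ε / 35 by positivity)
  refine ⟨m, fun n hn => ?_⟩
  rw [dist_eq_norm] at hm ⊢
  have e1 : Q n y - y = Q n (y - x m) - (y - x m) := by
    rw [map_sub, hfix' m n hn]
    abel
  rw [e1]
  calc ‖Q n (y - x m) - (y - x m)‖ ≤ ‖Q n (y - x m)‖ + ‖y - x m‖ := norm_sub_le _ _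
    _ ≤ ‖Q n‖ * ‖y - x m‖ + ‖y - x m‖ := by gcongr; exact (Q n).le_opNorm _
    _ ≤ 34 * ‖y - x m‖ + ‖y - x m‖ := by gcongr; exact hnorm n
    _ = 35 * ‖y - x m‖ := by ring
    _ < 35 * (ε / 35) := by gcongr
    _ = ε := by ring

end Pool.Agent.Helper802.JB.N_johnson
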