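import Mathlib
import Pool.Agent.Helper802.JS.Defs

set_option autoImplicit false
open Filter Topology MeasureTheory

open Pool.Agent.Helper802.JB 

namespace Pool.Agent.Helper802.JB.N_not_iso



theorem ni_signs {E ι : Type*} [NormedAddCommGroup E] [InnerProductSpace ℝ E] [DecidableEq ι]
    (v : ι → E) (s : Finset ι) :
    ∃ ε : ι → ℝ, (∀ i, ε i = 1 ∨ ε i = -1) ∧ ∑ i ∈ s, ‖v i‖ ^ 2 ≤ ‖∑ i ∈ s, ε i • v i‖ ^ 2 := by
  induction s using Finset.induction_on with
  | empty => exact ⟨fun _ => 1, fun _ => Or.inl rfl, by simp⟩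
  | insert a s ha ih =>
    obtain ⟨ε, h1, h2⟩ := ih
    set S := ∑ i ∈ s, ε i • v i with hS
    have key : ∃ c : ℝ, (c = 1 ∨ c = -1) ∧ 0 ≤ c * inner ℝ S (v a) := by
      rcases le_total 0 (inner ℝ S (v a)) with h | h
      · exact ⟨1, Or.inl rfl, by linarith⟩
      · exact ⟨-1, Or.inr rfl, by linarith⟩
    obtain ⟨c, hc, hc2⟩ := key
    refine ⟨Function.update ε a c, ?_, ?_⟩
    · intro i
      by_cases hi : i = a
      · subst hi; simpa using hc
      · simpa [Function.update_of_ne hi] using h1 i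
    · rw [Finset.sum_insert ha, Finset.sum_insert ha]
      have e1 : ∑ i ∈ s, Function.update ε a c i • v i = S := by
        rw [hS]
        apply Finset.sum_congr rfl
        intro i hi
        have : i ≠ a := by rintro rfl; exact ha hi
        rw [Function.update_of_ne this]
      rw [e1, Function.update_self, add_comm (c • v a) S, norm_add_sq_real, inner_smul_right,
        norm_smul]
      have e2 : ‖c‖ = 1 := by rcases hc with rfl | rfl <;> simp
      rw [e2, one_mul]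
      nlinarith

/-- not isomorphic to `ℓ²` -/
theorem not_iso (k : ℕ → ℕ) (pr : ℕ → ℝ) (h2 : ∀ n, 2 < pr n)
    [∀ n, Fact (1 ≤ ENNReal.ofReal (pr n))]
    (hk : ∀ m : ℕ, (m : ℝ) ≤ (k m : ℝ) ^ (1 - 2 / pr m)) :
    ¬ Nonempty (XX k (fun n => ENNReal.ofReal (pr n)) ≃L[ℝ] lp (fun _ : ℕ => ℝ) 2) := by
  rintro ⟨Φ⟩
  set C : ℝ := ‖(Φ : XX k (fun n => ENNReal.ofReal (pr n)) →L[ℝ] lp (fun _ : ℕ => ℝ) 2)‖ with hC
  set C' : ℝ := ‖(Φ.symm : lp (fun _ : ℕ => ℝ) 2 →L[ℝ] XX k (fun n => ENNReal.ofReal (pr n)))‖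
    with hC'
  have hC0 : 0 ≤ C := norm_nonneg _
  have hC0' : 0 ≤ C' := norm_nonneg _
  have b1 : ∀ x, ‖Φ x‖ ≤ C * ‖x‖ := fun x =>
    (Φ : XX k (fun n => ENNReal.ofReal (pr n)) →L[ℝ] lp (fun _ : ℕ => ℝ) 2).le_opNorm x
  have b2 : ∀ x, ‖x‖ ≤ C' * ‖Φ x‖ := fun x => by
    have := (Φ.symm : lp (fun _ : ℕ => ℝ) 2 →L[ℝ] XX k (fun n => ENNReal.ofReal (pr n))).le_opNorm (Φ x)
    simpa using this
  have main : ∀ m : ℕ, 1 ≤ m → (m : ℝ) ≤ (C * C') ^ 2 := by
    intro m hm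
    have hp : 2 < pr m := h2 m
    have hp0 : 0 < pr m := by linarith
    have hpt : (ENNReal.ofReal (pr m)).toReal = pr m := ENNReal.toReal_ofReal hp0.le
    have hkm : 1 ≤ k m := by
      by_contra h
      have h0 : k m = 0 := by omega
      have := hk m
      rw [h0, Nat.cast_zero, Real.zero_rpow] at this
      · have : (1 : ℝ) ≤ m := by exact_mod_cast hm
        linarith
      · have : 2 / pr m < 1 := by rw [div_lt_one hp0]; exact hp
        linarith
    have hK : (1 : ℝ) ≤ k m := by exact_mod_cast hkm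
    have hK0 : (0 : ℝ) < k m := by linarith
    let L : PiLp (ENNReal.ofReal (pr m)) (fun _ : Fin (k m) => ℝ) →ₗ[ℝ]
        XX k (fun n => ENNReal.ofReal (pr n)) :=
      lp.lsingle (𝕜 := ℝ) (E := fun n : ℕ => PiLp (ENNReal.ofReal (pr n)) (fun _ : Fin (k n) => ℝ)) 2 m
    have hL : ∀ x, ‖L x‖ = ‖x‖ := fun x =>
      lp.norm_single (E := fun n : ℕ => PiLp (ENNReal.ofReal (pr n)) (fun _ : Fin (k n) => ℝ))
        (by norm_num) m x
    let e : Fin (k m) → PiLp (ENNReal.ofReal (pr m)) (fun _ : Fin (k m) => ℝ) :=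
      fun a => PiLp.single (ENNReal.ofReal (pr m)) a (1 : ℝ)
    have he : ∀ a, ‖e a‖ = 1 := by
      intro a
      simp only [e]
      rw [PiLp.norm_single]; simp
    obtain ⟨ε, hε, hsum⟩ := ni_signs (fun a => Φ (L (e a))) Finset.univ
    have h1 : (k m : ℝ) ≤ C' ^ 2 * ∑ a, ‖Φ (L (e a))‖ ^ 2 := by
      have : ∀ a, (1 : ℝ) ≤ C' ^ 2 * ‖Φ (L (e a))‖ ^ 2 := by
        intro a
        have h3 := b2 (L (e a))
        rw [hL, he] at h3
        have h4 : 0 ≤ C' * ‖Φ (L (e a))‖ := by positivity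
        calc (1 : ℝ) = 1 ^ 2 := by norm_num
          _ ≤ (C' * ‖Φ (L (e a))‖) ^ 2 := by gcongr
          _ = _ := by ring
      rw [Finset.mul_sum]
      calc (k m : ℝ) = ∑ a : Fin (k m), (1 : ℝ) := by simp
        _ ≤ _ := Finset.sum_le_sum (fun a _ => this a)
    have h3 : ∑ a, ε a • Φ (L (e a)) = Φ (L (∑ a, ε a • e a)) := by
      rw [map_sum, map_sum]
      apply Finset.sum_congr rfl
      intro a _
      rw [map_smul, map_smul]
    have h4 : ‖∑ a, ε a • e a‖ = (k m : ℝ) ^ (1 / pr m) := by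
      have e1 : ∑ a, ε a • e a = WithLp.toLp (ENNReal.ofReal (pr m)) ε := by
        ext i
        simp only [e]
        rw [PiLp.toLp_apply]
        simp [Finset.sum_apply, Pi.single_apply]
      rw [e1, PiLp.norm_eq_sum (by rw [hpt]; exact hp0), hpt]
      congr 1
      have : ∀ i : Fin (k m), ‖(WithLp.toLp (ENNReal.ofReal (pr m)) ε) i‖ ^ pr m = 1 := by
        intro i
        have : ‖(WithLp.toLp (ENNReal.ofReal (pr m)) ε) i‖ = 1 := by
          rw [PiLp.toLp_apply]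
          rcases hε i with h | h <;> rw [h] <;> simp
        rw [this, Real.one_rpow]
      rw [Finset.sum_congr rfl (fun i _ => this i)]
      simp
    rw [h3] at hsum
    have h5 : ‖Φ (L (∑ a, ε a • e a))‖ ^ 2 ≤ C ^ 2 * ((k m : ℝ) ^ (1 / pr m)) ^ 2 := by
      have h6 := b1 (L (∑ a, ε a • e a))
      rw [hL, h4] at h6
      calc ‖Φ (L (∑ a, ε a • e a))‖ ^ 2 ≤ (C * (k m : ℝ) ^ (1 / pr m)) ^ 2 := by gcongr
        _ = _ := by ring
    have h7 : (k m : ℝ) ≤ (C * C') ^ 2 * (k m : ℝ) ^ (2 / pr m) := by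
      have e2 : ((k m : ℝ) ^ (1 / pr m)) ^ 2 = (k m : ℝ) ^ (2 / pr m) := by
        rw [← Real.rpow_natCast, ← Real.rpow_mul hK0.le]
        congr 1
        push_cast; ring
      rw [← e2]
      calc (k m : ℝ) ≤ C' ^ 2 * ∑ a, ‖Φ (L (e a))‖ ^ 2 := h1
        _ ≤ C' ^ 2 * (C ^ 2 * ((k m : ℝ) ^ (1 / pr m)) ^ 2) := by
            gcongr
            exact hsum.trans h5
        _ = _ := by ring
    have h8 : (k m : ℝ) ^ (1 - 2 / pr m) ≤ (C * C') ^ 2 := by
      rw [Real.rpow_sub hK0, Real.rpow_one, div_le_iff₀ (Real.rpow_pos_of_pos hK0 _)]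
      exact h7
    exact (hk m).trans h8
  obtain ⟨n, hn⟩ := exists_nat_gt ((C * C') ^ 2)
  have h9 := main (n + 1) (by omega)
  push_cast at h9
  linarith

end Pool.Agent.Helper802.JB.N_not_iso
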