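import Mathlib
import Pool.Agent.Helper802.JS.Defs
import Pool.Agent.Helper802.JS.choose_data
import Pool.Agent.Helper802.JS.not_iso
import Pool.Agent.Helper802.JS.johnson
import Pool.Agent.Helper802.JS.ETot_closed
import Pool.Agent.Helper802.JS.ETot_infinite
import Pool.Agent.Helper802.JS.ETot_no_basis

set_option autoImplicit false
open Filter Topology
open Pool.Agent.Helper802.JB Pool.Agent.Helper802.JB.N_choose_data Pool.Agent.Helper802.JB.N_not_iso Pool.Agent.Helper802.JB.N_johnson Pool.Agent.Helper802.JB.N_ETot_closed Pool.Agent.Helper802.JB.N_ETot_infinite Pool.Agent.Helper802.JB.N_ETot_no_basis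

namespace Pool.Agent.Helper802.JB.N_final

theorem js_final :
    ¬ (∀ (k : ℕ → ℕ) (p : ℕ → ENNReal) [∀ n, Fact (1 ≤ p n)],
    Tendsto k atTop atTop → Tendsto p atTop (𝓝 2) →
    (¬ Nonempty (lp (fun n : ℕ => PiLp (p n) (fun _ : Fin (k n) => ℝ)) 2 ≃L[ℝ] lp (fun _ : ℕ => ℝ) 2)) →
    (∀ E : Submodule ℝ (lp (fun n : ℕ => PiLp (p n) (fun _ : Fin (k n) => ℝ)) 2),
      IsClosed (E : Set (lp (fun n : ℕ => PiLp (p n) (fun _ : Fin (k n) => ℝ)) 2)) →
      (∃ F : ℕ → Submodule ℝ E, (∀ n, FiniteDimensional ℝ (F n)) ∧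
        ∀ x : E, ∃! y : ℕ → E, (∀ n, y n ∈ F n) ∧
          Tendsto (fun N => ∑ i ∈ Finset.range N, y i) atTop (𝓝 x)) ∧
      (∃ (C : ℝ) (f : ℕ → ℕ), ∀ G : Submodule ℝ E, FiniteDimensional ℝ G →
        ∃ T : E →L[ℝ] E, (∀ x ∈ G, T x = x) ∧ ‖T‖ ≤ C ∧
          FiniteDimensional ℝ (LinearMap.range (T : E →ₗ[ℝ] E)) ∧
          Module.finrank ℝ (LinearMap.range (T : E →ₗ[ℝ] E)) ≤ f (Module.finrank ℝ G))) →
    ∀ E : Submodule ℝ (lp (fun n : ℕ => PiLp (p n) (fun _ : Fin (k n) => ℝ)) 2),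
      IsClosed (E : Set (lp (fun n : ℕ => PiLp (p n) (fun _ : Fin (k n) => ℝ)) 2)) →
      ¬ FiniteDimensional ℝ E →
      ∃ e : ℕ → E, ∀ x : E, ∃! a : ℕ → ℝ,
        Tendsto (fun N => ∑ i ∈ Finset.range N, a i • e i) atTop (𝓝 x)) := by
  intro H
  obtain ⟨k, n, pr, w, h2, h4, hmk, hn, hnk, hkp, hj, hinj, hnp, hlim⟩ := choose_data
  have : ∀ m, Fact (1 ≤ ENNReal.ofReal (pr m)) := fun m => ⟨by
    rw [show (1 : ENNReal) = ENNReal.ofReal 1 by simp]
    exact ENNReal.ofReal_le_ofReal (by linarith [h2 m])⟩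
  have hk : Tendsto k atTop atTop := tendsto_atTop_mono hmk tendsto_id
  have hp : Tendsto (fun m => ENNReal.ofReal (pr m)) atTop (𝓝 2) := by
    have := ENNReal.tendsto_ofReal hlim
    simpa using this
  have hne := H k (fun m => ENNReal.ofReal (pr m)) hk hp (not_iso k pr h2 hkp)
    (fun E hE => johnson k pr h2 h4 hj E hE)
    (ETot k n (fun m => ENNReal.ofReal (pr m)) w) (ETot_closed _ _ _ _)
    (ETot_infinite _ _ _ _ hn (fun m v hv => hinj m v (by
      unfold NE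
      have hp0 : pr m ≠ 0 := by linarith [h2 m]
      simp [hv, Real.zero_rpow hp0, Real.zero_rpow (inv_ne_zero hp0)])))
  exact ETot_no_basis k n pr h2 h4 hj w hnk hinj hnp hne

end Pool.Agent.Helper802.JB.N_final
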